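import Mathlib

/-! # The sine kernel determinant -/

set_option autoImplicit false

namespace Pool.Agent.K4H58.KL

open Filter Topology MeasureTheory Set

noncomputable section

/-- the matrix of the sine kernel -/
def SM {k : ℕ} (p : Fin k → ℝ) : Matrix (Fin k) (Fin k) ℝ :=
  Matrix.of fun i j => Real.sinc (Real.pi * (p i - p j))

/-- the sine kernel determinant -/
def SD {k : ℕ} (p : Fin k → ℝ) : ℝ := (SM p).det

/-- the correlation density, the last point being `0` -/
def rho {m : ℕ} (u : Fin m → ℝ) : ℝ := SD (Fin.snoc u 0 : Fin (m + 1) → ℝ)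

lemma SM_cont (k : ℕ) : Continuous (SM (k := k)) := by
  refine continuous_matrix fun i j => ?_
  simp only [SM, Matrix.of_apply]
  exact Real.continuous_sinc.comp (by fun_prop)

lemma SD_cont (k : ℕ) : Continuous (SD (k := k)) := (SM_cont k).matrix_det

lemma SD_abs {k : ℕ} (p : Fin k → ℝ) : |SD p| ≤ (k.factorial : ℝ) := by
  have h := Matrix.det_le (A := SM p) (abv := IsAbsoluteValue.toAbsoluteValue (abs : ℝ → ℝ)) (x := 1)
    (fun i j => by
      show |Real.sinc (Real.pi * (p i - p j))| ≤ 1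
      exact Real.abs_sinc_le_one _)
  have h2 : |SD p| ≤ Nat.factorial (Fintype.card (Fin k)) • (1 : ℝ) ^ Fintype.card (Fin k) := h
  simpa using h2

lemma snoc_cont (m : ℕ) : Continuous fun u : Fin m → ℝ => (Fin.snoc u 0 : Fin (m + 1) → ℝ) := by
  refine continuous_pi fun i => ?_
  refine Fin.lastCases ?_ (fun j => ?_) i
  · simpa using continuous_const
  · simpa using continuous_apply j

lemma rho_cont (m : ℕ) : Continuous (rho (m := m)) := (SD_cont (m + 1)).comp (snoc_cont m)

lemma rho_abs {m : ℕ} (u : Fin m → ℝ) : |rho u| ≤ ((m + 1).factorial : ℝ) := SD_abs _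

lemma cons_cont (k : ℕ) : Continuous fun z : ℝ × (Fin k → ℝ) => (Fin.cons z.1 z.2 : Fin (k + 1) → ℝ) := by
  refine continuous_pi fun i => ?_
  refine Fin.cases ?_ (fun j => ?_) i
  · simpa using continuous_fst
  · simp only [Fin.cons_succ]
    exact (continuous_apply j).comp continuous_snd

lemma sinc_far {s : ℝ → ℝ} {l : Filter ℝ} (h : Tendsto (fun v => |s v|) l atTop) :
    Tendsto (fun v => Real.sinc (Real.pi * s v)) l (𝓝 0) := by
  have h1 : Tendsto (fun v => |s v|⁻¹) l (𝓝 0) := tendsto_inv_atTop_zero.comp h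
  rw [tendsto_zero_iff_abs_tendsto_zero]
  refine squeeze_zero' (Eventually.of_forall fun v => abs_nonneg _) ?_ h1
  filter_upwards [h.eventually_gt_atTop 0] with v hv
  have h2 : s v ≠ 0 := abs_pos.1 hv
  have hpi := Real.pi_gt_three
  have h3 : Real.pi * s v ≠ 0 := mul_ne_zero (by positivity) h2
  show |Real.sinc (Real.pi * s v)| ≤ |s v|⁻¹
  rw [Real.sinc_of_ne_zero h3, abs_div, abs_mul, abs_of_pos Real.pi_pos, div_le_iff₀ (by positivity)]
  have h4 : |s v|⁻¹ * (Real.pi * |s v|) = Real.pi := by field_simp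
  rw [h4]
  exact (Real.abs_sin_le_one _).trans (by linarith)

/-- the determinant with a far point -/
lemma SD_far {k : ℕ} (p : Fin k → ℝ) {l : Filter ℝ} (h : Tendsto (fun v : ℝ => |v|) l atTop) :
    Tendsto (fun v => SD (Fin.cons v p : Fin (k + 1) → ℝ)) l (𝓝 (SD p)) := by
  have h1 : ∀ j, Tendsto (fun v => |v - p j|) l atTop := by
    intro j
    refine tendsto_atTop_mono (fun v => ?_) (tendsto_atTop_add_const_right l (-|p j|) h)
    have := abs_sub_abs_le_abs_sub v (p j)
    linarith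
  have hentry : ∀ j : Fin k, Tendsto (fun v => SM (Fin.cons v p : Fin (k + 1) → ℝ) 0 j.succ) l (𝓝 0) := by
    intro j
    simp only [SM, Matrix.of_apply, Fin.cons_zero, Fin.cons_succ]
    exact sinc_far (h1 j)
  have hbd : ∀ (v : ℝ) (j : Fin (k + 1)),
      |((SM (Fin.cons v p : Fin (k + 1) → ℝ)).submatrix Fin.succ j.succAbove).det| ≤ (k.factorial : ℝ) := by
    intro v j
    have h := Matrix.det_le (A := (SM (Fin.cons v p : Fin (k + 1) → ℝ)).submatrix Fin.succ j.succAbove)
      (abv := IsAbsoluteValue.toAbsoluteValue (abs : ℝ → ℝ)) (x := 1)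
      (fun i j' => by
        show |Real.sinc _| ≤ 1
        exact Real.abs_sinc_le_one _)
    have h2 : |((SM (Fin.cons v p : Fin (k + 1) → ℝ)).submatrix Fin.succ j.succAbove).det| ≤
      Nat.factorial (Fintype.card (Fin k)) • (1 : ℝ) ^ Fintype.card (Fin k) := h
    simpa using h2
  have hexp : ∀ v, SD (Fin.cons v p : Fin (k + 1) → ℝ) = SD p + ∑ j : Fin k,
      (-1) ^ ((j : ℕ) + 1) * SM (Fin.cons v p : Fin (k + 1) → ℝ) 0 j.succ *
        ((SM (Fin.cons v p : Fin (k + 1) → ℝ)).submatrix Fin.succ j.succ.succAbove).det := by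
    intro v
    unfold SD
    rw [Matrix.det_succ_row_zero, Fin.sum_univ_succ]
    congr 1
    have h3 : SM (Fin.cons v p : Fin (k + 1) → ℝ) 0 0 = 1 := by
      simp [SM]
    have h4 : (SM (Fin.cons v p : Fin (k + 1) → ℝ)).submatrix Fin.succ (Fin.succAbove 0) = SM p := by
      ext i j
      simp [SM]
    rw [h3, h4]
    simp
  have hlim : Tendsto (fun v => SD p + ∑ j : Fin k,
      (-1) ^ ((j : ℕ) + 1) * SM (Fin.cons v p : Fin (k + 1) → ℝ) 0 j.succ *
        ((SM (Fin.cons v p : Fin (k + 1) → ℝ)).submatrix Fin.succ j.succ.succAbove).det) l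
      (𝓝 (SD p + ∑ _j : Fin k, 0)) := by
    refine tendsto_const_nhds.add (tendsto_finsetSum _ fun j _ => ?_)
    have h5 : Tendsto (fun v => (-1) ^ ((j : ℕ) + 1) * SM (Fin.cons v p : Fin (k + 1) → ℝ) 0 j.succ) l
        (𝓝 0) := by
      simpa using (hentry j).const_mul ((-1 : ℝ) ^ ((j : ℕ) + 1))
    refine h5.zero_mul_isBoundedUnder_le ?_
    refine ⟨(k.factorial : ℝ), ?_⟩
    rw [eventually_map]
    refine Eventually.of_forall fun v => ?_
    show ‖_‖ ≤ _
    rw [Real.norm_eq_abs]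
    exact hbd v _
  simp only [Finset.sum_const_zero, add_zero] at hlim
  exact hlim.congr fun v => (hexp v).symm

lemma rho_far {m : ℕ} (u : Fin m → ℝ) {l : Filter ℝ} (h : Tendsto (fun v : ℝ => |v|) l atTop) :
    Tendsto (fun v => rho (Fin.cons v u : Fin (m + 1) → ℝ)) l (𝓝 (rho u)) := by
  have h1 := SD_far (Fin.snoc u 0 : Fin (m + 1) → ℝ) h
  refine h1.congr fun v => ?_
  unfold rho
  rw [Fin.cons_snoc_eq_snoc_cons]

lemma pfs {m : ℕ} (z : ℝ × (Fin m → ℝ)) :
    (MeasurableEquiv.piFinSuccAbove (fun _ : Fin (m + 1) => ℝ) 0).symm z =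
      (Fin.cons z.1 z.2 : Fin (m + 1) → ℝ) := by
  simp [MeasurableEquiv.piFinSuccAbove_symm_apply, Fin.insertNthEquiv]

/-- boxes with one more side -/
lemma int_cons {m : ℕ} (a b : ℝ) (x y : Fin m → ℝ) (f : (Fin (m + 1) → ℝ) → ℝ) (hf : Continuous f) :
    ∫ w in Icc (Fin.cons a x : Fin (m + 1) → ℝ) (Fin.cons b y), f w =
      ∫ v in Icc a b, ∫ u in Icc x y, f (Fin.cons v u) := by
  have h1 := (volume_preserving_piFinSuccAbove (fun _ : Fin (m + 1) => ℝ) 0).symm
  have h2 := h1.setIntegral_preimage_emb (MeasurableEquiv.measurableEmbedding _) f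
    (Icc (Fin.cons a x : Fin (m + 1) → ℝ) (Fin.cons b y))
  have h3 : ((MeasurableEquiv.piFinSuccAbove (fun _ : Fin (m + 1) => ℝ) 0).symm) ⁻¹'
      (Icc (Fin.cons a x : Fin (m + 1) → ℝ) (Fin.cons b y)) = Icc a b ×ˢ Icc x y := by
    ext ⟨v, u⟩
    simp only [mem_preimage, mem_prod, mem_Icc]
    rw [pfs]
    rw [Fin.cons_le_cons, Fin.cons_le_cons]
    tauto
  rw [← h2, h3, Measure.volume_eq_prod, setIntegral_prod]
  · simp_rw [pfs]
  · have hc : Continuous fun z : ℝ × (Fin m → ℝ) =>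
        f ((MeasurableEquiv.piFinSuccAbove (fun _ : Fin (m + 1) => ℝ) 0).symm z) := by
      have : (fun z : ℝ × (Fin m → ℝ) =>
        f ((MeasurableEquiv.piFinSuccAbove (fun _ : Fin (m + 1) => ℝ) 0).symm z)) =
          fun z => f (Fin.cons z.1 z.2) := by
        funext z
        rw [pfs]
      rw [this]
      exact hf.comp (cons_cont m)
    exact hc.continuousOn.integrableOn_compact (isCompact_Icc.prod isCompact_Icc)

end

end Pool.Agent.K4H58.KL
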