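import Pool.Agent.K4H58.KL.Red
import Pool.Agent.K4H58.KL.Det

/-! # Long sides of boxes and the k-level asymptotics, on RH -/

set_option autoImplicit false

namespace Pool.Agent.K4H58.KL

open Filter Topology MeasureTheory Set
open SG (ord NZ)
open SP (RHs)
open Pool.Agent.R320.KL

noncomputable section

/-- the sine kernel asymptotics for one box -/
def LB {m : ℕ} (x y : Fin m → ℝ) : Prop :=
  Tendsto (fun T : ℝ => (Nk T x y : ℝ) / (T / (2 * Real.pi) * Real.log T)) atTop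
    (𝓝 (∫ u in Icc x y, rho u))

/-- the marginal -/
def Gv {m : ℕ} (x y : Fin m → ℝ) (v : ℝ) : ℝ := ∫ u in Icc x y, rho (Fin.cons v u : Fin (m + 1) → ℝ)

lemma Gv_cont {m : ℕ} (x y : Fin m → ℝ) : Continuous (Gv x y) := by
  unfold Gv
  refine continuous_parametric_integral_of_continuous (f := fun v u => rho (Fin.cons v u : Fin (m + 1) → ℝ))
    ?_ isCompact_Icc
  exact (rho_cont (m + 1)).comp (cons_cont m)

lemma Gv_abs {m : ℕ} (x y : Fin m → ℝ) (v : ℝ) :
    |Gv x y v| ≤ ((m + 2).factorial : ℝ) * (volume (Icc x y)).toReal := by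
  unfold Gv
  have h := norm_setIntegral_le_of_norm_le_const (μ := volume) (s := Icc x y)
    (f := fun u : Fin m → ℝ => rho (Fin.cons v u : Fin (m + 1) → ℝ)) (C := ((m + 2).factorial : ℝ))
    isCompact_Icc.measure_lt_top (fun u _ => by
      rw [Real.norm_eq_abs]
      exact rho_abs _)
  rw [Real.norm_eq_abs] at h
  exact h

lemma g_abs {m : ℕ} (x y : Fin m → ℝ) :
    |∫ u in Icc x y, rho u| ≤ ((m + 2).factorial : ℝ) * (volume (Icc x y)).toReal := by
  have h := norm_setIntegral_le_of_norm_le_const (μ := volume) (s := Icc x y)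
    (f := fun u : Fin m → ℝ => rho u) (C := ((m + 2).factorial : ℝ))
    isCompact_Icc.measure_lt_top (fun u _ => by
      rw [Real.norm_eq_abs]
      refine (rho_abs _).trans ?_
      exact_mod_cast Nat.factorial_le (Nat.le_succ _))
  rw [Real.norm_eq_abs] at h
  exact h

lemma Gv_far {m : ℕ} (x y : Fin m → ℝ) :
    Tendsto (Gv x y) (comap (fun v : ℝ => |v|) atTop) (𝓝 (∫ u in Icc x y, rho u)) := by
  unfold Gv
  refine tendsto_integral_filter_of_dominated_convergence (fun _ => ((m + 2).factorial : ℝ)) ?_ ?_ ?_ ?_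
  · refine Eventually.of_forall fun v => ?_
    refine Continuous.aestronglyMeasurable ?_
    exact (rho_cont (m + 1)).comp ((cons_cont m).comp
      (f := fun u : Fin m → ℝ => ((v, u) : ℝ × (Fin m → ℝ))) (continuous_const.prodMk continuous_id))
  · refine Eventually.of_forall fun v => Eventually.of_forall fun u => ?_
    rw [Real.norm_eq_abs]
    exact rho_abs _
  · exact integrableOn_const (by exact isCompact_Icc.measure_lt_top.ne)
  · refine Eventually.of_forall fun u => ?_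
    exact rho_far u tendsto_comap

/-- the average of the marginal over long intervals -/
lemma Gv_avg {m : ℕ} (x y : Fin m → ℝ) (ε : ℝ) (hε : 0 < ε) : ∃ W : ℝ, 0 < W ∧ ∀ a b : ℝ, a + W ≤ b →
    |(∫ v in Icc a b, Gv x y v) - (b - a) * ∫ u in Icc x y, rho u| ≤ ε * (b - a) := by
  obtain ⟨g, hg⟩ : ∃ g : ℝ, g = ∫ u in Icc x y, rho u := ⟨_, rfl⟩
  obtain ⟨K, hK⟩ : ∃ K : ℝ, K = 2 * (((m + 2).factorial : ℝ) * (volume (Icc x y)).toReal) := ⟨_, rfl⟩
  have hK0 : 0 ≤ K := by rw [hK]; positivity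
  have h1 : ∀ᶠ v in comap (fun v : ℝ => |v|) atTop, |Gv x y v - g| ≤ ε / 2 := by
    have := (Gv_far x y).eventually (Metric.closedBall_mem_nhds _ (half_pos hε))
    rw [← hg] at this
    filter_upwards [this] with v hv
    rwa [Real.dist_eq] at hv
  rw [eventually_comap, eventually_atTop] at h1
  obtain ⟨v0, hv0⟩ := h1
  obtain ⟨v1, hv1⟩ : ∃ v1 : ℝ, v1 = max v0 0 := ⟨_, rfl⟩
  have hv10 : 0 ≤ v1 := by rw [hv1]; exact le_max_right _ _
  have h2 : ∀ v, v1 ≤ |v| → |Gv x y v - g| ≤ ε / 2 := fun v hv =>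
    hv0 |v| ((by rw [hv1]; exact le_max_left _ _ : v0 ≤ v1).trans hv) v rfl
  have h3 : ∀ v, |Gv x y v - g| ≤ K := by
    intro v
    have a1 := Gv_abs x y v
    have a2 := g_abs x y
    rw [← hg] at a2
    calc |Gv x y v - g| ≤ |Gv x y v| + |g| := abs_sub _ _
      _ ≤ K := by rw [hK]; linarith
  refine ⟨4 * v1 * K / ε + 1, by positivity, fun a b hab => ?_⟩
  have hab' : a ≤ b := by
    have : 0 ≤ 4 * v1 * K / ε := by positivity
    linarith
  rw [← hg]
  have h4 : (∫ v in Icc a b, Gv x y v) - (b - a) * g = ∫ v in Icc a b, (Gv x y v - g) := by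
    rw [integral_sub ((Gv_cont x y).continuousOn.integrableOn_compact isCompact_Icc)
      (by exact (continuous_const.continuousOn.integrableOn_compact isCompact_Icc))]
    simp [Real.volume_real_Icc_of_le hab']
  rw [h4]
  have h5 : ∀ v, |Gv x y v - g| ≤ ε / 2 + (Icc (-v1) v1).indicator (fun _ => K) v := by
    intro v
    by_cases hv : v ∈ Icc (-v1) v1
    · rw [indicator_of_mem hv]
      have := h3 v
      linarith
    · rw [indicator_of_notMem hv, add_zero]
      apply h2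
      by_contra hcon
      push Not at hcon
      exact hv (abs_le.1 hcon.le)
  have hi : IntegrableOn (fun v => (Icc (-v1) v1).indicator (fun _ => K) v) (Icc a b) := by
    refine IntegrableOn.indicator ?_ measurableSet_Icc
    exact continuous_const.continuousOn.integrableOn_compact isCompact_Icc
  calc |∫ v in Icc a b, (Gv x y v - g)| ≤ ∫ v in Icc a b, |Gv x y v - g| := abs_integral_le_integral_abs
    _ ≤ ∫ v in Icc a b, (ε / 2 + (Icc (-v1) v1).indicator (fun _ => K) v) := by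
        refine setIntegral_mono_on ?_ ?_ measurableSet_Icc fun v _ => h5 v
        · exact (((Gv_cont x y).sub continuous_const).abs.continuousOn.integrableOn_compact isCompact_Icc)
        · exact (continuous_const.continuousOn.integrableOn_compact isCompact_Icc).add hi
    _ = ε / 2 * (b - a) + ∫ v in Icc a b, (Icc (-v1) v1).indicator (fun _ => K) v := by
        rw [integral_add (continuous_const.continuousOn.integrableOn_compact isCompact_Icc) hi]
        simp [Real.volume_real_Icc_of_le hab', mul_comm]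
    _ ≤ ε / 2 * (b - a) + K * (2 * v1) := by
        gcongr
        rw [setIntegral_indicator measurableSet_Icc, setIntegral_const, smul_eq_mul, mul_comm]
        gcongr
        have h6 : volume.real (Icc a b ∩ Icc (-v1) v1) ≤ volume.real (Icc (-v1) v1) :=
          measureReal_mono inter_subset_right isCompact_Icc.measure_lt_top.ne
        rw [Real.volume_real_Icc_of_le (by linarith : -v1 ≤ v1)] at h6
        linarith
    _ ≤ ε * (b - a) := by
        have h7 : 4 * v1 * K / ε ≤ b - a := by linarith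
        rw [div_le_iff₀ hε] at h7
        nlinarith

lemma int_box {m : ℕ} (x y : Fin m → ℝ) (a b : ℝ) :
    ∫ w in Icc (Fin.cons a x : Fin (m + 1) → ℝ) (Fin.cons b y), rho w = ∫ v in Icc a b, Gv x y v :=
  int_cons a b x y _ (rho_cont (m + 1))

lemma box_R {m : ℕ} (x y : Fin m → ℝ) : ∃ R : ℝ, 0 ≤ R ∧ ∀ i, -R ≤ x i ∧ y i ≤ R := by
  refine ⟨∑ i, (|x i| + |y i|), Finset.sum_nonneg fun i _ => by positivity, fun i => ?_⟩
  have h : |x i| + |y i| ≤ ∑ i, (|x i| + |y i|) :=
    Finset.single_le_sum (f := fun i => |x i| + |y i|) (fun j _ => by positivity) (Finset.mem_univ i)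
  have h1 := neg_abs_le (x i)
  have h2 := le_abs_self (y i)
  have h3 := abs_nonneg (x i)
  have h4 := abs_nonneg (y i)
  constructor <;> linarith

lemma sqrt_small (C ε : ℝ) (hC : 0 < C) (hε : 0 < ε) : ∃ W : ℝ, 0 < W ∧ ∀ w : ℝ, W ≤ w →
    C * Real.sqrt (Real.log (2 + w)) ≤ ε * w := by
  refine ⟨max 1 (2 * C ^ 2 / ε ^ 2), by positivity, fun w hw => ?_⟩
  have h1 : 1 ≤ w := (le_max_left _ _).trans hw
  have h2 : 2 * C ^ 2 / ε ^ 2 ≤ w := (le_max_right _ _).trans hw
  rw [div_le_iff₀ (by positivity)] at h2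
  have h3 : Real.log (2 + w) ≤ 2 * w := by
    have := Real.log_le_sub_one_of_pos (show 0 < 2 + w by linarith)
    linarith
  have h4 : Real.sqrt (Real.log (2 + w)) ≤ Real.sqrt (2 * w) := Real.sqrt_le_sqrt h3
  have h5 : Real.sqrt (2 * w) ^ 2 = 2 * w := Real.sq_sqrt (by linarith)
  have h6 : 0 ≤ Real.sqrt (2 * w) := Real.sqrt_nonneg _
  calc C * Real.sqrt (Real.log (2 + w)) ≤ C * Real.sqrt (2 * w) := by gcongr
    _ ≤ ε * w := by
      apply le_of_sq_le_sq _ (by positivity)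
      rw [mul_pow, h5, mul_pow]
      nlinarith

/-- the comparison of the two levels, with uniformity -/
lemma cmp2 (hRH : RHs) {m : ℕ} (x y : Fin m → ℝ) (B ε : ℝ) (hε : 0 < ε) :
    ∃ A0 : ℝ, 4 ≤ A0 ∧ ∀ A : ℝ, A0 ≤ A →
    ∀ T : ℝ, 1 ≤ T → A * Real.log A ≤ B * Real.log T →
    ∀ a b : ℝ, -A ≤ a → a + A0 ≤ b → b ≤ A →
    |(Nk T (Fin.cons a x : Fin (m + 1) → ℝ) (Fin.cons b y) : ℝ) / (T / (2 * Real.pi) * Real.log T) -
      (b - a) * (Nk T x y / (T / (2 * Real.pi) * Real.log T))| ≤ ε * (b - a) := by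
  obtain ⟨R, hR, hxy⟩ := box_R x y
  obtain ⟨C, A1, hC, hA1, h⟩ := red hRH m R B hR
  have hpi := Real.pi_pos
  obtain ⟨W, hW, hs⟩ := sqrt_small (2 * Real.pi * C) ε (by positivity) hε
  refine ⟨max A1 W, hA1.trans (le_max_left _ _), fun A hA T hT hAT a b ha hab hb => ?_⟩
  have h1 := h A ((le_max_left _ _).trans hA) T hT hAT x y hxy a b ha
    (by linarith [le_max_left A1 W]) hb
  have h2 := hs (b - a) (by linarith [le_max_right A1 W])
  have hA4 : 4 ≤ A := hA1.trans ((le_max_left _ _).trans hA)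
  have hlT : 0 < Real.log T := by
    rcases (Real.log_nonneg hT).lt_or_eq with h3 | h3
    · exact h3
    · exfalso
      rw [← h3, mul_zero] at hAT
      have : 0 < A * Real.log A := mul_pos (by linarith) (Real.log_pos (by linarith))
      linarith
  obtain ⟨X, hX⟩ : ∃ X : ℝ, X = T / (2 * Real.pi) * Real.log T := ⟨_, rfl⟩
  have hX0 : 0 < X := by rw [hX]; positivity
  have hXX : T * Real.log T = 2 * Real.pi * X := by rw [hX]; field_simp
  rw [← hX]
  rw [hXX] at h1
  have h4 : (Nk T (Fin.cons a x : Fin (m + 1) → ℝ) (Fin.cons b y) : ℝ) / X -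
      (b - a) * (Nk T x y / X) =
      ((Nk T (Fin.cons a x : Fin (m + 1) → ℝ) (Fin.cons b y) : ℝ) - (b - a) * Nk T x y) / X := by ring
  rw [h4, abs_div, abs_of_pos hX0, div_le_iff₀ hX0]
  calc _ ≤ C * Real.sqrt (Real.log (2 + (b - a))) * (2 * Real.pi * X) := h1
    _ = 2 * Real.pi * C * Real.sqrt (Real.log (2 + (b - a))) * X := by ring
    _ ≤ ε * (b - a) * X := by gcongr

/-- **long sides can be dropped** -/
theorem drop (hRH : RHs) {m : ℕ} (x y : Fin m → ℝ)
    (h : ∀ A : ℝ, ∃ a b : ℝ, a + A ≤ b ∧ LB (Fin.cons a x : Fin (m + 1) → ℝ) (Fin.cons b y)) :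
    LB x y := by
  unfold LB
  rw [Metric.tendsto_atTop]
  intro ε hε
  obtain ⟨A0, hA0, h1⟩ := cmp2 hRH x y 1 (ε / 4) (by positivity)
  obtain ⟨W, hW, h2⟩ := Gv_avg x y (ε / 4) (by positivity)
  obtain ⟨a, b, hab, h3⟩ := h (max A0 W)
  have hab1 : a + A0 ≤ b := by linarith [le_max_left A0 W]
  have hab2 : a + W ≤ b := by linarith [le_max_right A0 W]
  have hw0 : 0 < b - a := by linarith
  obtain ⟨A, hA⟩ : ∃ A : ℝ, A = max A0 (max (-a) b) := ⟨_, rfl⟩
  have hAA0 : A0 ≤ A := by rw [hA]; exact le_max_left _ _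
  have hAa : -A ≤ a := by
    have : -a ≤ A := by rw [hA]; exact (le_max_left _ _).trans (le_max_right _ _)
    linarith
  have hAb : b ≤ A := by rw [hA]; exact (le_max_right _ _).trans (le_max_right _ _)
  have h4 : ∀ᶠ T : ℝ in atTop, A * Real.log A ≤ 1 * Real.log T := by
    simp only [one_mul]
    exact Real.tendsto_log_atTop.eventually_ge_atTop _
  unfold LB at h3
  rw [int_box] at h3
  have h5 : ∀ᶠ T : ℝ in atTop, |(Nk T (Fin.cons a x : Fin (m + 1) → ℝ) (Fin.cons b y) : ℝ) /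
      (T / (2 * Real.pi) * Real.log T) - ∫ v in Icc a b, Gv x y v| ≤ ε / 4 * (b - a) := by
    have := h3.eventually (Metric.closedBall_mem_nhds _ (by positivity : 0 < ε / 4 * (b - a)))
    filter_upwards [this] with T hT
    rwa [Real.dist_eq] at hT
  have h6 := h2 a b hab2
  obtain ⟨T0, hT0⟩ := eventually_atTop.1 (h4.and (h5.and (eventually_ge_atTop 1)))
  refine ⟨T0, fun T hT => ?_⟩
  obtain ⟨k1, k2, k3⟩ := hT0 T hT
  have h7 := h1 A hAA0 T k3 k1 a b hAa hab1 hAb
  rw [Real.dist_eq]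
  obtain ⟨q, hq⟩ : ∃ q : ℝ, q = (Nk T x y : ℝ) / (T / (2 * Real.pi) * Real.log T) := ⟨_, rfl⟩
  obtain ⟨q1, hq1⟩ : ∃ q1 : ℝ, q1 = (Nk T (Fin.cons a x : Fin (m + 1) → ℝ) (Fin.cons b y) : ℝ) /
      (T / (2 * Real.pi) * Real.log T) := ⟨_, rfl⟩
  obtain ⟨g, hg⟩ : ∃ g : ℝ, g = ∫ u in Icc x y, rho u := ⟨_, rfl⟩
  obtain ⟨I, hI⟩ : ∃ I : ℝ, I = ∫ v in Icc a b, Gv x y v := ⟨_, rfl⟩
  rw [← hq, ← hg]
  rw [← hq, ← hq1] at h7
  rw [← hq1, ← hI] at k2
  rw [← hg, ← hI] at h6
  have h8 : |(b - a) * (q - g)| ≤ 3 / 4 * ε * (b - a) := by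
    have e : (b - a) * (q - g) = -(q1 - (b - a) * q) + (q1 - I) + (I - (b - a) * g) := by ring
    rw [e]
    calc _ ≤ |-(q1 - (b - a) * q)| + |q1 - I| + |I - (b - a) * g| := abs_add_three _ _ _
      _ ≤ 3 / 4 * ε * (b - a) := by rw [abs_neg]; linarith
  rw [abs_mul, abs_of_pos hw0] at h8
  have h9 : |q - g| ≤ 3 / 4 * ε := by
    have : (b - a) * |q - g| ≤ (b - a) * (3 / 4 * ε) := by linarith
    exact le_of_mul_le_mul_left this hw0
  linarith

/-- **the asymptotics with a long side are those with the side dropped** -/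
theorem long_iff (hRH : RHs) {m : ℕ} (x y : Fin m → ℝ) :
    LB x y ↔ ∀ B ε : ℝ, 0 < ε → ∃ A0 : ℝ, 0 < A0 ∧ ∀ A : ℝ, A0 ≤ A →
    ∀ T : ℝ, 1 ≤ T → A * Real.log A ≤ B * Real.log T →
    ∀ a b : ℝ, -A ≤ a → a + A0 ≤ b → b ≤ A →
    |(Nk T (Fin.cons a x : Fin (m + 1) → ℝ) (Fin.cons b y) : ℝ) / (T / (2 * Real.pi) * Real.log T) -
      (b - a) * ∫ u in Icc x y, rho u| ≤ ε * (b - a) := by
  constructor
  · intro h B ε hε
    obtain ⟨A1, hA1, h1⟩ := cmp2 hRH x y B (ε / 2) (by positivity)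
    have h5 : ∀ᶠ T : ℝ in atTop, |(Nk T x y : ℝ) / (T / (2 * Real.pi) * Real.log T) -
        ∫ u in Icc x y, rho u| ≤ ε / 2 := by
      unfold LB at h
      have := h.eventually (Metric.closedBall_mem_nhds _ (by positivity : 0 < ε / 2))
      filter_upwards [this] with T hT
      rwa [Real.dist_eq] at hT
    obtain ⟨T0, hT0⟩ := eventually_atTop.1 h5
    -- `T` is large
    obtain ⟨A2, hA2⟩ : ∃ A2 : ℝ, A2 = max 3 (|B| * |Real.log (max T0 1)|) := ⟨_, rfl⟩
    refine ⟨max A1 (A2 + 1), by positivity, fun A hA T hT hAT a b ha hab hb => ?_⟩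
    have hAA1 : A1 ≤ A := (le_max_left _ _).trans hA
    have hAA2 : A2 + 1 ≤ A := (le_max_right _ _).trans hA
    have hA23 : 3 ≤ A2 := by rw [hA2]; exact le_max_left _ _
    have hA2B : |B| * |Real.log (max T0 1)| ≤ A2 := by rw [hA2]; exact le_max_right _ _
    have hTT0 : T0 ≤ T := by
      by_contra hcon
      push Not at hcon
      have c1 : Real.log T ≤ |Real.log (max T0 1)| := by
        refine le_trans (Real.log_le_log (by linarith) ?_) (le_abs_self _)
        exact hcon.le.trans (le_max_left _ _)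
      have c2 : 0 ≤ Real.log T := Real.log_nonneg hT
      have c3 : B * Real.log T ≤ |B| * |Real.log (max T0 1)| :=
        mul_le_mul (le_abs_self B) c1 c2 (abs_nonneg B)
      have c4 : A ≤ A * Real.log A := by
        have c5 : 1 ≤ Real.log A := by
          rw [Real.le_log_iff_exp_le (by linarith)]
          linarith [Real.exp_one_lt_d9]
        nlinarith
      linarith
    have h6 := h1 A hAA1 T hT hAT a b ha (by linarith [le_max_left A1 (A2 + 1)]) hb
    have h7 := hT0 T hTT0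
    have hw0 : 0 < b - a := by linarith [le_max_left A1 (A2 + 1)]
    obtain ⟨q, hq⟩ : ∃ q : ℝ, q = (Nk T x y : ℝ) / (T / (2 * Real.pi) * Real.log T) := ⟨_, rfl⟩
    obtain ⟨q1, hq1⟩ : ∃ q1 : ℝ, q1 = (Nk T (Fin.cons a x : Fin (m + 1) → ℝ) (Fin.cons b y) : ℝ) /
        (T / (2 * Real.pi) * Real.log T) := ⟨_, rfl⟩
    obtain ⟨g, hg⟩ : ∃ g : ℝ, g = ∫ u in Icc x y, rho u := ⟨_, rfl⟩
    rw [← hq1, ← hg]
    rw [← hq1, ← hq] at h6
    rw [← hq, ← hg] at h7
    have e : q1 - (b - a) * g = (q1 - (b - a) * q) + (b - a) * (q - g) := by ring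
    rw [e]
    calc _ ≤ |q1 - (b - a) * q| + |(b - a) * (q - g)| := abs_add_le _ _
      _ = |q1 - (b - a) * q| + (b - a) * |q - g| := by rw [abs_mul, abs_of_pos hw0]
      _ ≤ ε / 2 * (b - a) + (b - a) * (ε / 2) := by gcongr
      _ = ε * (b - a) := by ring
  · intro h
    unfold LB
    rw [Metric.tendsto_atTop]
    intro ε hε
    obtain ⟨A1, hA1, h1⟩ := cmp2 hRH x y 1 (ε / 4) (by positivity)
    obtain ⟨A2, hA2, h2⟩ := h 1 (ε / 4) (by positivity)
    obtain ⟨A, hA⟩ : ∃ A : ℝ, A = max A1 A2 := ⟨_, rfl⟩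
    have hAA1 : A1 ≤ A := by rw [hA]; exact le_max_left _ _
    have hAA2 : A2 ≤ A := by rw [hA]; exact le_max_right _ _
    have hA0 : 0 < A := by linarith
    have h4 : ∀ᶠ T : ℝ in atTop, A * Real.log A ≤ 1 * Real.log T := by
      simp only [one_mul]
      exact Real.tendsto_log_atTop.eventually_ge_atTop _
    obtain ⟨T0, hT0⟩ := eventually_atTop.1 (h4.and (eventually_ge_atTop 1))
    refine ⟨T0, fun T hT => ?_⟩
    obtain ⟨k1, k3⟩ := hT0 T hT
    have h6 := h1 A hAA1 T k3 k1 0 A (by linarith) (by linarith) le_rfl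
    have h7 := h2 A hAA2 T k3 k1 0 A (by linarith) (by linarith) le_rfl
    rw [sub_zero] at h6 h7
    rw [Real.dist_eq]
    obtain ⟨q, hq⟩ : ∃ q : ℝ, q = (Nk T x y : ℝ) / (T / (2 * Real.pi) * Real.log T) := ⟨_, rfl⟩
    obtain ⟨q1, hq1⟩ : ∃ q1 : ℝ, q1 = (Nk T (Fin.cons 0 x : Fin (m + 1) → ℝ) (Fin.cons A y) : ℝ) /
        (T / (2 * Real.pi) * Real.log T) := ⟨_, rfl⟩
    obtain ⟨g, hg⟩ : ∃ g : ℝ, g = ∫ u in Icc x y, rho u := ⟨_, rfl⟩
    rw [← hq, ← hg]
    rw [← hq, ← hq1] at h6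
    rw [← hq1, ← hg] at h7
    have h8 : |A * (q - g)| ≤ 1 / 2 * ε * A := by
      have e : A * (q - g) = -(q1 - A * q) + (q1 - A * g) := by ring
      rw [e]
      calc _ ≤ |-(q1 - A * q)| + |q1 - A * g| := abs_add_le _ _
        _ ≤ 1 / 2 * ε * A := by rw [abs_neg]; linarith
    rw [abs_mul, abs_of_pos hA0] at h8
    have h9 : |q - g| ≤ 1 / 2 * ε := by
      have : A * |q - g| ≤ A * (1 / 2 * ε) := by linarith
      exact le_of_mul_le_mul_left this hA0
    linarith

end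

end Pool.Agent.K4H58.KL
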