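import Pool.Agent.K4H58.KL.Pnt

/-! # Sums over the cells -/

set_option autoImplicit false

namespace Pool.Agent.K4H58.KL

open Filter Topology MeasureTheory Set

noncomputable section

lemma SD_shift {k : ℕ} (p : Fin k → ℝ) (s : ℝ) : SD (fun i => p i + s) = SD p := by
  unfold SD
  congr 1
  ext i j
  simp only [SM, Matrix.of_apply]
  congr 2
  ring

lemma rho_cons {m : ℕ} (u : Fin m → ℝ) : rho u = SD (Fin.cons 0 u : Fin (m + 1) → ℝ) := by
  unfold rho
  rw [← SD_perm (Fin.snoc u 0 : Fin (m + 1) → ℝ) (finRotate (m + 1)).symm]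
  congr 1
  funext i
  rw [Function.comp_apply]
  refine Fin.cases ?_ (fun j => ?_) i
  · have h : (finRotate (m + 1)).symm 0 = Fin.last m := by
      rw [Equiv.symm_apply_eq, finRotate_last]
    rw [h]
    simp
  · have h : (finRotate (m + 1)).symm j.succ = Fin.castSucc j := by
      rw [Equiv.symm_apply_eq, finRotate_apply]
      simp
    rw [h]
    simp

lemma null_diff {k : ℕ} (a b : Fin k) (hab : a ≠ b) (c : ℝ) :
    volume {p : Fin k → ℝ | p a - p b = c} = 0 := by
  obtain ⟨f, hf⟩ : ∃ f : (Fin k → ℝ) →ₗ[ℝ] ℝ, f = (LinearMap.proj a : (Fin k → ℝ) →ₗ[ℝ] ℝ) -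
    (LinearMap.proj b : (Fin k → ℝ) →ₗ[ℝ] ℝ) := ⟨_, rfl⟩
  have hfv : ∀ p, f p = p a - p b := by
    intro p
    rw [hf]
    rfl
  have hsurj : Function.Surjective f := by
    intro z
    refine ⟨Pi.single a z, ?_⟩
    rw [hfv, Pi.single_eq_same, Pi.single_eq_of_ne hab.symm, sub_zero]
  obtain ⟨d, _, hd⟩ := LinearMap.exists_map_addHaar_eq_smul_addHaar f volume volume hsurj
  have hm : Measurable f := (LinearMap.continuous_of_finiteDimensional f).measurable
  have h1 : {p : Fin k → ℝ | p a - p b = c} = f ⁻¹' {c} := by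
    ext p
    simp [hfv]
  rw [h1, ← Measure.map_apply hm (measurableSet_singleton c), hd]
  simp

/-- the cell vector -/
def cv {k : ℕ} (q : ℕ) (p : Fin k → ℝ) : Fin k → ℤ := fun i => ⌊(q : ℝ) * p i⌋

lemma mem_cells {k : ℕ} {q : ℕ} (hq : 0 < q) {p : Fin k → ℝ} {J : Fin k → ℤ} :
    p ∈ Set.pi univ (fun i => cell q (J i)) ↔ cv q p = J := by
  rw [Set.mem_univ_pi]
  constructor
  · intro h
    funext i
    exact (mem_cell hq).1 (h i)
  · rintro rfl i
    exact (mem_cell hq).2 rfl

open Classical in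
lemma sum_IC {k : ℕ} {q : ℕ} (hq : 0 < q) (R : Finset (Fin k → ℤ)) :
    ∑ J ∈ R, IC q J = ∫ p : Fin k → ℝ, if cv q p ∈ R then SD p else 0 := by
  have h1 : ∀ p : Fin k → ℝ, (if cv q p ∈ R then SD p else 0) =
      ∑ J ∈ R, (Set.pi univ (fun i => cell q (J i))).indicator (fun p => SD p) p := by
    intro p
    by_cases h : cv q p ∈ R
    · rw [if_pos h, Finset.sum_eq_single (cv q p)]
      · rw [indicator_of_mem ((mem_cells hq).2 rfl)]
      · intro J _ hJ
        rw [indicator_of_notMem]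
        intro h2
        exact hJ ((mem_cells hq).1 h2).symm
      · exact fun h2 => absurd h h2
    · rw [if_neg h]
      symm
      refine Finset.sum_eq_zero fun J hJ => ?_
      rw [indicator_of_notMem]
      intro h2
      rw [mem_cells hq] at h2
      exact h (h2 ▸ hJ)
  simp_rw [h1]
  rw [integral_finsetSum]
  · refine Finset.sum_congr rfl fun J _ => ?_
    rw [integral_indicator (MeasurableSet.univ_pi fun i => cell_meas q _)]
    rfl
  · intro J _
    rw [integrable_indicator_iff (MeasurableSet.univ_pi fun i => cell_meas q _)]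
    exact SD_int_pi _ fun i => cell_fin q _

lemma fl_lim (a : ℝ) : Tendsto (fun q : ℕ => (⌊(q : ℝ) * a⌋ : ℝ) / q) atTop (𝓝 a) := by
  have h1 : Tendsto (fun q : ℕ => a - 1 / (q : ℝ)) atTop (𝓝 a) := by
    have := (tendsto_const_nhds (x := a)).sub (tendsto_one_div_atTop_nhds_zero_nat (𝕜 := ℝ))
    simpa using this
  refine tendsto_of_tendsto_of_tendsto_of_le_of_le' h1 tendsto_const_nhds ?_ ?_
  · filter_upwards [eventually_gt_atTop 0] with q hq
    have hq' : (0 : ℝ) < q := by exact_mod_cast hq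
    rw [le_div_iff₀ hq', sub_mul, one_div, inv_mul_cancel₀ hq'.ne', mul_comm a]
    exact (Int.sub_one_lt_floor _).le
  · filter_upwards [eventually_gt_atTop 0] with q hq
    have hq' : (0 : ℝ) < q := by exact_mod_cast hq
    rw [div_le_iff₀ hq', mul_comm a]
    exact Int.floor_le _

lemma fl_diff (a b σ : ℝ) :
    Tendsto (fun q : ℕ => ((⌊(q : ℝ) * a⌋ : ℝ) - ⌊(q : ℝ) * b⌋ + σ) / q) atTop (𝓝 (a - b)) := by
  have h1 := ((fl_lim a).sub (fl_lim b)).add
    ((tendsto_const_nhds (x := σ)).mul (tendsto_one_div_atTop_nhds_zero_nat (𝕜 := ℝ)))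
  rw [mul_zero, add_zero] at h1
  refine h1.congr fun q => ?_
  ring

/-- the cells of the box -/
def Rs {m : ℕ} (L : ℕ) (x y : Fin m → ℝ) (σ : ℝ) (q : ℕ) : Finset (Fin (m + 1) → ℤ) := by
  classical
  exact (Fintype.piFinset fun _ => Cw q L).filter fun J => Function.Injective J ∧ (0 ≤ J 0 ∧ J 0 < q) ∧
    ∀ i : Fin m, x i ≤ ((J i.succ : ℝ) - J 0 + σ) / q ∧ ((J i.succ : ℝ) - J 0 - σ) / q ≤ y i

lemma mem_Rs {m : ℕ} {L : ℕ} {x y : Fin m → ℝ} {σ : ℝ} {q : ℕ} {J : Fin (m + 1) → ℤ} :
    J ∈ Rs L x y σ q ↔ (∀ i, J i ∈ Cw q L) ∧ Function.Injective J ∧ (0 ≤ J 0 ∧ J 0 < q) ∧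
    ∀ i : Fin m, x i ≤ ((J i.succ : ℝ) - J 0 + σ) / q ∧ ((J i.succ : ℝ) - J 0 - σ) / q ≤ y i := by
  classical
  unfold Rs
  rw [Finset.mem_filter, Fintype.mem_piFinset]

lemma Rs_card {m : ℕ} (L : ℕ) (x y : Fin m → ℝ) (σ : ℝ) (q : ℕ) :
    ((Rs L x y σ q).card : ℝ) ≤ ((2 * L + 1) * q) ^ (m + 1) := by
  classical
  have h1 : (Rs L x y σ q).card ≤ (Cw q L).card ^ (m + 1) := by
    unfold Rs
    refine (Finset.card_filter_le _ _).trans ?_
    rw [Fintype.card_piFinset]
    simp
  rw [← Cw_card]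
  exact_mod_cast h1

/-- the limit domain -/
def Dm {m : ℕ} (x y : Fin m → ℝ) : Set (Fin (m + 1) → ℝ) :=
  {p | p 0 ∈ Ico (0 : ℝ) 1 ∧ ∀ i : Fin m, p i.succ - p 0 ∈ Icc (x i) (y i)}

lemma Dm_meas {m : ℕ} (x y : Fin m → ℝ) : MeasurableSet (Dm x y) := by
  have : Dm x y = {p | p 0 ∈ Ico (0 : ℝ) 1} ∩ ⋂ i : Fin m, {p | p i.succ - p 0 ∈ Icc (x i) (y i)} := by
    ext p
    simp [Dm]
  rw [this]
  refine MeasurableSet.inter ?_ (MeasurableSet.iInter fun i => ?_)
  · exact measurableSet_Ico.preimage (measurable_pi_apply 0)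
  · exact measurableSet_Icc.preimage ((measurable_pi_apply i.succ).sub (measurable_pi_apply 0))

/-- the exceptional null set -/
def Ex {m : ℕ} (x y : Fin m → ℝ) : Set (Fin (m + 1) → ℝ) :=
  (⋃ i : Fin m, ({p | p i.succ - p 0 = x i} ∪ {p | p i.succ - p 0 = y i})) ∪
    ⋃ (a : Fin (m + 1)) (b : Fin (m + 1)) (_ : a ≠ b), {p | p a - p b = 0}

lemma Ex_null {m : ℕ} (x y : Fin m → ℝ) : volume (Ex x y) = 0 := by
  unfold Ex
  refine measure_union_null ?_ ?_
  · refine measure_iUnion_null fun i => measure_union_null ?_ ?_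
    · exact null_diff _ _ (Fin.succ_ne_zero i) _
    · exact null_diff _ _ (Fin.succ_ne_zero i) _
  · exact measure_iUnion_null fun a => measure_iUnion_null fun b => measure_iUnion_null fun h =>
      null_diff _ _ h _

open Classical in
lemma Rs_pt {m : ℕ} {L : ℕ} {x y : Fin m → ℝ} (hx : ∀ i, -(L : ℝ) ≤ x i) (hy : ∀ i, y i ≤ L) (σ : ℝ)
    {p : Fin (m + 1) → ℝ} (hp : p ∉ Ex x y) :
    ∀ᶠ q : ℕ in atTop, (cv q p ∈ Rs L x y σ q ↔ p ∈ Dm x y) := by
  have hne : ∀ a b, a ≠ b → p a ≠ p b := by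
    intro a b hab h
    apply hp
    refine Or.inr ?_
    rw [mem_iUnion]
    refine ⟨a, ?_⟩
    rw [mem_iUnion]
    refine ⟨b, ?_⟩
    rw [mem_iUnion]
    exact ⟨hab, sub_eq_zero.2 h⟩
  have hnx : ∀ i : Fin m, p i.succ - p 0 ≠ x i ∧ p i.succ - p 0 ≠ y i := by
    intro i
    constructor
    · intro h
      exact hp (Or.inl (mem_iUnion.2 ⟨i, Or.inl h⟩))
    · intro h
      exact hp (Or.inl (mem_iUnion.2 ⟨i, Or.inr h⟩))
  have h0 : ∀ q : ℕ, 0 < q → ((0 ≤ cv q p 0 ∧ cv q p 0 < q) ↔ p 0 ∈ Ico (0 : ℝ) 1) := by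
    intro q hq
    have hq' : (0 : ℝ) < q := by exact_mod_cast hq
    unfold cv
    rw [Int.floor_nonneg, Int.floor_lt, mem_Ico]
    push_cast
    constructor
    · rintro ⟨a1, a2⟩
      constructor
      · by_contra hcon
        push Not at hcon
        nlinarith
      · by_contra hcon
        push Not at hcon
        nlinarith
    · rintro ⟨a1, a2⟩
      constructor
      · positivity
      · nlinarith
  by_cases hD : p ∈ Dm x y
  · obtain ⟨hD0, hD1⟩ := hD
    -- injectivity
    have h1 : ∀ a b : Fin (m + 1), ∀ᶠ q : ℕ in atTop, cv q p a = cv q p b → a = b := by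
      intro a b
      by_cases hab : a = b
      · exact Eventually.of_forall fun q _ => hab
      · have h2 := fl_diff (p a) (p b) 0
        have h3 : p a - p b ≠ 0 := sub_ne_zero.2 (hne a b hab)
        filter_upwards [h2.eventually_ne h3] with q hq hcv
        exfalso
        apply hq
        unfold cv at hcv
        rw [hcv]
        simp
    have h2 : ∀ᶠ q : ℕ in atTop, ∀ a b : Fin (m + 1), cv q p a = cv q p b → a = b := by
      rw [eventually_all]
      intro a
      rw [eventually_all]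
      exact h1 a
    have h3 : ∀ i : Fin m, ∀ᶠ q : ℕ in atTop, x i ≤ (((cv q p i.succ : ℤ) : ℝ) - cv q p 0 + σ) / q ∧
        (((cv q p i.succ : ℤ) : ℝ) - cv q p 0 - σ) / q ≤ y i := by
      intro i
      have a1 : x i < p i.succ - p 0 := lt_of_le_of_ne (hD1 i).1 (hnx i).1.symm
      have a2 : p i.succ - p 0 < y i := lt_of_le_of_ne (hD1 i).2 (hnx i).2
      filter_upwards [(fl_diff (p i.succ) (p 0) σ).eventually_const_lt a1,
        (fl_diff (p i.succ) (p 0) (-σ)).eventually_lt_const a2] with q b1 b2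
      exact ⟨b1.le, b2.le⟩
    have h4 : ∀ᶠ q : ℕ in atTop, ∀ i : Fin m, x i ≤ (((cv q p i.succ : ℤ) : ℝ) - cv q p 0 + σ) / q ∧
        (((cv q p i.succ : ℤ) : ℝ) - cv q p 0 - σ) / q ≤ y i := by
      rw [eventually_all]
      exact h3
    filter_upwards [h2, h4, eventually_gt_atTop 0] with q k2 k4 hq
    refine iff_of_true (mem_Rs.2 ⟨fun i => ?_, fun a b => k2 a b, (h0 q hq).2 hD0, k4⟩) ⟨hD0, hD1⟩
    unfold cv
    rw [Cw_iff hq]
    have hL : (0 : ℝ) ≤ L := Nat.cast_nonneg _
    refine Fin.cases ?_ (fun j => ?_) i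
    · exact ⟨by linarith [hD0.1], by linarith [hD0.2]⟩
    · have a1 := hx j
      have a2 := hy j
      exact ⟨by linarith [hD0.1, (hD1 j).1], by linarith [hD0.2, (hD1 j).2]⟩
  · by_cases hD0 : p 0 ∈ Ico (0 : ℝ) 1
    · have h1 : ∃ i : Fin m, p i.succ - p 0 ∉ Icc (x i) (y i) := by
        by_contra hcon
        push Not at hcon
        exact hD ⟨hD0, hcon⟩
      obtain ⟨i, hi⟩ := h1
      rw [mem_Icc, not_and_or, not_le, not_le] at hi
      rcases hi with hi | hi
      · filter_upwards [(fl_diff (p i.succ) (p 0) σ).eventually_lt_const hi] with q b1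
        refine iff_of_false (fun h => ?_) hD
        have := ((mem_Rs.1 h).2.2.2 i).1
        exact absurd this (not_le.2 b1)
      · filter_upwards [(fl_diff (p i.succ) (p 0) (-σ)).eventually_const_lt hi] with q b1
        refine iff_of_false (fun h => ?_) hD
        have := ((mem_Rs.1 h).2.2.2 i).2
        exact absurd this (not_le.2 b1)
    · filter_upwards [eventually_gt_atTop 0] with q hq
      refine iff_of_false (fun h => ?_) hD
      exact hD0 ((h0 q hq).1 (mem_Rs.1 h).2.2.1)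

lemma cv_meas {k : ℕ} (q : ℕ) (J : Fin k → ℤ) : MeasurableSet {p : Fin k → ℝ | cv q p = J} := by
  have : {p : Fin k → ℝ | cv q p = J} = ⋂ i, {p : Fin k → ℝ | ⌊(q : ℝ) * p i⌋ = J i} := by
    ext p
    simp only [mem_setOf_eq, mem_iInter]
    exact funext_iff
  rw [this]
  refine MeasurableSet.iInter fun i => ?_
  have hm : Measurable fun p : Fin k → ℝ => ⌊(q : ℝ) * p i⌋ :=
    Int.measurable_floor.comp ((measurable_pi_apply i).const_mul _)
  exact hm (measurableSet_singleton (J i))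

open Classical in
lemma Rs_sum_lim {m : ℕ} {L : ℕ} {x y : Fin m → ℝ} (hx : ∀ i, -(L : ℝ) ≤ x i) (hy : ∀ i, y i ≤ L) (σ : ℝ) :
    Tendsto (fun q : ℕ => ∑ J ∈ Rs L x y σ q, IC q J) atTop
      (𝓝 (∫ p, (Dm x y).indicator (fun p => SD p) p)) := by
  have h1 : Tendsto (fun q : ℕ => ∫ p : Fin (m + 1) → ℝ, if cv q p ∈ Rs L x y σ q then SD p else 0) atTop
      (𝓝 (∫ p, (Dm x y).indicator (fun p => SD p) p)) := by
    refine tendsto_integral_filter_of_dominated_convergence
      ((Set.pi univ fun _ : Fin (m + 1) => Icc (-(L : ℝ)) (L + 1)).indicator 1) ?_ ?_ ?_ ?_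
    · filter_upwards with q
      refine Measurable.aestronglyMeasurable ?_
      refine Measurable.ite ?_ (SD_cont _).measurable measurable_const
      have : {p : Fin (m + 1) → ℝ | cv q p ∈ Rs L x y σ q} =
          ⋃ J ∈ Rs L x y σ q, {p : Fin (m + 1) → ℝ | cv q p = J} := by
        ext p
        simp
      rw [this]
      exact Finset.measurableSet_biUnion _ fun J _ => cv_meas q J
    · filter_upwards [eventually_gt_atTop 0] with q hq
      refine Eventually.of_forall fun p => ?_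
      by_cases h : cv q p ∈ Rs L x y σ q
      · rw [if_pos h, indicator_of_mem]
        · rw [Real.norm_of_nonneg (SD_nonneg p)]
          exact SD_le_one p
        · rw [Set.mem_univ_pi]
          intro i
          have h2 := (mem_Rs.1 h).1 i
          unfold cv at h2
          rw [Cw_iff hq] at h2
          exact ⟨h2.1, h2.2.le⟩
      · rw [if_neg h, norm_zero]
        exact indicator_nonneg (fun _ _ => zero_le_one) p
    · rw [integrable_indicator_iff (MeasurableSet.univ_pi fun _ => measurableSet_Icc)]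
      refine integrableOn_const ?_
      rw [volume_pi_pi]
      exact ENNReal.prod_ne_top fun i _ => by simp
    · have h3 : ∀ᵐ p : Fin (m + 1) → ℝ, p ∉ Ex x y := by
        rw [ae_iff]
        simpa using Ex_null x y
      filter_upwards [h3] with p hp
      refine tendsto_const_nhds.congr' ?_
      filter_upwards [Rs_pt hx hy σ hp] with q hq
      by_cases hD : p ∈ Dm x y
      · rw [if_pos (hq.2 hD), indicator_of_mem hD]
      · rw [if_neg (fun h => hD (hq.1 h)), indicator_of_notMem hD]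
  refine h1.congr' ?_
  filter_upwards [eventually_gt_atTop 0] with q hq
  exact (sum_IC hq _).symm

lemma Dm_int {m : ℕ} (x y : Fin m → ℝ) :
    ∫ p, (Dm x y).indicator (fun p => SD p) p = ∫ u in Icc x y, rho u := by
  have h1 := (volume_preserving_piFinSuccAbove (fun _ : Fin (m + 1) => ℝ) 0).symm
  rw [← h1.integral_comp', Measure.volume_eq_prod, integral_prod]
  · have h2 : ∀ s : ℝ, ∫ v : Fin m → ℝ, (Dm x y).indicator (fun p => SD p)
        ((MeasurableEquiv.piFinSuccAbove (fun _ : Fin (m + 1) => ℝ) 0).symm (s, v)) =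
        (Ico (0 : ℝ) 1).indicator (fun _ => ∫ u in Icc x y, rho u) s := by
      intro s
      have h3 : ∀ v : Fin m → ℝ, (Dm x y).indicator (fun p => SD p)
          ((MeasurableEquiv.piFinSuccAbove (fun _ : Fin (m + 1) => ℝ) 0).symm (s, v)) =
          (Ico (0 : ℝ) 1).indicator (fun _ => (Icc x y).indicator rho (v - fun _ => s)) s := by
        intro v
        rw [pfs]
        have h4 : (Fin.cons s v : Fin (m + 1) → ℝ) ∈ Dm x y ↔ s ∈ Ico (0 : ℝ) 1 ∧ (v - fun _ => s) ∈ Icc x y := by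
          unfold Dm
          rw [mem_setOf_eq]
          simp only [Fin.cons_zero, Fin.cons_succ]
          refine and_congr Iff.rfl ?_
          rw [mem_Icc, Pi.le_def, Pi.le_def]
          exact ⟨fun h => ⟨fun i => (h i).1, fun i => (h i).2⟩, fun h i => ⟨h.1 i, h.2 i⟩⟩
        have h5 : SD (Fin.cons s v : Fin (m + 1) → ℝ) = rho (v - fun _ => s) := by
          rw [rho_cons, ← SD_shift (Fin.cons 0 (v - fun _ => s) : Fin (m + 1) → ℝ) s]
          congr 1
          funext i
          refine Fin.cases ?_ (fun j => ?_) i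
          · simp
          · simp
        by_cases hs : s ∈ Ico (0 : ℝ) 1
        · rw [indicator_of_mem hs]
          by_cases hv : (v - fun _ => s) ∈ Icc x y
          · rw [indicator_of_mem (h4.2 ⟨hs, hv⟩), indicator_of_mem hv, h5]
          · rw [indicator_of_notMem (fun h => hv (h4.1 h).2), indicator_of_notMem hv]
        · rw [indicator_of_notMem hs, indicator_of_notMem (fun h => hs (h4.1 h).1)]
      simp_rw [h3]
      by_cases hs : s ∈ Ico (0 : ℝ) 1
      · simp_rw [indicator_of_mem hs]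
        rw [integral_sub_right_eq_self (fun v => (Icc x y).indicator rho v) (fun _ => s),
          integral_indicator measurableSet_Icc]
      · simp_rw [indicator_of_notMem hs]
        simp
    simp_rw [h2]
    rw [integral_indicator measurableSet_Ico, setIntegral_const]
    simp
  · have h6 : Integrable (fun p : Fin (m + 1) → ℝ => (Dm x y).indicator (fun p => SD p) p) := by
      rw [integrable_indicator_iff (Dm_meas x y)]
      obtain ⟨R, hR, hxy⟩ : ∃ R : ℝ, 0 ≤ R ∧ ∀ i, -R ≤ x i ∧ y i ≤ R := by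
        refine ⟨∑ i, (|x i| + |y i|), Finset.sum_nonneg fun i _ => by positivity, fun i => ?_⟩
        have h : |x i| + |y i| ≤ ∑ i, (|x i| + |y i|) :=
          Finset.single_le_sum (f := fun i => |x i| + |y i|) (fun j _ => by positivity) (Finset.mem_univ i)
        have h1 := neg_abs_le (x i)
        have h2 := le_abs_self (y i)
        have h3 := abs_nonneg (x i)
        have h4 := abs_nonneg (y i)
        constructor <;> linarith
      refine (SD_int_pi (fun _ : Fin (m + 1) => Icc (-(R + 1)) (R + 1)) fun i => by simp).mono_set ?_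
      rintro p ⟨hp0, hp1⟩
      rw [Set.mem_univ_pi]
      intro i
      refine Fin.cases ?_ (fun j => ?_) i
      · exact ⟨by linarith [hp0.1], by linarith [hp0.2]⟩
      · have a1 := hxy j
        exact ⟨by linarith [hp0.1, (hp1 j).1, a1.1], by linarith [hp0.2, (hp1 j).2, a1.2]⟩
    exact h1.integrable_comp_of_integrable h6

theorem Rs_lim {m : ℕ} {L : ℕ} {x y : Fin m → ℝ} (hx : ∀ i, -(L : ℝ) ≤ x i) (hy : ∀ i, y i ≤ L) (σ : ℝ) :
    Tendsto (fun q : ℕ => ∑ J ∈ Rs L x y σ q, IC q J) atTop (𝓝 (∫ u in Icc x y, rho u)) := by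
  rw [← Dm_int]
  exact Rs_sum_lim hx hy σ

end

end Pool.Agent.K4H58.KL
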