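import Pool.Agent.K4H58.KL.Avg
import Pool.Agent.K4H58.KL.Rie
import Pool.Agent.K4H58.KL.Lev

/-! # From the void probabilities to the k-level counts -/

set_option autoImplicit false

namespace Pool.Agent.K4H58.KL

open Filter Topology MeasureTheory Set
open scoped Nat
open SG (ord NZ)
open SP (RHs)
open Pool.Agent.R320.KL

noncomputable section

/-- the void probabilities of the unions of at most `K` intervals, of total length at most `ε` -/
def VP (K : ℕ) (ε : ℝ) : Prop := ∀ (r : ℕ) (a b : Fin r → ℝ), r ≤ K → (∀ i, a i ≤ b i) →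
  (∀ i j, i ≠ j → Disjoint (Ico (a i) (b i)) (Ico (a j) (b j))) → ∑ i, (b i - a i) ≤ ε →
  Tendsto (VT (⋃ i, Ico (a i) (b i))) atTop (𝓝 (Fr (⋃ i, Ico (a i) (b i))))

lemma VP_US {K : ℕ} {ε : ℝ} (h : VP K ε) {k q : ℕ} (hkK : k ≤ K) (hq : 0 < q) (hk : (k : ℝ) / q ≤ ε)
    {J : Fin k → ℤ} (hJ : Function.Injective J)
    (S : Finset (Fin k)) : Tendsto (VT (US q J S)) atTop (𝓝 (Fr (US q J S))) := by
  have hq' : (0 : ℝ) < q := by exact_mod_cast hq
  have h1 : US q J S = ⋃ i : Fin S.card, Ico ((J (S.equivFin.symm i) : ℝ) / q)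
      (((J (S.equivFin.symm i) : ℝ) + 1) / q) := by
    ext p
    unfold US cell
    simp only [mem_iUnion, exists_prop]
    constructor
    · rintro ⟨i, hi, hp⟩
      refine ⟨S.equivFin ⟨i, hi⟩, ?_⟩
      rw [Equiv.symm_apply_apply]
      exact hp
    · rintro ⟨i, hp⟩
      exact ⟨S.equivFin.symm i, (S.equivFin.symm i).2, hp⟩
  rw [h1]
  refine h _ _ _ ?_ (fun i => ?_) (fun i j hij => ?_) ?_
  · have := Finset.card_le_univ S
    rw [Fintype.card_fin] at this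
    omega
  · gcongr
    linarith
  · exact cell_disj hq fun h2 => hij (S.equivFin.symm.injective (Subtype.ext (hJ h2)))
  · have h2 : ∀ i : Fin S.card, ((J (S.equivFin.symm i) : ℝ) + 1) / q - (J (S.equivFin.symm i) : ℝ) / q =
        1 / q := fun i => by ring
    simp only [h2, Finset.sum_const, Finset.card_univ, Fintype.card_fin, nsmul_eq_mul]
    refine le_trans ?_ hk
    rw [mul_one_div]
    gcongr
    have := Finset.card_le_univ S
    rwa [Fintype.card_fin] at this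

lemma VP_Occ {K : ℕ} {ε : ℝ} (h : VP K ε) {k q : ℕ} (hkK : k ≤ K) (hq : 0 < q) (hk : (k : ℝ) / q ≤ ε)
    {J : Fin k → ℤ} (hJ : Function.Injective J) :
    Tendsto (fun T => ∑ S : Finset (Fin k), (-1 : ℝ) ^ S.card * VT (US q J S) T) atTop (𝓝 (Occ q J)) :=
  tendsto_finsetSum _ fun S _ => (VP_US h hkK hq hk hJ S).const_mul _

lemma VP_cell {K : ℕ} {ε : ℝ} (h : VP K ε) {q : ℕ} (hK : 1 ≤ K) (hq : 0 < q) (hk : (1 : ℝ) / q ≤ ε) (j : ℤ) :
    Tendsto (VT (cell q j)) atTop (𝓝 (Fr (cell q j))) := by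
  have h1 := VP_US h (k := 1) hK hq (by simpa using hk) (J := fun _ => j)
    (Function.injective_of_subsingleton _) Finset.univ
  have h2 : US q (fun _ : Fin 1 => j) Finset.univ = cell q j := by
    unfold US
    ext p
    simp
  rwa [h2] at h1

lemma Fr_near (U : Set ℝ) (hU : volume U ≠ ⊤) :
    |Fr U - (1 - volume.real U)| ≤ volume.real U ^ 2 * Real.exp (volume.real U) := by
  have h1 := (Fr_summable U hU).sum_add_tsum_nat_add 2
  have h2 : ∑ k ∈ Finset.range 2, (-1 : ℝ) ^ k / (k ! : ℝ) * MI k U = 1 - volume.real U := by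
    rw [Finset.sum_range_succ, Finset.sum_range_one, MI_zero, MI_one]
    simp
    ring
  have h3 : Fr U - (1 - volume.real U) = ∑' n : ℕ, (-1 : ℝ) ^ (n + 2) / ((n + 2) ! : ℝ) * MI (n + 2) U := by
    have : Fr U = ∑' k : ℕ, (-1 : ℝ) ^ k / (k ! : ℝ) * MI k U := rfl
    rw [this, ← h1, h2]
    ring
  rw [h3, ← Real.norm_eq_abs]
  have h4 : Summable fun n : ℕ => volume.real U ^ (n + 2) / ((n + 2) ! : ℝ) :=
    (summable_nat_add_iff 2).2 (Real.summable_pow_div_factorial _)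
  exact (tsum_of_norm_bounded h4.hasSum fun n => Fr_term_le (n + 2) U hU).trans
    (exp_tail _ measureReal_nonneg 2)

lemma NZ_lim : Tendsto (fun T : ℝ => (NZ T : ℝ) / (T / (2 * Real.pi) * Real.log T)) atTop (𝓝 1) := by
  rw [Metric.tendsto_atTop]
  intro ε hε
  obtain ⟨T0, hT0, h⟩ := Pool.Agent.W54.TCF.NT_asymp' (ε / 2) (by positivity)
  refine ⟨T0, fun T hT => ?_⟩
  obtain ⟨h1, h2⟩ := h T hT
  rw [← NZ_eq_NN] at h1 h2
  have hL : 0 < Real.log T := Real.log_pos (by linarith)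
  have hpi := Real.pi_pos
  have hT1 : 0 < T := by linarith
  obtain ⟨X, hX⟩ : ∃ X : ℝ, X = T / (2 * Real.pi) * Real.log T := ⟨_, rfl⟩
  have hX0 : 0 < X := by rw [hX]; positivity
  rw [← hX] at h1 h2 ⊢
  rw [Real.dist_eq]
  have e : (NZ T : ℝ) / X - 1 = ((NZ T : ℝ) - X) / X := by field_simp
  rw [e, abs_div, abs_of_pos hX0, div_lt_iff₀ hX0, abs_lt]
  constructor <;> nlinarith

lemma err_lim (L k : ℕ) :
    Tendsto (fun q : ℕ => ((2 * L + 1 : ℝ) * q) ^ k * (((k : ℝ) / q) ^ (k + 1) * Real.exp ((k : ℝ) / q)))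
      atTop (𝓝 0) := by
  have h1 : Tendsto (fun q : ℕ => (k : ℝ) / q) atTop (𝓝 0) := tendsto_const_div_atTop_nhds_zero_nat _
  have h2 : Tendsto (fun q : ℕ => (2 * L + 1 : ℝ) ^ k * (k : ℝ) ^ k * (((k : ℝ) / q) * Real.exp ((k : ℝ) / q)))
      atTop (𝓝 ((2 * L + 1 : ℝ) ^ k * (k : ℝ) ^ k * (0 * Real.exp 0))) :=
    (h1.mul ((Real.continuous_exp.tendsto 0).comp h1)).const_mul _
  rw [zero_mul, mul_zero] at h2
  refine h2.congr' ?_
  filter_upwards [eventually_gt_atTop 0] with q hq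
  have hq' : (q : ℝ) ≠ 0 := by exact_mod_cast hq.ne'
  rw [mul_pow, pow_succ, div_pow]
  field_simp

/-- sums of the occupation probabilities -/
lemma Occ_sum {m : ℕ} {L : ℕ} {x y : Fin m → ℝ} (σ : ℝ) {q : ℕ} (hq : 0 < q) :
    |∑ J ∈ Rs L x y σ q, Occ q J - ∑ J ∈ Rs L x y σ q, IC q J| ≤
      ((2 * L + 1 : ℝ) * q) ^ (m + 1) * ((((m + 1 : ℕ) : ℝ) / q) ^ (m + 1 + 1) *
        Real.exp (((m + 1 : ℕ) : ℝ) / q)) := by
  rw [← Finset.sum_sub_distrib]
  calc |∑ J ∈ Rs L x y σ q, (Occ q J - IC q J)| ≤ ∑ J ∈ Rs L x y σ q, |Occ q J - IC q J| :=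
        Finset.abs_sum_le_sum_abs _ _
    _ ≤ ∑ _J ∈ Rs L x y σ q, ((((m + 1 : ℕ) : ℝ) / q) ^ (m + 1 + 1) * Real.exp (((m + 1 : ℕ) : ℝ) / q)) :=
        Finset.sum_le_sum fun J hJ => Occ_near hq (mem_Rs.1 hJ).2.1
    _ = ((Rs L x y σ q).card : ℝ) * ((((m + 1 : ℕ) : ℝ) / q) ^ (m + 1 + 1) *
        Real.exp (((m + 1 : ℕ) : ℝ) / q)) := by rw [Finset.sum_const, nsmul_eq_mul]
    _ ≤ _ := by
        gcongr
        exact Rs_card L x y σ q

/-- **void probabilities of small sets give all k-level counts (RH)** -/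
theorem back (hRH : RHs) {ε : ℝ} (hε : 0 < ε) {m : ℕ} (h : VP (m + 1) ε) (x y : Fin m → ℝ) : LB x y := by
  obtain ⟨R, hR, hxy⟩ := box_R x y
  obtain ⟨L, hL⟩ : ∃ L : ℕ, R ≤ L := ⟨_, Nat.le_ceil R⟩
  have hx : ∀ i, -(L : ℝ) ≤ x i := fun i => by linarith [(hxy i).1]
  have hy : ∀ i, y i ≤ L := fun i => by linarith [(hxy i).2]
  have hL0 : (0 : ℝ) ≤ L := Nat.cast_nonneg _
  unfold LB
  rw [Metric.tendsto_atTop]
  intro δ hδ
  obtain ⟨I, hI⟩ : ∃ I : ℝ, I = ∫ u in Icc x y, rho u := ⟨_, rfl⟩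
  obtain ⟨f, hf⟩ : ∃ f : ℝ → ℝ, f = fun T => (Nk T x y : ℝ) / (T / (2 * Real.pi) * Real.log T) := ⟨_, rfl⟩
  have hpi := Real.pi_pos
  -- large T
  have hord := SG.ord_pos (n := 1) le_rfl
  have hTc : ∀ᶠ T : ℝ in atTop, 1 < T ∧ 2 * Real.pi / Real.log T ≤ ord 1 := by
    have h1 : ∀ᶠ T : ℝ in atTop, 2 * Real.pi / ord 1 ≤ Real.log T :=
      Real.tendsto_log_atTop.eventually_ge_atTop _
    filter_upwards [h1, eventually_gt_atTop 1] with T k1 k2
    refine ⟨k2, ?_⟩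
    have := Real.log_pos k2
    rw [div_le_iff₀ hord] at k1
    rw [div_le_iff₀ this]
    linarith
  -- sums of occupation probabilities
  have hsum : ∀ σ : ℝ, ∀ᶠ q : ℕ in atTop, |∑ J ∈ Rs L x y σ q, Occ q J - I| ≤ δ / 4 := by
    intro σ
    have h1 := (Rs_lim hx hy σ).eventually (Metric.closedBall_mem_nhds _ (by positivity : 0 < δ / 8))
    have h2 := (err_lim L (m + 1)).eventually (Metric.closedBall_mem_nhds _ (by positivity : 0 < δ / 8))
    filter_upwards [h1, h2, eventually_gt_atTop 0] with q k1 k2 hq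
    rw [Real.dist_eq, ← hI] at k1
    rw [Real.dist_eq, sub_zero] at k2
    have k3 := Occ_sum (L := L) (x := x) (y := y) σ hq
    have k4 := (le_abs_self _).trans k2
    have e : ∑ J ∈ Rs L x y σ q, Occ q J - I = (∑ J ∈ Rs L x y σ q, Occ q J - ∑ J ∈ Rs L x y σ q, IC q J) +
        (∑ J ∈ Rs L x y σ q, IC q J - I) := by ring
    rw [e]
    refine (abs_add_le _ _).trans ?_
    linarith
  have hqε : ∀ᶠ q : ℕ in atTop, ((m + 1 : ℕ) : ℝ) / q ≤ ε := by
    have h1 : Tendsto (fun q : ℕ => ((m + 1 : ℕ) : ℝ) / q) atTop (𝓝 0) :=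
      tendsto_const_div_atTop_nhds_zero_nat _
    filter_upwards [h1.eventually_lt_const hε] with q hq using hq.le
  -- the lower bound
  have hlow : ∀ᶠ T : ℝ in atTop, I - δ / 2 ≤ f T := by
    obtain ⟨q, k1, k2, k3⟩ := ((hsum (-1)).and (hqε.and (eventually_gt_atTop 0))).exists
    have h1 : Tendsto (fun T => ∑ J ∈ Rs L x y (-1) q, ∑ S : Finset (Fin (m + 1)),
        (-1 : ℝ) ^ S.card * VT (US q J S) T) atTop (𝓝 (∑ J ∈ Rs L x y (-1) q, Occ q J)) :=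
      tendsto_finsetSum _ fun J hJ => VP_Occ h le_rfl k3 k2 (mem_Rs.1 hJ).2.1
    have h2 := h1.eventually_const_lt (show ∑ J ∈ Rs L x y (-1) q, Occ q J - δ / 4 <
      ∑ J ∈ Rs L x y (-1) q, Occ q J by linarith)
    filter_upwards [hTc, h2] with T c1 c2
    have c3 := lowerT c1.1 c1.2 k3 hx hy (Rs L x y (-1) q) (fun J hJ => (mem_Rs.1 hJ).1)
      (fun J hJ => (mem_Rs.1 hJ).2.1) (fun J hJ => (mem_Rs.1 hJ).2.2.1)
      (fun J hJ i => by
        have := (mem_Rs.1 hJ).2.2.2 i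
        rw [sub_neg_eq_add, ← sub_eq_add_neg] at this
        exact this)
    have c4 := (abs_le.1 k1).1
    rw [hf]
    simp only
    linarith
  -- the upper bound
  have hupp : ∀ᶠ T : ℝ in atTop, f T ≤ I + 3 * δ / 4 := by
    obtain ⟨C, hC, hW⟩ := momW hRH L (2 * m)
    obtain ⟨K, hK⟩ : ∃ K : ℝ, K = (m + 1) * C * 8 / δ := ⟨_, rfl⟩
    have hK0 : 0 < K := by rw [hK]; positivity
    have hcell : ∀ᶠ q : ℕ in atTop, (m + 1) * (K * ((2 * L + 1) * 3 / q)) ≤ δ / 8 := by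
      have h1 : Tendsto (fun q : ℕ => (m + 1) * (K * ((2 * L + 1) * 3 / (q : ℝ)))) atTop
          (𝓝 ((m + 1) * (K * 0))) :=
        ((tendsto_const_div_atTop_nhds_zero_nat _).const_mul _).const_mul _
      rw [mul_zero, mul_zero] at h1
      filter_upwards [h1.eventually_lt_const (by positivity : 0 < δ / 8)] with q hq using hq.le
    obtain ⟨q, k1, k2, k3, k4⟩ := ((hsum 1).and (hqε.and (hcell.and (eventually_gt_atTop 0)))).exists
    have hq' : (0 : ℝ) < q := by exact_mod_cast k4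
    have hq1 : (1 : ℝ) ≤ q := by exact_mod_cast k4
    have h1 : Tendsto (fun T => ∑ J ∈ Rs L x y 1 q, ∑ S : Finset (Fin (m + 1)),
        (-1 : ℝ) ^ S.card * VT (US q J S) T) atTop (𝓝 (∑ J ∈ Rs L x y 1 q, Occ q J)) :=
      tendsto_finsetSum _ fun J hJ => VP_Occ h le_rfl k4 k2 (mem_Rs.1 hJ).2.1
    have hq2 : (1 : ℝ) / q ≤ ε := by
      refine le_trans ?_ k2
      gcongr
      push_cast
      linarith [(Nat.cast_nonneg m : (0 : ℝ) ≤ m)]
    have h2 : Tendsto (fun T : ℝ => (2 * L + 1 : ℝ) * ((NZ T : ℝ) / (T / (2 * Real.pi) * Real.log T)) -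
        ∑ j ∈ Cw q L, (1 - VT (cell q j) T)) atTop
        (𝓝 ((2 * L + 1 : ℝ) * 1 - ∑ j ∈ Cw q L, (1 - Fr (cell q j)))) :=
      (NZ_lim.const_mul _).sub (tendsto_finsetSum _ fun j _ => tendsto_const_nhds.sub
        (VP_cell h (Nat.le_add_left 1 m) k4 hq2 j))
    have h3 := h1.add ((h2.const_mul K).const_mul ((m : ℝ) + 1))
    have h4 : (2 * L + 1 : ℝ) * 1 - ∑ j ∈ Cw q L, (1 - Fr (cell q j)) ≤ (2 * L + 1) * 3 / q := by
      have a1 : ∀ j ∈ Cw q L, 1 / (q : ℝ) - (1 / (q : ℝ)) ^ 2 * 3 ≤ 1 - Fr (cell q j) := by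
        intro j _
        have a2 := Fr_near (cell q j) (cell_fin q j)
        rw [cell_vol] at a2
        have a3 : Real.exp (1 / (q : ℝ)) ≤ 3 := by
          have : (1 : ℝ) / q ≤ 1 := by rw [div_le_one hq']; exact hq1
          calc Real.exp (1 / (q : ℝ)) ≤ Real.exp 1 := Real.exp_le_exp.2 this
            _ ≤ 3 := by linarith [Real.exp_one_lt_d9]
        have a4 : (1 / (q : ℝ)) ^ 2 * Real.exp (1 / (q : ℝ)) ≤ (1 / (q : ℝ)) ^ 2 * 3 := by gcongr
        have a5 := (abs_le.1 a2).2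
        linarith
      have a6 := Finset.sum_le_sum a1
      rw [Finset.sum_const, nsmul_eq_mul, Cw_card] at a6
      have a7 : (2 * L + 1 : ℝ) * q * (1 / (q : ℝ) - (1 / (q : ℝ)) ^ 2 * 3) =
          (2 * L + 1) * 1 - (2 * L + 1) * 3 / q := by
        field_simp
      linarith
    have h5 := h3.eventually_lt_const (show ∑ J ∈ Rs L x y 1 q, Occ q J + ((m : ℝ) + 1) *
        (K * ((2 * L + 1 : ℝ) * 1 - ∑ j ∈ Cw q L, (1 - Fr (cell q j)))) <
        ∑ J ∈ Rs L x y 1 q, Occ q J + ((m : ℝ) + 1) *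
        (K * ((2 * L + 1 : ℝ) * 1 - ∑ j ∈ Cw q L, (1 - Fr (cell q j)))) + δ / 8 by linarith)
    filter_upwards [hTc, h5, hW] with T c1 c2 c3
    have hT0 : 0 < T := by linarith [c1.1]
    have c4 := upperT c1.1 c1.2 k4 hx hy (Rs L x y 1 q) (fun J hJ => (mem_Rs.1 hJ).1)
      (fun J d1 d2 d3 d4 d5 => mem_Rs.2 ⟨d1, d2, ⟨d3, d4⟩, d5⟩) hK0
    have c5 := (abs_le.1 k1).2
    have c6 : (∫ t, ((Win L T t).card : ℝ) ^ (2 * m + 1)) / T / K ≤ C / K := by
      gcongr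
      rw [div_le_iff₀ hT0]
      exact c3
    have c7 : ((m : ℝ) + 1) * (C / K) = δ / 8 := by
      rw [hK]
      field_simp
    have c8 : ((m : ℝ) + 1) * (K * ((2 * L + 1 : ℝ) * 1 - ∑ j ∈ Cw q L, (1 - Fr (cell q j)))) ≤ δ / 8 := by
      refine le_trans ?_ k3
      gcongr
    have c9 : ((m : ℝ) + 1) * (K * ((2 * L + 1) * ((NZ T : ℝ) / (T / (2 * Real.pi) * Real.log T)) -
        ∑ j ∈ Cw q L, (1 - VT (cell q j) T)) +
        (∫ t, ((Win L T t).card : ℝ) ^ (2 * m + 1)) / T / K) ≤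
        ((m : ℝ) + 1) * (K * ((2 * L + 1) * ((NZ T : ℝ) / (T / (2 * Real.pi) * Real.log T)) -
        ∑ j ∈ Cw q L, (1 - VT (cell q j) T))) + ((m : ℝ) + 1) * (C / K) := by
      rw [mul_add]
      gcongr
    rw [hf]
    simp only at c2 ⊢
    linarith
  obtain ⟨T0, hT0⟩ := eventually_atTop.1 (hlow.and hupp)
  refine ⟨T0, fun T hT => ?_⟩
  obtain ⟨a1, a2⟩ := hT0 T hT
  rw [Real.dist_eq, ← hI, abs_lt]
  rw [hf] at a1 a2
  simp only at a1 a2
  constructor <;> linarith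

end

end Pool.Agent.K4H58.KL
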