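import Pool.Agent.K4H58.KL.Avg
import Pool.Agent.K4H58.KL.Rie
import Pool.Agent.K4H58.KL.Lev

/-! # Sums over the tuples of zeros -/

set_option autoImplicit false

namespace Pool.Agent.K4H58.KL

open Filter Topology MeasureTheory Set
open scoped Nat
open SG (ord NZ)
open SP (RHs)
open Pool.Agent.R320.KL

noncomputable section

/-- the injective tuples -/
def Wt (m : ℕ) (T : ℝ) : Finset (Fin (m + 1) → ℕ) := by
  classical
  exact (Fintype.piFinset fun _ => Finset.Icc 1 (NZ T)).filter Function.Injective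

lemma mem_Wt {m : ℕ} {T : ℝ} {w : Fin (m + 1) → ℕ} :
    w ∈ Wt m T ↔ (∀ i, w i ∈ Finset.Icc 1 (NZ T)) ∧ Function.Injective w := by
  classical
  unfold Wt
  rw [Finset.mem_filter, Fintype.mem_piFinset]

/-- the differences -/
def uw {m : ℕ} (T : ℝ) (w : Fin (m + 1) → ℕ) : Fin m → ℝ :=
  fun i => (ord (w i.succ) - ord (w 0)) * (Real.log T / (2 * Real.pi))

/-- sums over the tuples -/
def TS {m : ℕ} (T : ℝ) (g : (Fin m → ℝ) → ℝ) : ℝ := ∑ w ∈ Wt m T, g (uw T w)

lemma Nk_TS {m : ℕ} (T : ℝ) (x y : Fin m → ℝ) :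
    (Nk T x y : ℝ) = TS T ((Icc x y).indicator (1 : (Fin m → ℝ) → ℝ)) := by
  classical
  have h1 : TS T ((Icc x y).indicator (1 : (Fin m → ℝ) → ℝ)) =
      (((Wt m T).filter fun w => uw T w ∈ Icc x y).card : ℝ) := by
    unfold TS
    rw [Finset.card_filter]
    push_cast
    refine Finset.sum_congr rfl fun w _ => ?_
    by_cases h : uw T w ∈ Icc x y
    · rw [indicator_of_mem h, if_pos h]
      rfl
    · rw [indicator_of_notMem h, if_neg h]
  rw [h1, Nk_fib, ← Finset.card_sigma]
  congr 1
  refine Finset.card_bij' (i := fun z _ => (Fin.cons z.1 z.2 : Fin (m + 1) → ℕ))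
    (j := fun w _ => ⟨w 0, Fin.tail w⟩) ?_ ?_ ?_ ?_
  · rintro ⟨n, l⟩ hz
    rw [Finset.mem_sigma, mem_Fb] at hz
    obtain ⟨h2, h4, h5⟩ := hz
    have h6 : ∀ i, l i ∈ Finset.Icc 1 (NZ T) ∧ l i ≠ n ∧
        (ord (l i) - ord n) * (Real.log T / (2 * Real.pi)) ∈ Icc (x i) (y i) := by
      intro i
      have := h4 i
      unfold Cs at this
      rw [Finset.mem_filter] at this
      exact this
    rw [Finset.mem_filter, mem_Wt]
    refine ⟨⟨fun i => ?_, ?_⟩, ?_⟩
    · refine Fin.cases ?_ (fun j => ?_) i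
      · rw [Fin.cons_zero]
        exact h2
      · rw [Fin.cons_succ]
        exact (h6 j).1
    · rw [Fin.cons_injective_iff]
      refine ⟨?_, h5⟩
      rintro ⟨i, hi⟩
      exact (h6 i).2.1 hi
    · unfold uw
      rw [mem_Icc, Pi.le_def, Pi.le_def]
      simp only [Fin.cons_zero, Fin.cons_succ]
      exact ⟨fun i => (h6 i).2.2.1, fun i => (h6 i).2.2.2⟩
  · intro w hw
    rw [Finset.mem_filter, mem_Wt] at hw
    obtain ⟨⟨h2, h3⟩, h4⟩ := hw
    rw [Finset.mem_sigma, mem_Fb]
    refine ⟨h2 0, fun i => ?_, fun i j hij => ?_⟩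
    · unfold Cs
      rw [Finset.mem_filter]
      refine ⟨h2 i.succ, ?_, ?_⟩
      · intro h
        exact absurd (h3 h) (Fin.succ_ne_zero i)
      · exact ⟨h4.1 i, h4.2 i⟩
    · have := h3 hij
      simpa using this
  · rintro ⟨n, l⟩ _
    simp
  · intro w _
    simp

lemma TS_mono {m : ℕ} {T : ℝ} {g g' : (Fin m → ℝ) → ℝ} (h : ∀ u, g u ≤ g' u) : TS T g ≤ TS T g' :=
  Finset.sum_le_sum fun w _ => h _

lemma TS_sum {m : ℕ} {ι : Type} (T : ℝ) (s : Finset ι) (g : ι → (Fin m → ℝ) → ℝ) :
    TS T (fun u => ∑ i ∈ s, g i u) = ∑ i ∈ s, TS T (g i) := by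
  unfold TS
  rw [Finset.sum_comm]

/-- convergence for a test function -/
def Cv {m : ℕ} (g : (Fin m → ℝ) → ℝ) : Prop :=
  Tendsto (fun T : ℝ => TS T g / (T / (2 * Real.pi) * Real.log T)) atTop (𝓝 (∫ u, g u * rho u))

lemma Cv_Icc {m : ℕ} {x y : Fin m → ℝ} (h : LB x y) : Cv ((Icc x y).indicator (1 : (Fin m → ℝ) → ℝ)) := by
  unfold Cv
  have h1 : ∫ u, (Icc x y).indicator (1 : (Fin m → ℝ) → ℝ) u * rho u = ∫ u in Icc x y, rho u := by
    rw [← integral_indicator measurableSet_Icc]
    refine integral_congr_ae (Eventually.of_forall fun u => ?_)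
    by_cases hu : u ∈ Icc x y
    · simp only [indicator_of_mem hu, Pi.one_apply, one_mul]
    · simp only [indicator_of_notMem hu, zero_mul]
  rw [h1]
  simp_rw [← Nk_TS]
  exact h

lemma Cv_sum {m : ℕ} {ι : Type} (s : Finset ι) (g : ι → (Fin m → ℝ) → ℝ)
    (hi : ∀ i ∈ s, Integrable fun u => g i u * rho u) (h : ∀ i ∈ s, Cv (g i)) :
    Cv (fun u => ∑ i ∈ s, g i u) := by
  unfold Cv
  have h1 : ∫ u, (∑ i ∈ s, g i u) * rho u = ∑ i ∈ s, ∫ u, g i u * rho u := by
    rw [← integral_finsetSum s hi]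
    simp_rw [Finset.sum_mul]
  rw [h1]
  simp_rw [TS_sum, Finset.sum_div]
  exact tendsto_finsetSum s h

/-- product of indicators of half-open intervals -/
def pI {m : ℕ} (x y : Fin m → ℝ) (u : Fin m → ℝ) : ℝ := ∏ i, (Ico (x i) (y i)).indicator (1 : ℝ → ℝ) (u i)

lemma pI_eq {m : ℕ} (x y : Fin m → ℝ) (u : Fin m → ℝ) :
    pI x y u = (Set.pi univ fun i => Ico (x i) (y i)).indicator (1 : (Fin m → ℝ) → ℝ) u := by
  unfold pI
  by_cases h : u ∈ Set.pi univ fun i => Ico (x i) (y i)
  · rw [indicator_of_mem h, Pi.one_apply]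
    rw [Set.mem_univ_pi] at h
    exact Finset.prod_eq_one fun i _ => by rw [indicator_of_mem (h i), Pi.one_apply]
  · rw [indicator_of_notMem h]
    rw [Set.mem_univ_pi] at h
    push Not at h
    obtain ⟨i, hi⟩ := h
    exact Finset.prod_eq_zero (Finset.mem_univ i) (indicator_of_notMem hi _)

lemma pI_integrable {m : ℕ} (x y : Fin m → ℝ) : Integrable fun u => pI x y u * rho u := by
  have h1 : (fun u => pI x y u * rho u) =
      (Set.pi univ fun i => Ico (x i) (y i)).indicator (fun u => rho u) := by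
    funext u
    rw [pI_eq]
    by_cases hu : u ∈ Set.pi univ fun i => Ico (x i) (y i)
    · rw [indicator_of_mem hu, indicator_of_mem hu, Pi.one_apply, one_mul]
    · rw [indicator_of_notMem hu, indicator_of_notMem hu, zero_mul]
  rw [h1, integrable_indicator_iff (MeasurableSet.univ_pi fun i => measurableSet_Ico)]
  refine Measure.integrableOn_of_bounded (M := 1) ?_ (rho_cont m).aestronglyMeasurable ?_
  · rw [volume_pi_pi]
    exact ENNReal.prod_ne_top fun i _ => by simp
  · refine Eventually.of_forall fun u => ?_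
    rw [Real.norm_eq_abs]
    unfold rho
    rw [abs_of_nonneg (SD_nonneg _)]
    exact SD_le_one _

lemma pI_int {m : ℕ} (x y : Fin m → ℝ) : ∫ u, pI x y u * rho u = ∫ u in Icc x y, rho u := by
  have h1 : (fun u => pI x y u * rho u) =
      (Set.pi univ fun i => Ico (x i) (y i)).indicator (fun u => rho u) := by
    funext u
    rw [pI_eq]
    by_cases hu : u ∈ Set.pi univ fun i => Ico (x i) (y i)
    · rw [indicator_of_mem hu, indicator_of_mem hu, Pi.one_apply, one_mul]
    · rw [indicator_of_notMem hu, indicator_of_notMem hu, zero_mul]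
  rw [h1, integral_indicator (MeasurableSet.univ_pi fun i => measurableSet_Ico)]
  exact setIntegral_congr_set Measure.univ_pi_Ico_ae_eq_Icc

lemma Cv_pI {m : ℕ} (h : ∀ x y : Fin m → ℝ, LB x y) (x y : Fin m → ℝ) : Cv (pI x y) := by
  unfold Cv
  rw [pI_int]
  have h1 := h x y
  unfold LB at h1
  -- the faces
  have h2 : ∀ i : Fin m, Tendsto (fun T : ℝ => (Nk T (Function.update x i (y i)) y : ℝ) /
      (T / (2 * Real.pi) * Real.log T)) atTop (𝓝 0) := by
    intro i
    have h3 := h (Function.update x i (y i)) y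
    unfold LB at h3
    have h4 : ∫ u in Icc (Function.update x i (y i)) y, rho u = 0 := by
      refine setIntegral_measure_zero _ ?_
      rw [← Set.pi_univ_Icc, volume_pi_pi]
      refine Finset.prod_eq_zero (Finset.mem_univ i) ?_
      simp
    rwa [h4] at h3
  have h3 : Tendsto (fun T : ℝ => (Nk T x y : ℝ) / (T / (2 * Real.pi) * Real.log T) -
      ∑ i, (Nk T (Function.update x i (y i)) y : ℝ) / (T / (2 * Real.pi) * Real.log T)) atTop
      (𝓝 (∫ u in Icc x y, rho u)) := by
    have := h1.sub (tendsto_finsetSum Finset.univ fun i _ => h2 i)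
    simpa using this
  refine tendsto_of_tendsto_of_tendsto_of_le_of_le' h3 h1 ?_ ?_
  · filter_upwards [eventually_gt_atTop 1] with T hT
    have hL := Real.log_pos hT
    have hpi := Real.pi_pos
    rw [← Finset.sum_div, ← sub_div]
    gcongr
    simp_rw [Nk_TS]
    rw [sub_le_iff_le_add, ← TS_sum]
    have h5 : TS T (pI x y) + TS T (fun u => ∑ i, (Icc (Function.update x i (y i)) y).indicator
        (1 : (Fin m → ℝ) → ℝ) u) = TS T (fun u => pI x y u + ∑ i, (Icc (Function.update x i (y i)) y).indicator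
        (1 : (Fin m → ℝ) → ℝ) u) := by
      unfold TS
      rw [← Finset.sum_add_distrib]
    rw [h5]
    refine TS_mono fun u => ?_
    have h6 : ∀ i, 0 ≤ (Icc (Function.update x i (y i)) y).indicator (1 : (Fin m → ℝ) → ℝ) u :=
      fun i => indicator_nonneg (fun _ _ => zero_le_one) u
    have h7 : 0 ≤ pI x y u := by
      rw [pI_eq]
      exact indicator_nonneg (fun _ _ => zero_le_one) u
    by_cases hu : u ∈ Icc x y
    · rw [indicator_of_mem hu, Pi.one_apply]
      by_cases hu2 : u ∈ Set.pi univ fun i => Ico (x i) (y i)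
      · rw [pI_eq, indicator_of_mem hu2, Pi.one_apply]
        have := Finset.sum_nonneg fun i (_ : i ∈ Finset.univ) => h6 i
        linarith
      · rw [Set.mem_univ_pi] at hu2
        push Not at hu2
        obtain ⟨i, hi⟩ := hu2
        have h8 : u i = y i := by
          by_contra hne
          exact hi ⟨hu.1 i, lt_of_le_of_ne (hu.2 i) hne⟩
        have h9 : u ∈ Icc (Function.update x i (y i)) y := by
          refine ⟨fun j => ?_, hu.2⟩
          by_cases hj : j = i
          · rw [hj, Function.update_self, h8]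
          · rw [Function.update_of_ne hj]
            exact hu.1 j
        have h10 := Finset.single_le_sum (f := fun i => (Icc (Function.update x i (y i)) y).indicator
          (1 : (Fin m → ℝ) → ℝ) u) (fun i _ => h6 i) (Finset.mem_univ i)
        simp only [indicator_of_mem h9, Pi.one_apply] at h10
        linarith
    · rw [indicator_of_notMem hu]
      have := Finset.sum_nonneg fun i (_ : i ∈ Finset.univ) => h6 i
      linarith
  · filter_upwards [eventually_gt_atTop 1] with T hT
    have hL := Real.log_pos hT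
    have hpi := Real.pi_pos
    gcongr
    rw [Nk_TS]
    refine TS_mono fun u => ?_
    rw [pI_eq]
    refine indicator_le_indicator_of_subset ?_ (fun _ => zero_le_one) u
    intro v hv
    rw [Set.mem_univ_pi] at hv
    exact ⟨fun i => (hv i).1, fun i => (hv i).2.le⟩

end

end Pool.Agent.K4H58.KL
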