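import Pool.Agent.K4H58.KL.Fib

/-! # Adding a long side to a box, on RH -/

set_option autoImplicit false

namespace Pool.Agent.K4H58.KL

open Filter Topology MeasureTheory Set
open SG (ord NZ)
open SP (RHs)
open Pool.Agent.R320.KL
open Pool.Agent.Y743.CL (lm log_nat bigT)

noncomputable section

lemma XX_sub (T x y : ℝ) (n : ℕ) : XX T y n - XX T x n = WW T x y n := by
  unfold XX WW
  ring

theorem momD (hRH : RHs) (j : ℕ) (B : ℝ) (hB : 1 ≤ B) : ∃ C : ℝ, 0 < C ∧ ∀ᶠ M : ℕ in atTop,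
    ∀ T : ℝ, 1 ≤ T → ((2 * M : ℕ) : ℝ) * Real.log (2 * M : ℕ) ≤ B * Real.log T →
    ∀ x y : ℝ, |x| ≤ M - 1 → |y| ≤ M - 1 → x ≤ y →
    ∑ n ∈ Finset.Icc 1 (NZ T), DD T x y n ^ (2 * 2 ^ j) ≤
      C * (1 + Real.log (2 + (y - x))) ^ (2 ^ j) * (T * Real.log T) := by
  obtain ⟨C1, hC1, h1⟩ := momC hRH j B hB
  obtain ⟨C2, hC2, h2⟩ := momE hRH j B hB
  refine ⟨2 ^ (2 * 2 ^ j) * (C1 + C2), by positivity, ?_⟩
  filter_upwards [h1, h2] with M k1 k2 T hT hc x y hx hy hxy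
  have a1 := k1 T hT hc x y (hx.trans (by linarith)) (hy.trans (by linarith)) hxy
  have a2 := k2 T hT hc x y hx hy hxy
  have hl : 0 ≤ Real.log (2 + (y - x)) := Real.log_nonneg (by linarith)
  have hp : 1 ≤ (1 + Real.log (2 + (y - x))) ^ (2 ^ j) := one_le_pow₀ (by linarith)
  have hX : 0 ≤ T * Real.log T := mul_nonneg (by linarith) (Real.log_nonneg hT)
  have h3 : ∀ n, DD T x y n ^ (2 * 2 ^ j) ≤ 2 ^ (2 * 2 ^ j) *
      ((((Cs T x y n).card : ℝ) - (y - x) - (XX T y n - XX T x n)) ^ (2 * 2 ^ j) +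
        WW T x y n ^ (2 * 2 ^ j)) := by
    intro n
    have h4 := two_pow_add (x := ((Cs T x y n).card : ℝ) - (y - x) - (XX T y n - XX T x n))
      (y := -WW T x y n) (2 ^ j)
    have h5 : (-WW T x y n) ^ (2 * 2 ^ j) = WW T x y n ^ (2 * 2 ^ j) :=
      Even.neg_pow ⟨2 ^ j, by ring⟩ _
    have h6 : ((Cs T x y n).card : ℝ) - (y - x) - (XX T y n - XX T x n) - -WW T x y n = DD T x y n := by
      rw [XX_sub]
      unfold DD
      ring
    rw [h5, h6] at h4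
    exact h4
  calc ∑ n ∈ Finset.Icc 1 (NZ T), DD T x y n ^ (2 * 2 ^ j)
      ≤ ∑ n ∈ Finset.Icc 1 (NZ T), 2 ^ (2 * 2 ^ j) *
      ((((Cs T x y n).card : ℝ) - (y - x) - (XX T y n - XX T x n)) ^ (2 * 2 ^ j) +
        WW T x y n ^ (2 * 2 ^ j)) := Finset.sum_le_sum fun n _ => h3 n
    _ = 2 ^ (2 * 2 ^ j) * (∑ n ∈ Finset.Icc 1 (NZ T),
      (((Cs T x y n).card : ℝ) - (y - x) - (XX T y n - XX T x n)) ^ (2 * 2 ^ j) +
        ∑ n ∈ Finset.Icc 1 (NZ T), WW T x y n ^ (2 * 2 ^ j)) := by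
        rw [← Finset.mul_sum, Finset.sum_add_distrib]
    _ ≤ 2 ^ (2 * 2 ^ j) * (C2 * (T * Real.log T) +
        C1 * (1 + Real.log (2 + (y - x))) ^ (2 ^ j) * (T * Real.log T)) := by gcongr
    _ ≤ 2 ^ (2 * 2 ^ j) * (C2 * (1 + Real.log (2 + (y - x))) ^ (2 ^ j) * (T * Real.log T) +
        C1 * (1 + Real.log (2 + (y - x))) ^ (2 ^ j) * (T * Real.log T)) := by
        gcongr
        exact le_mul_of_one_le_right hC2.le hp
    _ = 2 ^ (2 * 2 ^ j) * (C1 + C2) * (1 + Real.log (2 + (y - x))) ^ (2 ^ j) * (T * Real.log T) := by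
        ring

lemma NZ_le : ∃ T0 : ℝ, 10 ≤ T0 ∧ ∀ T : ℝ, T0 ≤ T → (NZ T : ℝ) ≤ T * Real.log T := by
  obtain ⟨T0, hT0, h⟩ := Pool.Agent.W54.TCF.NT_asymp' 1 one_pos
  refine ⟨T0, hT0, fun T hT => ?_⟩
  have h1 := (h T hT).2
  rw [← NZ_eq_NN] at h1
  have hpi := Real.pi_gt_three
  have hl : 0 ≤ Real.log T := Real.log_nonneg (by linarith)
  have h2 : T / (2 * Real.pi) ≤ T / 2 := div_le_div_of_nonneg_left (by linarith) (by norm_num) (by linarith)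
  have h3 : T / (2 * Real.pi) * Real.log T ≤ T / 2 * Real.log T := mul_le_mul_of_nonneg_right h2 hl
  linarith

/-- the moments of the number of the near zeros -/
theorem momV (hRH : RHs) (p : ℕ) (R B : ℝ) (hR : 0 ≤ R) (hB : 1 ≤ B) : ∃ C : ℝ, 0 < C ∧
    ∀ᶠ M : ℕ in atTop, ∀ T : ℝ, 1 ≤ T → ((2 * M : ℕ) : ℝ) * Real.log (2 * M : ℕ) ≤ B * Real.log T →
    ∑ n ∈ Finset.Icc 1 (NZ T), ((Cs T (-R) R n).card : ℝ) ^ p ≤ C * (T * Real.log T) := by
  obtain ⟨C, hC, h1⟩ := momD hRH p B hB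
  obtain ⟨T0, hT0, h0⟩ := NZ_le
  have hp2 : p ≤ 2 * 2 ^ p := by
    have := (Nat.lt_two_pow_self (n := p)).le
    omega
  obtain ⟨q, hq⟩ : ∃ q : ℕ, q = 2 * 2 ^ p := ⟨_, rfl⟩
  obtain ⟨D, hD⟩ : ∃ D : ℝ, D = C * (1 + Real.log (2 + (R - -R))) ^ (2 ^ p) := ⟨_, rfl⟩
  have hD0 : 0 ≤ D := by
    rw [hD]
    have : 0 ≤ Real.log (2 + (R - -R)) := Real.log_nonneg (by linarith)
    positivity
  have hlogt : Tendsto (fun m : ℕ => 2 * m) atTop atTop := two_top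
  refine ⟨1 + 2 ^ q * (D + (2 * R) ^ q), by positivity, ?_⟩
  filter_upwards [h1, two_top.eventually (bigT B hB T0), eventually_ge_atTop (⌈R⌉₊ + 1)] with
    M k1 k2 k3 T hT hc
  have hTT := k2 T hT hc
  have hMR : R + 1 ≤ M := by
    have h4 : ((⌈R⌉₊ + 1 : ℕ) : ℝ) ≤ M := by exact_mod_cast k3
    push_cast at h4
    linarith [Nat.le_ceil R]
  have hX : 0 ≤ T * Real.log T := mul_nonneg (by linarith) (Real.log_nonneg hT)
  have a1 := k1 T hT hc (-R) R (by rw [abs_neg, abs_of_nonneg hR]; linarith)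
    (by rw [abs_of_nonneg hR]; linarith) (by linarith)
  rw [← hD, ← hq] at a1
  have h5 : ∀ n, ((Cs T (-R) R n).card : ℝ) ^ p ≤ 1 + 2 ^ q * (DD T (-R) R n ^ q + (2 * R) ^ q) := by
    intro n
    obtain ⟨V, hV⟩ : ∃ V : ℝ, V = ((Cs T (-R) R n).card : ℝ) := ⟨_, rfl⟩
    have hV0 : 0 ≤ V := by rw [hV]; exact Nat.cast_nonneg _
    rw [← hV]
    have h6 : V ^ p ≤ 1 + V ^ q := by
      rcases le_total V 1 with h | h
      · have h7 : V ^ p ≤ 1 := pow_le_one₀ hV0 h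
        have h8 : 0 ≤ V ^ q := by positivity
        linarith
      · have h7 : V ^ p ≤ V ^ q := pow_le_pow_right₀ h (by rw [hq]; exact hp2)
        linarith
    have h9 := two_pow_add (x := DD T (-R) R n) (y := -(2 * R)) (2 ^ p)
    rw [← hq] at h9
    have h10 : (-(2 * R)) ^ q = (2 * R) ^ q := Even.neg_pow ⟨2 ^ p, by rw [hq]; ring⟩ _
    have h11 : DD T (-R) R n - -(2 * R) = V := by
      rw [hV]
      unfold DD
      ring
    rw [h10, h11] at h9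
    linarith
  calc ∑ n ∈ Finset.Icc 1 (NZ T), ((Cs T (-R) R n).card : ℝ) ^ p
      ≤ ∑ n ∈ Finset.Icc 1 (NZ T), (1 + 2 ^ q * (DD T (-R) R n ^ q + (2 * R) ^ q)) :=
        Finset.sum_le_sum fun n _ => h5 n
    _ = (NZ T : ℝ) * (1 + 2 ^ q * (2 * R) ^ q) +
        2 ^ q * ∑ n ∈ Finset.Icc 1 (NZ T), DD T (-R) R n ^ q := by
        rw [Finset.mul_sum, Finset.sum_congr rfl (fun n _ => by ring :
          ∀ n ∈ Finset.Icc 1 (NZ T), (1 + 2 ^ q * (DD T (-R) R n ^ q + (2 * R) ^ q)) =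
            (1 + 2 ^ q * (2 * R) ^ q) + 2 ^ q * DD T (-R) R n ^ q), Finset.sum_add_distrib,
          Finset.sum_const, Nat.card_Icc, nsmul_eq_mul]
        simp
    _ ≤ (T * Real.log T) * (1 + 2 ^ q * (2 * R) ^ q) + 2 ^ q * (D * (T * Real.log T)) := by
        have := h0 T hTT
        gcongr
    _ = (1 + 2 ^ q * (D + (2 * R) ^ q)) * (T * Real.log T) := by ring

lemma choose_M {B a T : ℝ} (ha4 : 4 ≤ a) (hT : 1 ≤ T) (haT : a * Real.log a ≤ B * Real.log T) :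
    (((2 * (⌈a⌉₊ + 1) : ℕ) : ℝ)) * Real.log ((2 * (⌈a⌉₊ + 1) : ℕ) : ℝ) ≤ 8 * max B 1 * Real.log T := by
  obtain ⟨M, hM⟩ : ∃ M : ℕ, M = ⌈a⌉₊ + 1 := ⟨_, rfl⟩
  rw [← hM]
  have hMa : a + 1 ≤ M := by
    rw [hM]
    push_cast
    linarith [Nat.le_ceil a]
  have hMa2 : (M : ℝ) ≤ a + 2 := by
    rw [hM]
    push_cast
    linarith [Nat.ceil_lt_add_one (show 0 ≤ a by linarith)]
  have hla : 0 < Real.log a := Real.log_pos (by linarith)
  have h2M : ((2 * M : ℕ) : ℝ) ≤ 4 * a := by push_cast; linarith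
  have h2M0 : (0 : ℝ) < ((2 * M : ℕ) : ℝ) := by
    push_cast
    linarith
  have hl2M : Real.log ((2 * M : ℕ) : ℝ) ≤ 2 * Real.log a := by
    have h1 : Real.log ((2 * M : ℕ) : ℝ) ≤ Real.log (a ^ 2) := Real.log_le_log h2M0 (by nlinarith)
    rw [Real.log_pow] at h1
    push_cast at h1 ⊢
    exact h1
  have hl2M0 : 0 < Real.log ((2 * M : ℕ) : ℝ) := by
    apply Real.log_pos
    push_cast
    linarith
  have hlT : 0 ≤ Real.log T := Real.log_nonneg hT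
  have hBB : B * Real.log T ≤ max B 1 * Real.log T :=
    mul_le_mul_of_nonneg_right (le_max_left _ _) hlT
  calc ((2 * M : ℕ) : ℝ) * Real.log (2 * M : ℕ) ≤ 4 * a * (2 * Real.log a) :=
        mul_le_mul h2M hl2M hl2M0.le (by linarith)
    _ = 8 * (a * Real.log a) := by ring
    _ ≤ 8 * (max B 1 * Real.log T) := by linarith
    _ = 8 * max B 1 * Real.log T := by ring

/-- **a long side counts by its length (RH)** -/
theorem red (hRH : RHs) (m : ℕ) (R B : ℝ) (hR : 0 ≤ R) : ∃ C A0 : ℝ, 0 < C ∧ 4 ≤ A0 ∧ ∀ A : ℝ, A0 ≤ A →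
    ∀ T : ℝ, 1 ≤ T → A * Real.log A ≤ B * Real.log T →
    ∀ x y : Fin m → ℝ, (∀ i, -R ≤ x i ∧ y i ≤ R) → ∀ a b : ℝ, -A ≤ a → a ≤ b → b ≤ A →
    |(Nk T (Fin.cons a x : Fin (m + 1) → ℝ) (Fin.cons b y) : ℝ) - (b - a) * Nk T x y| ≤
      C * Real.sqrt (Real.log (2 + (b - a))) * (T * Real.log T) := by
  have hB1 : (1 : ℝ) ≤ 8 * max B 1 := by linarith [le_max_right B 1]
  obtain ⟨C1, hC1, h1⟩ := momV hRH (2 * m) R (8 * max B 1) hR hB1
  obtain ⟨C2, hC2, h2⟩ := momD hRH 0 (8 * max B 1) hB1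
  obtain ⟨T0, hT0, h0⟩ := NZ_le
  obtain ⟨M0, hM0⟩ := eventually_atTop.1 (h1.and (h2.and (two_top.eventually (bigT _ hB1 T0))))
  refine ⟨2 * m * (1 + C1) + C1 + 3 * C2, max M0 4, by positivity, le_max_right _ _,
    fun A hA T hT hAT x y hxy a b ha hab hb => ?_⟩
  have hAM : (M0 : ℝ) ≤ A := (le_max_left _ _).trans hA
  have hA4 : 4 ≤ A := (le_max_right _ _).trans hA
  have hc := choose_M hA4 hT hAT
  obtain ⟨M, hM⟩ : ∃ M : ℕ, M = ⌈A⌉₊ + 1 := ⟨_, rfl⟩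
  rw [← hM] at hc
  have hMa : A + 1 ≤ M := by
    rw [hM]
    push_cast
    linarith [Nat.le_ceil A]
  have hMM0 : M0 ≤ M := by
    have : (M0 : ℝ) ≤ M := by linarith
    exact_mod_cast this
  obtain ⟨k1, k2, k3⟩ := hM0 M hMM0
  have a1 := k1 T hT hc
  have a2 := k2 T hT hc a b (by rw [abs_le]; constructor <;> linarith)
    (by rw [abs_le]; constructor <;> linarith) hab
  simp only [pow_zero, mul_one, pow_one] at a2
  have a3 := h0 T (k3 T hT hc)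
  obtain ⟨X, hX⟩ : ∃ X : ℝ, X = T * Real.log T := ⟨_, rfl⟩
  have hX0 : 0 ≤ X := by rw [hX]; exact mul_nonneg (by linarith) (Real.log_nonneg hT)
  obtain ⟨w, hw⟩ : ∃ w : ℝ, w = Real.log (2 + (b - a)) := ⟨_, rfl⟩
  obtain ⟨s, hs⟩ : ∃ s : ℝ, s = Real.sqrt w := ⟨_, rfl⟩
  have hw2 : 1 / 2 ≤ w := by
    have h5 : Real.log 2 ≤ w := by rw [hw]; exact Real.log_le_log (by norm_num) (by linarith)
    linarith [Real.log_two_gt_d9]
  have hs0 : 0 < s := by rw [hs]; exact Real.sqrt_pos.2 (by linarith)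
  have hs2 : s ^ 2 = w := by rw [hs]; exact Real.sq_sqrt (by linarith)
  have hs1 : 1 ≤ 2 * s := by nlinarith
  rw [← hw, ← hs, ← hX]
  rw [← hw, ← hX] at a2
  rw [← hX] at a1 a3
  obtain ⟨V, hV⟩ : ∃ V : ℕ → ℝ, V = fun n => ((Cs T (-R) R n).card : ℝ) := ⟨_, rfl⟩
  have hV0 : ∀ n, 0 ≤ V n := fun n => by rw [hV]; exact Nat.cast_nonneg _
  have hstep : ∀ n, |((Fb T (Fin.cons a x : Fin (m + 1) → ℝ) (Fin.cons b y) n).card : ℝ) -
      (b - a) * (Fb T x y n).card| ≤ m * (1 + V n ^ (2 * m)) + (s * V n ^ (2 * m) + s⁻¹ * DD T a b n ^ 2) := by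
    intro n
    have b1 := Fb_step T a b x y n
    have b2 : ((Fb T x y n).card : ℝ) ≤ V n ^ m := by
      have b0 := Fb_le (T := T) hxy n
      simp only [hV]
      exact_mod_cast b0
    have b3 : V n ^ (2 * m) = (V n ^ m) ^ 2 := by rw [← pow_mul, mul_comm]
    have b4 : 0 ≤ V n ^ m := pow_nonneg (hV0 n) m
    have b5 : 0 ≤ |DD T a b n| := abs_nonneg _
    have b6 : DD T a b n ^ 2 = |DD T a b n| ^ 2 := (sq_abs _).symm
    have b7 : (0 : ℝ) ≤ m := Nat.cast_nonneg _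
    rw [b3, b6]
    have b8 : V n ^ m ≤ 1 + (V n ^ m) ^ 2 := by nlinarith [sq_nonneg (V n ^ m - 1)]
    have b9 : V n ^ m * |DD T a b n| ≤ s * (V n ^ m) ^ 2 + s⁻¹ * |DD T a b n| ^ 2 := by
      have c1 : 0 ≤ s⁻¹ * (s * V n ^ m - |DD T a b n|) ^ 2 := by positivity
      have c2 : s⁻¹ * (s * V n ^ m - |DD T a b n|) ^ 2 =
          s * (V n ^ m) ^ 2 - 2 * (V n ^ m * |DD T a b n|) + s⁻¹ * |DD T a b n| ^ 2 := by
        field_simp
        ring
      have c3 : 0 ≤ V n ^ m * |DD T a b n| := by positivity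
      linarith
    calc _ ≤ ((Fb T x y n).card : ℝ) * (m + |DD T a b n|) := b1
      _ ≤ V n ^ m * (m + |DD T a b n|) := by gcongr
      _ = m * V n ^ m + V n ^ m * |DD T a b n| := by ring
      _ ≤ m * (1 + (V n ^ m) ^ 2) + (s * (V n ^ m) ^ 2 + s⁻¹ * |DD T a b n| ^ 2) := by gcongr
  rw [Nk_fib, Nk_fib]
  push_cast
  rw [Finset.mul_sum, ← Finset.sum_sub_distrib]
  have hm0 : (0 : ℝ) ≤ m := Nat.cast_nonneg _
  calc |∑ n ∈ Finset.Icc 1 (NZ T), (((Fb T (Fin.cons a x : Fin (m + 1) → ℝ) (Fin.cons b y) n).card : ℝ) -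
        (b - a) * ((Fb T x y n).card : ℝ))|
      ≤ ∑ n ∈ Finset.Icc 1 (NZ T), (m * (1 + V n ^ (2 * m)) +
        (s * V n ^ (2 * m) + s⁻¹ * DD T a b n ^ 2)) :=
        (Finset.abs_sum_le_sum_abs _ _).trans (Finset.sum_le_sum fun n _ => hstep n)
    _ = m * (NZ T : ℝ) + (m + s) * ∑ n ∈ Finset.Icc 1 (NZ T), V n ^ (2 * m) +
        s⁻¹ * ∑ n ∈ Finset.Icc 1 (NZ T), DD T a b n ^ 2 := by
        rw [Finset.mul_sum, Finset.mul_sum, Finset.sum_congr rfl (fun n _ => by ring :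
          ∀ n ∈ Finset.Icc 1 (NZ T), (m * (1 + V n ^ (2 * m)) +
            (s * V n ^ (2 * m) + s⁻¹ * DD T a b n ^ 2)) = (m : ℝ) + ((m + s) * V n ^ (2 * m) +
            s⁻¹ * DD T a b n ^ 2)), Finset.sum_add_distrib, Finset.sum_add_distrib,
          Finset.sum_const, Nat.card_Icc, nsmul_eq_mul]
        simp only [Nat.add_sub_cancel]
        ring
    _ ≤ m * X + (m + s) * (C1 * X) + s⁻¹ * (C2 * (1 + w) * X) := by
        have c1 : ∑ n ∈ Finset.Icc 1 (NZ T), V n ^ (2 * m) ≤ C1 * X := by rw [hV]; exact a1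
        gcongr
    _ ≤ (2 * m * (1 + C1) + C1 + 3 * C2) * s * X := by
        have c2 : s⁻¹ * (C2 * (1 + w) * X) ≤ 3 * C2 * s * X := by
          rw [← hs2]
          have c3 : 1 + s ^ 2 ≤ 3 * s ^ 2 := by linarith
          calc s⁻¹ * (C2 * (1 + s ^ 2) * X) ≤ s⁻¹ * (C2 * (3 * s ^ 2) * X) := by gcongr
            _ = 3 * C2 * s * X := by field_simp
        have c4 : m * X ≤ 2 * s * (m * X) := by
          have : 0 ≤ m * X := by positivity
          exact le_mul_of_one_le_left this hs1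
        have c5 : m * (C1 * X) ≤ 2 * s * (m * (C1 * X)) := by
          have : 0 ≤ m * (C1 * X) := by positivity
          exact le_mul_of_one_le_left this hs1
        have e1 : (2 * m * (1 + C1) + C1 + 3 * C2) * s * X =
            2 * s * (m * X) + 2 * s * (m * (C1 * X)) + s * (C1 * X) + 3 * C2 * s * X := by ring
        have e2 : m * X + (m + s) * (C1 * X) + s⁻¹ * (C2 * (1 + w) * X) =
            m * X + m * (C1 * X) + s * (C1 * X) + s⁻¹ * (C2 * (1 + w) * X) := by ring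
        rw [e1, e2]
        linarith

end

end Pool.Agent.K4H58.KL
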