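import Pool.Agent.K4H58.KL.Pnt
import Pool.Agent.K4H58.KL.Red

/-! # Averages over the observer -/

set_option autoImplicit false

namespace Pool.Agent.K4H58.KL

open Filter Topology MeasureTheory Set
open SG (ord NZ)
open SP (RHs)
open Pool.Agent.R320.KL
open Pool.Agent.Y743.CL (lm log_nat bigT)

noncomputable section

lemma sc_meas (T : ℝ) (n : ℕ) : Measurable fun t => sc T t n := by
  unfold sc
  fun_prop

lemma int_sc {T : ℝ} (hT : 1 < T) (n : ℕ) (g : ℝ → ℝ) :
    ∫ t, g (sc T t n) = 2 * Real.pi / Real.log T * ∫ s, g s := by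
  have hL := Real.log_pos hT
  have hpi := Real.pi_pos
  have hk : 0 < Real.log T / (2 * Real.pi) := by positivity
  unfold sc
  rw [integral_sub_left_eq_self (fun x => g (x * (Real.log T / (2 * Real.pi)))) volume (ord n),
    Measure.integral_comp_mul_right, smul_eq_mul, abs_of_pos (inv_pos.2 hk), inv_div]

lemma integrable_sc {T : ℝ} (hT : 1 < T) (n : ℕ) {g : ℝ → ℝ} (hg : Integrable g) :
    Integrable fun t => g (sc T t n) := by
  have hL := Real.log_pos hT
  have hpi := Real.pi_pos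
  have hk : 0 < Real.log T / (2 * Real.pi) := by positivity
  unfold sc
  exact (hg.comp_mul_right' hk.ne').comp_sub_left (ord n)

lemma ind_integrable {U : Set ℝ} (hU : MeasurableSet U) (hf : volume U ≠ ⊤) :
    Integrable (U.indicator (1 : ℝ → ℝ)) := by
  rw [integrable_indicator_iff hU]
  exact integrableOn_const hf

lemma Win_card (L : ℕ) (T t : ℝ) : ((Win L T t).card : ℝ) =
    ∑ n ∈ Finset.Icc 1 (NZ T), (Ico (-(L : ℝ)) (L + 1)).indicator (1 : ℝ → ℝ) (sc T t n) := by
  classical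
  unfold Win
  rw [Finset.card_filter]
  push_cast
  refine Finset.sum_congr rfl fun n _ => ?_
  by_cases h : sc T t n ∈ Ico (-(L : ℝ)) (L + 1)
  · rw [indicator_of_mem h, if_pos h]
    simp
  · rw [indicator_of_notMem h, if_neg h]

lemma ind_meas {U : Set ℝ} (hU : MeasurableSet U) (T : ℝ) (n : ℕ) :
    Measurable fun t => U.indicator (1 : ℝ → ℝ) (sc T t n) :=
  (measurable_one.indicator hU).comp (sc_meas T n)

lemma Win_meas (L : ℕ) (T : ℝ) : Measurable fun t => ((Win L T t).card : ℝ) := by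
  simp_rw [Win_card]
  exact Finset.measurable_fun_sum _ fun n _ => ind_meas measurableSet_Ico T n

lemma Win_integrable {T : ℝ} (hT : 1 < T) (L : ℕ) : Integrable fun t => ((Win L T t).card : ℝ) := by
  simp_rw [Win_card]
  refine integrable_finsetSum _ fun n _ => integrable_sc hT n (ind_integrable measurableSet_Ico ?_)
  simp

lemma Win_int {T : ℝ} (hT : 1 < T) (L : ℕ) : ∫ t, ((Win L T t).card : ℝ) =
    (NZ T : ℝ) * (2 * Real.pi / Real.log T * (2 * L + 1)) := by
  simp_rw [Win_card]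
  rw [integral_finsetSum _ fun n _ => integrable_sc hT n (ind_integrable measurableSet_Ico (by simp))]
  have h1 : ∀ n ∈ Finset.Icc 1 (NZ T), ∫ t, (Ico (-(L : ℝ)) (L + 1)).indicator (1 : ℝ → ℝ) (sc T t n) =
      2 * Real.pi / Real.log T * (2 * L + 1) := by
    intro n _
    rw [int_sc hT, integral_indicator_one measurableSet_Ico, Real.volume_real_Ico_of_le (by
      have : (0 : ℝ) ≤ L := Nat.cast_nonneg _
      linarith)]
    ring
  rw [Finset.sum_congr rfl h1, Finset.sum_const, Nat.card_Icc, nsmul_eq_mul]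
  simp

/-- powers of the number of zeros in the window -/
lemma Win_pow (L p : ℕ) (T t : ℝ) : ((Win L T t).card : ℝ) ^ (p + 1) ≤
    ∑ n ∈ Finset.Icc 1 (NZ T), (Ico (-(L : ℝ)) (L + 1)).indicator (1 : ℝ → ℝ) (sc T t n) *
      (1 + ((Cs T (-(2 * L + 1)) (2 * L + 1) n).card : ℝ)) ^ p := by
  classical
  obtain ⟨w, hw⟩ : ∃ w : ℝ, w = ((Win L T t).card : ℝ) := ⟨_, rfl⟩
  have hw2 := hw.trans (Win_card L T t)
  have hw0 : 0 ≤ w := by rw [hw]; exact Nat.cast_nonneg _
  rw [← hw]
  have e : w ^ (p + 1) = (∑ n ∈ Finset.Icc 1 (NZ T),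
      (Ico (-(L : ℝ)) (L + 1)).indicator (1 : ℝ → ℝ) (sc T t n)) * w ^ p := by
    rw [← hw2, pow_succ, mul_comm]
  rw [e, Finset.sum_mul]
  refine Finset.sum_le_sum fun n hn => ?_
  by_cases h : sc T t n ∈ Ico (-(L : ℝ)) (L + 1)
  · rw [indicator_of_mem h]
    simp only [Pi.one_apply, one_mul]
    refine pow_le_pow_left₀ hw0 ?_ p
    rw [hw]
    have h1 : Win L T t ⊆ insert n (Cs T (-(2 * L + 1)) (2 * L + 1) n) := by
      intro l hl
      rw [mem_Win] at hl
      by_cases hln : l = n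
      · rw [hln]; exact Finset.mem_insert_self _ _
      · refine Finset.mem_insert_of_mem ?_
        unfold Cs
        rw [Finset.mem_filter]
        refine ⟨hl.1, hln, ?_⟩
        rw [← sc_sub T t]
        constructor
        · linarith [hl.2.1, h.2]
        · linarith [hl.2.2, h.1]
    have h2 := (Finset.card_le_card h1).trans (Finset.card_insert_le _ _)
    have h3 : ((Win L T t).card : ℝ) ≤ (Cs T (-(2 * L + 1)) (2 * L + 1) n).card + 1 := by exact_mod_cast h2
    linarith
  · rw [indicator_of_notMem h]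
    simp

lemma Win_pow_integrable {T : ℝ} (hT : 1 < T) (L p : ℕ) :
    Integrable fun t => ((Win L T t).card : ℝ) ^ (p + 1) := by
  refine Integrable.mono' (g := fun t => ∑ n ∈ Finset.Icc 1 (NZ T),
    (Ico (-(L : ℝ)) (L + 1)).indicator (1 : ℝ → ℝ) (sc T t n) *
      (1 + ((Cs T (-(2 * L + 1)) (2 * L + 1) n).card : ℝ)) ^ p) ?_ ?_ ?_
  · exact integrable_finsetSum _ fun n _ => (integrable_sc hT n
      (ind_integrable measurableSet_Ico (by simp))).mul_const _
  · exact ((Win_meas L T).pow_const _).aestronglyMeasurable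
  · refine Eventually.of_forall fun t => ?_
    rw [Real.norm_of_nonneg (by positivity)]
    exact Win_pow L p T t

/-- **moments of the number of zeros in the window (RH)** -/
theorem momW (hRH : RHs) (L p : ℕ) : ∃ C : ℝ, 0 < C ∧ ∀ᶠ T : ℝ in atTop,
    ∫ t, ((Win L T t).card : ℝ) ^ (p + 1) ≤ C * T := by
  obtain ⟨C, hC, h1⟩ := momV hRH p (2 * L + 1) 1 (by positivity) le_rfl
  obtain ⟨T0, hT0, h0⟩ := NZ_le
  obtain ⟨M, hM⟩ := h1.exists
  have hpi := Real.pi_pos
  refine ⟨2 * Real.pi * (2 * L + 1) * (2 ^ p * (1 + C)), by positivity, ?_⟩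
  have h2 : ∀ᶠ T : ℝ in atTop, ((2 * M : ℕ) : ℝ) * Real.log (2 * M : ℕ) ≤ 1 * Real.log T := by
    simp only [one_mul]
    exact Real.tendsto_log_atTop.eventually_ge_atTop _
  filter_upwards [h2, eventually_gt_atTop 1, eventually_ge_atTop T0] with T k1 k2 k3
  have hL := Real.log_pos k2
  have a1 := hM T k2.le k1
  have a2 := h0 T k3
  obtain ⟨V, hV⟩ : ∃ V : ℕ → ℝ, V = fun n => ((Cs T (-(2 * L + 1)) (2 * L + 1) n).card : ℝ) := ⟨_, rfl⟩
  have hV0 : ∀ n, 0 ≤ V n := fun n => by rw [hV]; exact Nat.cast_nonneg _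
  have hp : ∀ n, (1 + V n) ^ p ≤ 2 ^ p * (1 + V n ^ p) := by
    intro n
    have h3 : 1 + V n ≤ 2 * max 1 (V n) := by
      have := le_max_left 1 (V n)
      have := le_max_right 1 (V n)
      linarith
    have h4 : (max 1 (V n)) ^ p ≤ 1 + V n ^ p := by
      rcases le_total (V n) 1 with h | h
      · rw [max_eq_left h, one_pow]
        have := pow_nonneg (hV0 n) p
        linarith
      · rw [max_eq_right h]
        linarith
    calc (1 + V n) ^ p ≤ (2 * max 1 (V n)) ^ p := pow_le_pow_left₀ (by linarith [hV0 n]) h3 p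
      _ = 2 ^ p * (max 1 (V n)) ^ p := mul_pow _ _ _
      _ ≤ _ := by gcongr
  calc ∫ t, ((Win L T t).card : ℝ) ^ (p + 1) ≤ ∫ t, ∑ n ∈ Finset.Icc 1 (NZ T),
        (Ico (-(L : ℝ)) (L + 1)).indicator (1 : ℝ → ℝ) (sc T t n) * (1 + V n) ^ p := by
        refine integral_mono (Win_pow_integrable k2 L p) ?_ fun t => ?_
        · exact integrable_finsetSum _ fun n _ => (integrable_sc k2 n
            (ind_integrable measurableSet_Ico (by simp))).mul_const _
        · rw [hV]
          exact Win_pow L p T t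
    _ = ∑ n ∈ Finset.Icc 1 (NZ T), 2 * Real.pi / Real.log T * (2 * L + 1) * (1 + V n) ^ p := by
        rw [integral_finsetSum _ fun n _ => (integrable_sc k2 n
            (ind_integrable measurableSet_Ico (by simp))).mul_const _]
        refine Finset.sum_congr rfl fun n _ => ?_
        rw [integral_mul_const, int_sc k2, integral_indicator_one measurableSet_Ico,
          Real.volume_real_Ico_of_le (by
            have : (0 : ℝ) ≤ L := Nat.cast_nonneg _
            linarith)]
        ring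
    _ ≤ ∑ n ∈ Finset.Icc 1 (NZ T), 2 * Real.pi / Real.log T * (2 * L + 1) * (2 ^ p * (1 + V n ^ p)) := by
        refine Finset.sum_le_sum fun n _ => ?_
        have := hp n
        gcongr
    _ = 2 * Real.pi / Real.log T * (2 * L + 1) * 2 ^ p * ((NZ T : ℝ) + ∑ n ∈ Finset.Icc 1 (NZ T), V n ^ p) := by
        rw [← Finset.mul_sum, ← Finset.mul_sum, Finset.sum_add_distrib, Finset.sum_const, Nat.card_Icc,
          nsmul_eq_mul]
        simp only [Nat.add_sub_cancel, mul_one]
        ring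
    _ ≤ 2 * Real.pi / Real.log T * (2 * L + 1) * 2 ^ p * (T * Real.log T + C * (T * Real.log T)) := by
        have a3 : ∑ n ∈ Finset.Icc 1 (NZ T), V n ^ p ≤ C * (T * Real.log T) := by rw [hV]; exact a1
        gcongr
    _ = 2 * Real.pi * (2 * L + 1) * (2 ^ p * (1 + C)) * T := by
        field_simp

/-- the void probability -/
def VT (U : Set ℝ) (T : ℝ) : ℝ := (∫ t in Icc 0 T, vd T U t) / T

lemma vd_meas (T : ℝ) {U : Set ℝ} (hU : MeasurableSet U) : Measurable (vd T U) := by
  have : vd T U = fun t => ∏ n ∈ Finset.Icc 1 (NZ T), (1 - U.indicator (1 : ℝ → ℝ) (sc T t n)) := rfl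
  rw [this]
  exact Finset.measurable_fun_prod _ fun n _ => measurable_const.sub (ind_meas hU T n)

lemma on_bdd {f : ℝ → ℝ} (hf : Measurable f) {C : ℝ} (h : ∀ t, |f t| ≤ C) (a b : ℝ) :
    IntegrableOn f (Icc a b) :=
  Measure.integrableOn_of_bounded (M := C) isCompact_Icc.measure_lt_top.ne hf.aestronglyMeasurable
    (Eventually.of_forall fun t => by rw [Real.norm_eq_abs]; exact h t)

lemma vd_on (T : ℝ) {U : Set ℝ} (hU : MeasurableSet U) (a b : ℝ) : IntegrableOn (vd T U) (Icc a b) :=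
  on_bdd (vd_meas T hU) (C := 1) (fun t => by
    rw [abs_of_nonneg (vd_nonneg T U t)]
    exact vd_le T U t) a b

lemma one_sub_on (T : ℝ) {U : Set ℝ} (hU : MeasurableSet U) (a b : ℝ) :
    IntegrableOn (fun t => 1 - vd T U t) (Icc a b) :=
  (continuous_const.continuousOn.integrableOn_compact isCompact_Icc).sub (vd_on T hU a b)

lemma vd_US {k : ℕ} (q : ℕ) (J : Fin k → ℤ) (S : Finset (Fin k)) (T t : ℝ) :
    ∏ i ∈ S, vd T (cell q (J i)) t = vd T (US q J S) t := by
  classical
  rw [vd_eq]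
  split_ifs with h
  · obtain ⟨n, hn, h1⟩ := h
    unfold US at h1
    rw [mem_iUnion₂] at h1
    obtain ⟨i, hi, h2⟩ := h1
    exact Finset.prod_eq_zero hi (vd_zero hn h2)
  · push Not at h
    refine Finset.prod_eq_one fun i hi => vd_one fun n hn h1 => h n hn ?_
    unfold US
    rw [mem_iUnion₂]
    exact ⟨i, hi, h1⟩

lemma prod_expand {k : ℕ} (q : ℕ) (J : Fin k → ℤ) (T t : ℝ) :
    ∏ i, (1 - vd T (cell q (J i)) t) = ∑ S : Finset (Fin k), (-1 : ℝ) ^ S.card * vd T (US q J S) t := by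
  classical
  have h1 : ∏ i, (1 - vd T (cell q (J i)) t) = ∏ i, (-vd T (cell q (J i)) t + 1) := by
    refine Finset.prod_congr rfl fun i _ => by ring
  rw [h1, Finset.prod_add, Finset.powerset_univ]
  refine Finset.sum_congr rfl fun S _ => ?_
  rw [Finset.prod_const_one, mul_one, Finset.prod_neg, vd_US]

lemma prod_meas {k : ℕ} (q : ℕ) (J : Fin k → ℤ) (T : ℝ) :
    Measurable fun t => ∏ i, (1 - vd T (cell q (J i)) t) :=
  Finset.measurable_fun_prod _ fun i _ => measurable_const.sub (vd_meas T (cell_meas q _))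

lemma prod_on {k : ℕ} (q : ℕ) (J : Fin k → ℤ) (T : ℝ) (a b : ℝ) :
    IntegrableOn (fun t => ∏ i, (1 - vd T (cell q (J i)) t)) (Icc a b) := by
  refine on_bdd (prod_meas q J T) (C := 1) (fun t => ?_) a b
  rw [Finset.abs_prod]
  refine Finset.prod_le_one (fun i _ => abs_nonneg _) fun i _ => ?_
  rw [abs_of_nonneg (by linarith [vd_le T (cell q (J i)) t])]
  linarith [vd_nonneg T (cell q (J i)) t]

lemma avg_prod {k : ℕ} (q : ℕ) (J : Fin k → ℤ) (T : ℝ) :
    (∫ t in Icc 0 T, ∏ i, (1 - vd T (cell q (J i)) t)) / T =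
      ∑ S : Finset (Fin k), (-1 : ℝ) ^ S.card * VT (US q J S) T := by
  simp_rw [prod_expand]
  rw [integral_finsetSum _ fun S _ => (vd_on T (US_meas q J S) 0 T).const_mul _, Finset.sum_div]
  refine Finset.sum_congr rfl fun S _ => ?_
  rw [integral_const_mul]
  unfold VT
  ring

/-- the average of the observed count is the count -/
lemma Ft_int {m : ℕ} {T : ℝ} (hT : 1 < T) (hc : 2 * Real.pi / Real.log T ≤ ord 1) (x y : Fin m → ℝ) :
    ∫ t in Icc 0 T, Ft T x y t = 2 * Real.pi / Real.log T * (Nk T x y : ℝ) := by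
  have hL := Real.log_pos hT
  have hpi := Real.pi_pos
  rw [setIntegral_eq_integral_of_forall_compl_eq_zero]
  · unfold Ft
    rw [integral_finsetSum _ fun n _ => (integrable_sc hT n
      (ind_integrable measurableSet_Ico (by simp))).mul_const _, Nk_fib]
    push_cast
    rw [Finset.mul_sum]
    refine Finset.sum_congr rfl fun n _ => ?_
    rw [integral_mul_const, int_sc hT, integral_indicator_one measurableSet_Ico,
      Real.volume_real_Ico_of_le (by norm_num)]
    ring
  · intro t ht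
    unfold Ft
    refine Finset.sum_eq_zero fun n hn => ?_
    rw [Finset.mem_Icc] at hn
    rw [indicator_of_notMem, zero_mul]
    rintro ⟨h1, h2⟩
    apply ht
    have h3 := (SG.ord_le_iff hn.1 T).2 hn.2
    have h4 := SG.ord_mono le_rfl hn.1
    unfold sc at h1 h2
    have hk : 0 < Real.log T / (2 * Real.pi) := by positivity
    constructor
    · by_contra hcon
      push Not at hcon
      have h5 : 2 * Real.pi / Real.log T * (Real.log T / (2 * Real.pi)) = 1 := by field_simp
      have h6 : 2 * Real.pi / Real.log T * (Real.log T / (2 * Real.pi)) ≤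
          (ord n - t) * (Real.log T / (2 * Real.pi)) := by
        apply mul_le_mul_of_nonneg_right _ hk.le
        linarith
      linarith
    · by_contra hcon
      push Not at hcon
      have h5 : (ord n - t) * (Real.log T / (2 * Real.pi)) < 0 := mul_neg_of_neg_of_pos (by linarith) hk
      linarith

lemma Ft_meas {m : ℕ} (T : ℝ) (x y : Fin m → ℝ) : Measurable (Ft T x y) := by
  unfold Ft
  exact Finset.measurable_fun_sum _ fun n _ => (ind_meas measurableSet_Ico T n).mul_const _

lemma Ft_integrable {m : ℕ} {T : ℝ} (hT : 1 < T) (x y : Fin m → ℝ) : Integrable (Ft T x y) := by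
  unfold Ft
  exact integrable_finsetSum _ fun n _ => (integrable_sc hT n
      (ind_integrable measurableSet_Ico (by simp))).mul_const _

/-- the lower bound for the count -/
lemma lowerT {m : ℕ} {T : ℝ} (hT : 1 < T) (hc : 2 * Real.pi / Real.log T ≤ ord 1) {x y : Fin m → ℝ}
    {q : ℕ} (hq : 0 < q) {L : ℕ} (hx : ∀ i, -(L : ℝ) ≤ x i) (hy : ∀ i, y i ≤ L)
    (R : Finset (Fin (m + 1) → ℤ)) (hR : ∀ J ∈ R, ∀ i, J i ∈ Cw q L)
    (hinj : ∀ J ∈ R, Function.Injective J) (h0 : ∀ J ∈ R, 0 ≤ J 0 ∧ J 0 < q)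
    (hxy : ∀ J ∈ R, ∀ i : Fin m, x i ≤ ((J i.succ : ℝ) - J 0 - 1) / q ∧ ((J i.succ : ℝ) - J 0 + 1) / q ≤ y i) :
    ∑ J ∈ R, ∑ S : Finset (Fin (m + 1)), (-1 : ℝ) ^ S.card * VT (US q J S) T ≤
      (Nk T x y : ℝ) / (T / (2 * Real.pi) * Real.log T) := by
  have hL := Real.log_pos hT
  have hpi := Real.pi_pos
  have hT0 : 0 < T := by linarith
  have h1 : (Nk T x y : ℝ) / (T / (2 * Real.pi) * Real.log T) = (∫ t in Icc 0 T, Ft T x y t) / T := by
    rw [Ft_int hT hc]
    field_simp
  rw [h1, Finset.sum_congr rfl fun J _ => (avg_prod q J T).symm, ← Finset.sum_div,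
    ← integral_finsetSum _ fun J _ => prod_on q J T 0 T]
  refine div_le_div_of_nonneg_right (integral_mono (integrable_finsetSum _ fun J _ => prod_on q J T 0 T)
    (Ft_integrable hT x y).integrableOn fun t => ?_) hT0.le
  show _ ≤ Ft T x y t
  rw [Ft_eq hx hy]
  exact lower hq R hR hinj h0 hxy

lemma int_comb {μ : Measure ℝ} {P W X Q : ℝ → ℝ} (hP : Integrable P μ) (hW : Integrable W μ)
    (hX : Integrable X μ) (hQ : Integrable Q μ) (a K : ℝ) :
    Integrable (fun t => P t + a * (K * (W t - X t) + Q t / K)) μ ∧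
    ∫ t, (P t + a * (K * (W t - X t) + Q t / K)) ∂μ =
      ∫ t, P t ∂μ + a * (K * (∫ t, W t ∂μ - ∫ t, X t ∂μ) + (∫ t, Q t ∂μ) / K) := by
  have h1 : Integrable (fun t => W t - X t) μ := hW.sub hX
  have h2 : Integrable (fun t => K * (W t - X t)) μ := h1.const_mul K
  have h3 : Integrable (fun t => Q t / K) μ := hQ.div_const K
  have h4 : Integrable (fun t => K * (W t - X t) + Q t / K) μ := h2.add h3
  have h5 : Integrable (fun t => a * (K * (W t - X t) + Q t / K)) μ := h4.const_mul a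
  refine ⟨hP.add h5, ?_⟩
  rw [integral_add hP h5, integral_const_mul, integral_add h2 h3, integral_const_mul, integral_sub hW hX,
    integral_div]

/-- the upper bound for the count -/
lemma upperT {m : ℕ} {T : ℝ} (hT : 1 < T) (hc : 2 * Real.pi / Real.log T ≤ ord 1) {x y : Fin m → ℝ}
    {q : ℕ} (hq : 0 < q) {L : ℕ} (hx : ∀ i, -(L : ℝ) ≤ x i) (hy : ∀ i, y i ≤ L)
    (R : Finset (Fin (m + 1) → ℤ)) (hR : ∀ J ∈ R, ∀ i, J i ∈ Cw q L)
    (hall : ∀ J : Fin (m + 1) → ℤ, (∀ i, J i ∈ Cw q L) → Function.Injective J → 0 ≤ J 0 → J 0 < q →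
      (∀ i : Fin m, x i ≤ ((J i.succ : ℝ) - J 0 + 1) / q ∧ ((J i.succ : ℝ) - J 0 - 1) / q ≤ y i) → J ∈ R)
    {K : ℝ} (hK : 0 < K) :
    (Nk T x y : ℝ) / (T / (2 * Real.pi) * Real.log T) ≤
      ∑ J ∈ R, (∑ S : Finset (Fin (m + 1)), (-1 : ℝ) ^ S.card * VT (US q J S) T) +
      (m + 1) * (K * ((2 * L + 1) * ((NZ T : ℝ) / (T / (2 * Real.pi) * Real.log T)) -
        ∑ j ∈ Cw q L, (1 - VT (cell q j) T)) +
        (∫ t, ((Win L T t).card : ℝ) ^ (2 * m + 1)) / T / K) := by
  have hL := Real.log_pos hT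
  have hpi := Real.pi_pos
  have hT0 : 0 < T := by linarith
  have h1 : (Nk T x y : ℝ) / (T / (2 * Real.pi) * Real.log T) = (∫ t in Icc 0 T, Ft T x y t) / T := by
    rw [Ft_int hT hc]
    field_simp
  have hWo : IntegrableOn (fun t => ((Win L T t).card : ℝ)) (Icc 0 T) := (Win_integrable hT L).integrableOn
  have hWp : Integrable (fun t => ((Win L T t).card : ℝ) ^ (2 * m + 1)) := Win_pow_integrable hT L (2 * m)
  have hXo : IntegrableOn (fun t => ∑ j ∈ Cw q L, (1 - vd T (cell q j) t)) (Icc 0 T) := by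
    exact integrable_finsetSum _ fun j _ => one_sub_on T (cell_meas q j) 0 T
  have h2 : ∀ t, Ft T x y t ≤ ∑ J ∈ R, ∏ i, (1 - vd T (cell q (J i)) t) +
      (m + 1) * (K * (((Win L T t).card : ℝ) - ∑ j ∈ Cw q L, (1 - vd T (cell q j) t)) +
        ((Win L T t).card : ℝ) ^ (2 * m + 1) / K) := by
    intro t
    rw [Ft_eq hx hy]
    refine (upper hq R hR hall).trans ?_
    rw [← NR_card hq, mul_assoc]
    have h3 : ((NR q L T t).card : ℝ) * ((Win L T t).card : ℝ) ^ m ≤ K * ((NR q L T t).card : ℝ) +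
        ((Win L T t).card : ℝ) ^ (2 * m + 1) / K := by
      obtain ⟨w, hw⟩ : ∃ w : ℝ, w = ((Win L T t).card : ℝ) := ⟨_, rfl⟩
      obtain ⟨z, hz⟩ : ∃ z : ℝ, z = ((NR q L T t).card : ℝ) := ⟨_, rfl⟩
      have hzw : z ≤ w := by
        rw [hz, hw]
        exact_mod_cast Finset.card_le_card (Finset.sdiff_subset)
      have hz0 : 0 ≤ z := by rw [hz]; exact Nat.cast_nonneg _
      have hw0 : 0 ≤ w := hz0.trans hzw
      rw [← hw, ← hz]
      rcases le_total (w ^ m) K with h | h
      · have h4 : z * w ^ m ≤ z * K := by gcongr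
        have h5 : 0 ≤ w ^ (2 * m + 1) / K := by positivity
        linarith
      · have h4 : z * w ^ m ≤ w ^ (2 * m + 1) / K := by
          rw [le_div_iff₀ hK]
          calc z * w ^ m * K ≤ w * w ^ m * w ^ m := by gcongr
            _ = w ^ (2 * m + 1) := by ring
        have h5 : 0 ≤ K * z := by positivity
        linarith
    gcongr
  rw [h1]
  have hPo : IntegrableOn (fun t => ∑ J ∈ R, ∏ i, (1 - vd T (cell q (J i)) t)) (Icc 0 T) :=
    integrable_finsetSum _ fun J _ => prod_on q J T 0 T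
  obtain ⟨c1, c2⟩ := int_comb (μ := volume.restrict (Icc 0 T)) hPo hWo hXo hWp.integrableOn ((m : ℝ) + 1) K
  calc (∫ t in Icc 0 T, Ft T x y t) / T ≤ (∫ t in Icc 0 T, (∑ J ∈ R, ∏ i, (1 - vd T (cell q (J i)) t) +
      (m + 1) * (K * (((Win L T t).card : ℝ) - ∑ j ∈ Cw q L, (1 - vd T (cell q j) t)) +
        ((Win L T t).card : ℝ) ^ (2 * m + 1) / K))) / T :=
        div_le_div_of_nonneg_right (integral_mono (Ft_integrable hT x y).integrableOn c1
          fun t => h2 t) hT0.le
    _ = ∑ J ∈ R, (∑ S : Finset (Fin (m + 1)), (-1 : ℝ) ^ S.card * VT (US q J S) T) +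
      (m + 1) * (K * ((∫ t in Icc 0 T, ((Win L T t).card : ℝ)) / T -
        ∑ j ∈ Cw q L, (1 - VT (cell q j) T)) +
        (∫ t in Icc 0 T, ((Win L T t).card : ℝ) ^ (2 * m + 1)) / T / K) := by
        rw [c2, Finset.sum_congr rfl fun J _ => (avg_prod q J T).symm, ← Finset.sum_div,
          ← integral_finsetSum _ fun J _ => prod_on q J T 0 T]
        have h6 : ∫ t in Icc 0 T, ∑ j ∈ Cw q L, (1 - vd T (cell q j) t) =
            (∑ j ∈ Cw q L, (1 - VT (cell q j) T)) * T := by
          rw [integral_finsetSum _ fun j _ => one_sub_on T (cell_meas q j) 0 T, Finset.sum_mul]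
          refine Finset.sum_congr rfl fun j _ => ?_
          rw [integral_sub (continuous_const.continuousOn.integrableOn_compact isCompact_Icc)
            (vd_on T (cell_meas q j) 0 T)]
          unfold VT
          rw [setIntegral_const, Real.volume_real_Icc_of_le hT0.le, smul_eq_mul]
          field_simp
          ring
        rw [h6]
        field_simp
    _ ≤ _ := by
        have h7 : (∫ t in Icc 0 T, ((Win L T t).card : ℝ)) / T ≤
            (2 * L + 1) * ((NZ T : ℝ) / (T / (2 * Real.pi) * Real.log T)) := by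
          have h8 : ∫ t in Icc 0 T, ((Win L T t).card : ℝ) ≤ ∫ t, ((Win L T t).card : ℝ) :=
            setIntegral_le_integral (Win_integrable hT L) (Eventually.of_forall fun t => Nat.cast_nonneg _)
          rw [Win_int hT] at h8
          rw [div_le_iff₀ hT0]
          refine h8.trans (le_of_eq ?_)
          field_simp
        have h9 : ∫ t in Icc 0 T, ((Win L T t).card : ℝ) ^ (2 * m + 1) ≤
            ∫ t, ((Win L T t).card : ℝ) ^ (2 * m + 1) :=
          setIntegral_le_integral hWp (Eventually.of_forall fun t => by positivity)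
        gcongr

end

end Pool.Agent.K4H58.KL
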