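import Pool.Agent.R320.KL.Nk

/-! # k-level counts fibred over the base zero -/

set_option autoImplicit false

namespace Pool.Agent.K4H58.KL

open Filter Topology MeasureTheory Set
open SG (ord NZ)
open SP (RHs)
open Pool.Agent.R320.KL

noncomputable section

/-- the tuples with base zero `n` -/
def Fb {ι : Type} [Fintype ι] [DecidableEq ι] (T : ℝ) (x y : ι → ℝ) (n : ℕ) : Finset (ι → ℕ) :=
  (Fintype.piFinset fun i => Cs T (x i) (y i) n).filter Function.Injective

lemma mem_Fb {ι : Type} [Fintype ι] [DecidableEq ι] {T : ℝ} {x y : ι → ℝ} {n : ℕ} {l : ι → ℕ} :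
    l ∈ Fb T x y n ↔ (∀ i, l i ∈ Cs T (x i) (y i) n) ∧ Function.Injective l := by
  unfold Fb
  rw [Finset.mem_filter, Fintype.mem_piFinset]

lemma Nk_fib {ι : Type} [Fintype ι] [DecidableEq ι] (T : ℝ) (x y : ι → ℝ) :
    Nk T x y = ∑ n ∈ Finset.Icc 1 (NZ T), (Fb T x y n).card := by
  classical
  obtain ⟨Φ, hΦ⟩ : ∃ Φ : Finset (Σ _ : ℕ, (ι → ℕ)), Φ = (Finset.Icc 1 (NZ T)).sigma
    (fun n => Fb T x y n) := ⟨_, rfl⟩
  obtain ⟨g, hg⟩ : ∃ g : (Σ _ : ℕ, (ι → ℕ)) → (Option ι → ℕ), g = fun z o => o.elim z.1 z.2 := ⟨_, rfl⟩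
  have hginj : Function.Injective g := by
    rintro ⟨n, l⟩ ⟨n', l'⟩ h
    rw [hg] at h
    have h1 : n = n' := congrFun h none
    have h2 : l = l' := funext fun i => congrFun h (some i)
    subst h1 h2
    rfl
  have hset : {j : Option ι → ℕ | Function.Injective j ∧ (∀ i, 1 ≤ j i ∧ ord (j i) ≤ T) ∧
      ∀ i : ι, (ord (j (some i)) - ord (j none)) * (Real.log T / (2 * Real.pi)) ∈ Icc (x i) (y i)} =
      ((Φ.image g : Finset (Option ι → ℕ)) : Set (Option ι → ℕ)) := by
    ext j
    simp only [mem_setOf_eq, Finset.coe_image, mem_image, Finset.mem_coe]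
    constructor
    · rintro ⟨h1, h2, h3⟩
      refine ⟨⟨j none, fun i => j (some i)⟩, ?_, ?_⟩
      · rw [hΦ, Finset.mem_sigma, mem_Fb]
        refine ⟨?_, fun i => ?_, fun a b hab => by simpa using h1 hab⟩
        · rw [Finset.mem_Icc]
          exact ⟨(h2 none).1, (SG.ord_le_iff (h2 none).1 _).mp (h2 none).2⟩
        · unfold Cs
          rw [Finset.mem_filter, Finset.mem_Icc]
          refine ⟨⟨(h2 (some i)).1, (SG.ord_le_iff (h2 (some i)).1 _).mp (h2 (some i)).2⟩, ?_, h3 i⟩
          intro h4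
          have := h1 h4
          simp at this
      · rw [hg]
        funext o
        cases o <;> rfl
    · rintro ⟨⟨n, l⟩, h1, rfl⟩
      rw [hΦ, Finset.mem_sigma, mem_Fb] at h1
      obtain ⟨h2, h3, h4⟩ := h1
      rw [Finset.mem_Icc] at h2
      have h5 : ∀ i, (1 ≤ l i ∧ l i ≤ NZ T) ∧ l i ≠ n ∧
          (ord (l i) - ord n) * (Real.log T / (2 * Real.pi)) ∈ Icc (x i) (y i) := by
        intro i
        have := h3 i
        unfold Cs at this
        rw [Finset.mem_filter, Finset.mem_Icc] at this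
        exact this
      rw [hg]
      refine ⟨?_, ?_, ?_⟩
      · rintro (_ | a) (_ | b) hab
        · rfl
        · exact absurd hab.symm (h5 b).2.1
        · exact absurd hab (h5 a).2.1
        · exact congrArg some (h4 hab)
      · rintro (_ | a)
        · exact ⟨h2.1, (SG.ord_le_iff h2.1 _).mpr h2.2⟩
        · exact ⟨(h5 a).1.1, (SG.ord_le_iff (h5 a).1.1 _).mpr (h5 a).1.2⟩
      · exact fun i => (h5 i).2.2
  unfold Nk
  rw [hset, Set.ncard_coe_finset, Finset.card_image_of_injective _ hginj, hΦ, Finset.card_sigma]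

/-- number of the tuples with one side more -/
lemma Fb_cons {m : ℕ} (T a b : ℝ) (x y : Fin m → ℝ) (n : ℕ) :
    (Fb T (Fin.cons a x : Fin (m + 1) → ℝ) (Fin.cons b y) n).card =
      ∑ l ∈ Fb T x y n, (Cs T a b n \ Finset.univ.image l).card := by
  classical
  rw [← Finset.card_sigma]
  refine Finset.card_bij' (i := fun l _ => ⟨Fin.tail l, l 0⟩) (j := fun z _ => Fin.cons z.2 z.1)
    ?_ ?_ ?_ ?_
  · intro l hl
    rw [mem_Fb] at hl
    obtain ⟨h1, h2⟩ := hl
    simp only [Finset.mem_sigma, Finset.mem_sdiff, Finset.mem_image, Finset.mem_univ, true_and, mem_Fb]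
    refine ⟨⟨fun i => ?_, ?_⟩, ?_, ?_⟩
    · have := h1 i.succ
      rw [Fin.cons_succ, Fin.cons_succ] at this
      exact this
    · intro i j hij
      have := h2 hij
      simpa using this
    · have := h1 0
      rw [Fin.cons_zero, Fin.cons_zero] at this
      exact this
    · rintro ⟨i, hi⟩
      have := h2 hi
      simp at this
  · rintro ⟨l, l0⟩ hz
    simp only [Finset.mem_sigma, Finset.mem_sdiff, Finset.mem_image, Finset.mem_univ, true_and, mem_Fb] at hz
    obtain ⟨⟨h1, h2⟩, h3, h4⟩ := hz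
    rw [mem_Fb]
    refine ⟨fun i => ?_, ?_⟩
    · refine Fin.cases ?_ (fun j => ?_) i
      · simpa using h3
      · simpa using h1 j
    · rw [Fin.cons_injective_iff]
      exact ⟨fun h => h4 (by simpa using h), h2⟩
  · intro l hl
    simp
  · rintro ⟨l, l0⟩ hz
    simp

lemma Cs_mono {T a b a' b' : ℝ} {n : ℕ} (ha : a' ≤ a) (hb : b ≤ b') : Cs T a b n ⊆ Cs T a' b' n := by
  intro l hl
  unfold Cs at hl ⊢
  rw [Finset.mem_filter] at hl ⊢
  exact ⟨hl.1, hl.2.1, ha.trans hl.2.2.1, hl.2.2.2.trans hb⟩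

lemma Fb_le {m : ℕ} {T R : ℝ} {x y : Fin m → ℝ} (h : ∀ i, -R ≤ x i ∧ y i ≤ R) (n : ℕ) :
    (Fb T x y n).card ≤ (Cs T (-R) R n).card ^ m := by
  classical
  unfold Fb
  refine (Finset.card_filter_le _ _).trans ?_
  rw [Fintype.card_piFinset]
  calc ∏ i : Fin m, (Cs T (x i) (y i) n).card ≤ ∏ _i : Fin m, (Cs T (-R) R n).card :=
        Finset.prod_le_prod' fun i _ => Finset.card_le_card (Cs_mono (h i).1 (h i).2)
    _ = (Cs T (-R) R n).card ^ m := by simp

lemma Fb_step {m : ℕ} (T a b : ℝ) (x y : Fin m → ℝ) (n : ℕ) :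
    |((Fb T (Fin.cons a x : Fin (m + 1) → ℝ) (Fin.cons b y) n).card : ℝ) - (b - a) * (Fb T x y n).card| ≤
      (Fb T x y n).card * (m + |DD T a b n|) := by
  classical
  rw [Fb_cons]
  have h1 : ∀ l ∈ Fb T x y n, |((Cs T a b n \ Finset.univ.image l).card : ℝ) - (b - a)| ≤ m + |DD T a b n| := by
    intro l _
    have h2 : (Cs T a b n).card ≤ (Cs T a b n \ Finset.univ.image l).card + m := by
      have h3 := Finset.card_le_card_sdiff_add_card (s := Cs T a b n) (t := Finset.univ.image l)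
      have h4 : (Finset.univ.image l).card ≤ m := by
        refine Finset.card_image_le.trans ?_
        simp
      omega
    have h5 : (Cs T a b n \ Finset.univ.image l).card ≤ (Cs T a b n).card :=
      Finset.card_le_card Finset.sdiff_subset
    have h6 : ((Cs T a b n).card : ℝ) ≤ (Cs T a b n \ Finset.univ.image l).card + m := by exact_mod_cast h2
    have h7 : ((Cs T a b n \ Finset.univ.image l).card : ℝ) ≤ (Cs T a b n).card := by exact_mod_cast h5
    have h8 : DD T a b n = ((Cs T a b n).card : ℝ) - (b - a) := rfl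
    have h9 := abs_le.1 (le_refl |DD T a b n|)
    rw [abs_le]
    constructor <;> linarith [h9.1, h9.2]
  push_cast
  calc |∑ l ∈ Fb T x y n, ((Cs T a b n \ Finset.univ.image l).card : ℝ) - (b - a) * (Fb T x y n).card|
      = |∑ l ∈ Fb T x y n, (((Cs T a b n \ Finset.univ.image l).card : ℝ) - (b - a))| := by
        rw [Finset.sum_sub_distrib, Finset.sum_const, nsmul_eq_mul, mul_comm (b - a)]
    _ ≤ ∑ l ∈ Fb T x y n, |((Cs T a b n \ Finset.univ.image l).card : ℝ) - (b - a)| :=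
        Finset.abs_sum_le_sum_abs _ _
    _ ≤ ∑ _l ∈ Fb T x y n, ((m : ℝ) + |DD T a b n|) := Finset.sum_le_sum h1
    _ = (Fb T x y n).card * (m + |DD T a b n|) := by rw [Finset.sum_const, nsmul_eq_mul]

end

end Pool.Agent.K4H58.KL
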