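import Pool.Agent.K4H58.KL.Det

/-! # The sine kernel determinant is between 0 and 1 -/

set_option autoImplicit false

namespace Pool.Agent.K4H58.KL

open Filter Topology MeasureTheory Set

noncomputable section

lemma sinc_int (x : ℝ) : Real.sinc (Real.pi * x) =
    ∫ ξ in (-(1 / 2) : ℝ)..(1 / 2), Real.cos (2 * Real.pi * x * ξ) := by
  rcases eq_or_ne x 0 with rfl | hx
  · simp
    norm_num
  · have hpi := Real.pi_pos
    have hc : 2 * Real.pi * x ≠ 0 := mul_ne_zero (by positivity) hx
    rw [intervalIntegral.integral_comp_mul_left (fun y => Real.cos y) hc, integral_cos,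
      Real.sinc_of_ne_zero (mul_ne_zero hpi.ne' hx)]
    have e1 : 2 * Real.pi * x * (1 / 2) = Real.pi * x := by ring
    have e2 : 2 * Real.pi * x * (-(1 / 2)) = -(Real.pi * x) := by ring
    rw [e1, e2, Real.sin_neg, smul_eq_mul]
    field_simp
    ring

lemma SM_form {k : ℕ} (p v : Fin k → ℝ) : v ⬝ᵥ (SM p).mulVec v =
    ∫ ξ in (-(1 / 2) : ℝ)..(1 / 2), ((∑ i, v i * Real.cos (2 * Real.pi * p i * ξ)) ^ 2 +
      (∑ i, v i * Real.sin (2 * Real.pi * p i * ξ)) ^ 2) := by
  have h1 : v ⬝ᵥ (SM p).mulVec v = ∑ i, ∑ j, v i * v j * Real.sinc (Real.pi * (p i - p j)) := by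
    simp only [dotProduct, Matrix.mulVec, SM, Matrix.of_apply, Finset.mul_sum]
    refine Finset.sum_congr rfl fun i _ => Finset.sum_congr rfl fun j _ => by ring
  have h2 : ∀ ξ : ℝ, (∑ i, v i * Real.cos (2 * Real.pi * p i * ξ)) ^ 2 +
      (∑ i, v i * Real.sin (2 * Real.pi * p i * ξ)) ^ 2 =
      ∑ i, ∑ j, v i * v j * Real.cos (2 * Real.pi * (p i - p j) * ξ) := by
    intro ξ
    rw [sq, sq, Finset.sum_mul_sum, Finset.sum_mul_sum, ← Finset.sum_add_distrib]
    refine Finset.sum_congr rfl fun i _ => ?_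
    rw [← Finset.sum_add_distrib]
    refine Finset.sum_congr rfl fun j _ => ?_
    have e : 2 * Real.pi * (p i - p j) * ξ = 2 * Real.pi * p i * ξ - 2 * Real.pi * p j * ξ := by ring
    rw [e, Real.cos_sub]
    ring
  rw [h1]
  simp_rw [h2, sinc_int]
  rw [intervalIntegral.integral_finsetSum]
  · refine Finset.sum_congr rfl fun i _ => ?_
    rw [intervalIntegral.integral_finsetSum]
    · refine Finset.sum_congr rfl fun j _ => ?_
      rw [intervalIntegral.integral_const_mul]
    · intro j _
      exact Continuous.intervalIntegrable (by fun_prop) _ _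
  · intro i _
    exact Continuous.intervalIntegrable (by fun_prop) _ _

lemma SM_psd {k : ℕ} (p : Fin k → ℝ) : (SM p).PosSemidef := by
  refine Matrix.PosSemidef.of_dotProduct_mulVec_nonneg ?_ fun v => ?_
  · ext i j
    simp only [Matrix.conjTranspose_apply, SM, Matrix.of_apply, star_trivial]
    rw [← Real.sinc_neg]
    congr 1
    ring
  · have h : star v = v := by
      ext i
      simp
    rw [h, SM_form]
    exact intervalIntegral.integral_nonneg (by norm_num) fun ξ _ => by positivity

lemma SD_nonneg {k : ℕ} (p : Fin k → ℝ) : 0 ≤ SD p := (SM_psd p).det_nonneg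

lemma SD_le_one {k : ℕ} (p : Fin k → ℝ) : SD p ≤ 1 := by
  have hP := SM_psd p
  have hH := hP.isHermitian
  have h1 : SD p = ∏ i, hH.eigenvalues i := by
    have := hH.det_eq_prod_eigenvalues
    unfold SD
    simpa using this
  have h2 : ∑ i, hH.eigenvalues i = k := by
    have h3 := hH.trace_eq_sum_eigenvalues
    have h4 : (SM p).trace = k := by
      simp [Matrix.trace, SM]
    rw [h4] at h3
    simpa using h3.symm
  rw [h1]
  calc ∏ i, hH.eigenvalues i ≤ ∏ i, Real.exp (hH.eigenvalues i - 1) := by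
        refine Finset.prod_le_prod (fun i _ => hP.eigenvalues_nonneg i) fun i _ => ?_
        have := Real.add_one_le_exp (hH.eigenvalues i - 1)
        linarith
    _ = 1 := by
        rw [← Real.exp_sum, Finset.sum_sub_distrib, h2]
        simp

end

end Pool.Agent.K4H58.KL
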