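import Pool.Agent.R320.KL.Cmb
import Pool.Agent.K4H58.KL.Psd

/-! # The Fredholm series and its differences -/

set_option autoImplicit false

namespace Pool.Agent.K4H58.KL

open Filter Topology MeasureTheory Set
open scoped Nat

noncomputable section

/-- the product integral -/
def MI (k : ℕ) (U : Set ℝ) : ℝ := ∫ p in Set.pi univ (fun _ : Fin k => U), SD p

/-- the Fredholm series -/
def Fr (U : Set ℝ) : ℝ := ∑' k : ℕ, (-1 : ℝ) ^ k / (k ! : ℝ) * MI k U

lemma SD_int_pi {k : ℕ} (V : Fin k → Set ℝ) (hV : ∀ i, volume (V i) ≠ ⊤) :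
    IntegrableOn (fun p : Fin k → ℝ => SD p) (Set.pi univ V) := by
  refine Measure.integrableOn_of_bounded (M := 1) ?_ (SD_cont k).aestronglyMeasurable ?_
  · rw [volume_pi_pi]
    exact ENNReal.prod_ne_top fun i _ => hV i
  · refine Eventually.of_forall fun p => ?_
    rw [Real.norm_eq_abs, abs_of_nonneg (SD_nonneg p)]
    exact SD_le_one p

lemma SD_pi_nonneg {k : ℕ} (V : Fin k → Set ℝ) : 0 ≤ ∫ p in Set.pi univ V, SD p :=
  integral_nonneg fun p => SD_nonneg p

lemma SD_pi_le {k : ℕ} (V : Fin k → Set ℝ) (hV : ∀ i, volume (V i) ≠ ⊤) :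
    ∫ p in Set.pi univ V, SD p ≤ ∏ i, volume.real (V i) := by
  have h1 : volume (Set.pi univ V) ≠ ⊤ := by
    rw [volume_pi_pi]
    exact ENNReal.prod_ne_top fun i _ => hV i
  have h2 := norm_setIntegral_le_of_norm_le_const (μ := volume) (s := Set.pi univ V)
    (f := fun p : Fin k → ℝ => SD p) (C := 1) h1.lt_top (fun p _ => by
      rw [Real.norm_eq_abs, abs_of_nonneg (SD_nonneg p)]
      exact SD_le_one p)
  rw [Real.norm_eq_abs, one_mul] at h2
  refine (le_abs_self _).trans (h2.trans (le_of_eq ?_))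
  rw [Measure.real, volume_pi_pi, ENNReal.toReal_prod]
  rfl

lemma MI_nonneg (k : ℕ) (U : Set ℝ) : 0 ≤ MI k U := SD_pi_nonneg _

lemma MI_le (k : ℕ) (U : Set ℝ) (hU : volume U ≠ ⊤) : MI k U ≤ volume.real U ^ k := by
  have := SD_pi_le (fun _ : Fin k => U) (fun _ => hU)
  simpa [MI] using this

lemma MI_zero (U : Set ℝ) : MI 0 U = 1 := by
  unfold MI
  have h1 : (Set.pi univ (fun _ : Fin 0 => U)) = univ := by
    ext p
    simp
  rw [h1]
  simp [SD, Measure.real, volume_pi]

lemma MI_one (U : Set ℝ) : MI 1 U = volume.real U := by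
  unfold MI
  have h1 : ∀ p : Fin 1 → ℝ, SD p = 1 := by
    intro p
    simp [SD, SM]
  simp_rw [h1]
  simp [Measure.real, volume_pi_pi]

lemma Fr_term_le (k : ℕ) (U : Set ℝ) (hU : volume U ≠ ⊤) :
    ‖(-1 : ℝ) ^ k / (k ! : ℝ) * MI k U‖ ≤ volume.real U ^ k / (k ! : ℝ) := by
  rw [norm_mul, norm_div, norm_pow, norm_neg, norm_one, one_pow, Real.norm_of_nonneg (MI_nonneg k U),
    Real.norm_of_nonneg (by positivity : (0 : ℝ) ≤ (k ! : ℝ))]
  calc 1 / (k ! : ℝ) * MI k U ≤ 1 / (k ! : ℝ) * volume.real U ^ k := by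
        gcongr
        exact MI_le k U hU
    _ = _ := by ring

lemma Fr_summable (U : Set ℝ) (hU : volume U ≠ ⊤) :
    Summable (fun k : ℕ => (-1 : ℝ) ^ k / (k ! : ℝ) * MI k U) :=
  Summable.of_norm_bounded (Real.summable_pow_div_factorial _) (fun k => Fr_term_le k U hU)

/-- tails of the exponential series -/
lemma exp_tail (z : ℝ) (hz : 0 ≤ z) (k : ℕ) :
    ∑' n : ℕ, z ^ (n + k) / ((n + k) ! : ℝ) ≤ z ^ k * Real.exp z := by
  have h1 : Real.exp z = ∑' n : ℕ, z ^ n / (n ! : ℝ) := by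
    rw [Real.exp_eq_exp_ℝ, NormedSpace.exp_eq_tsum_div]
  rw [h1, ← tsum_mul_left]
  have hs := Real.summable_pow_div_factorial z
  refine Summable.tsum_le_tsum (fun n => ?_) ?_ (hs.mul_left _)
  · rw [pow_add, mul_comm (z ^ n), mul_div_assoc]
    have h2 : ((n ! : ℕ) : ℝ) ≤ ((n + k) ! : ℝ) := by
      exact_mod_cast Nat.factorial_le (Nat.le_add_right n k)
    gcongr
  · exact (summable_nat_add_iff k).2 hs

/-- cells of length `1/q` -/
def cell (q : ℕ) (j : ℤ) : Set ℝ := Ico ((j : ℝ) / q) (((j : ℝ) + 1) / q)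

lemma mem_cell {q : ℕ} (hq : 0 < q) {j : ℤ} {x : ℝ} : x ∈ cell q j ↔ ⌊(q : ℝ) * x⌋ = j := by
  have hq' : (0 : ℝ) < q := by exact_mod_cast hq
  unfold cell
  rw [mem_Ico, div_le_iff₀ hq', lt_div_iff₀ hq', Int.floor_eq_iff, mul_comm x]

lemma cell_disj {q : ℕ} (hq : 0 < q) {i j : ℤ} (h : i ≠ j) : Disjoint (cell q i) (cell q j) := by
  rw [Set.disjoint_left]
  intro x h1 h2
  rw [mem_cell hq] at h1 h2
  exact h (h1.symm.trans h2)

lemma cell_vol (q : ℕ) (j : ℤ) : volume.real (cell q j) = 1 / q := by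
  unfold cell
  rw [Real.volume_real_Ico_of_le (by gcongr; linarith)]
  ring

lemma cell_fin (q : ℕ) (j : ℤ) : volume (cell q j) ≠ ⊤ := by
  unfold cell
  simp

lemma cell_meas (q : ℕ) (j : ℤ) : MeasurableSet (cell q j) := measurableSet_Ico

/-- the integral over a product of cells -/
def IC {k : ℕ} (q : ℕ) (J : Fin k → ℤ) : ℝ := ∫ p in Set.pi univ (fun i => cell q (J i)), SD p

lemma IC_nonneg {k : ℕ} (q : ℕ) (J : Fin k → ℤ) : 0 ≤ IC q J := SD_pi_nonneg _

lemma IC_le {k : ℕ} (q : ℕ) (J : Fin k → ℤ) : IC q J ≤ (1 / q : ℝ) ^ k := by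
  have := SD_pi_le (fun i : Fin k => cell q (J i)) (fun i => cell_fin q _)
  simp_rw [cell_vol] at this
  simpa [IC] using this

lemma SD_perm {k : ℕ} (p : Fin k → ℝ) (e : Equiv.Perm (Fin k)) : SD (p ∘ e) = SD p := by
  unfold SD
  have : SM (p ∘ e) = (SM p).submatrix e e := by
    ext i j
    simp [SM]
  rw [this, Matrix.det_submatrix_equiv_self]

lemma IC_perm {k : ℕ} (q : ℕ) (J : Fin k → ℤ) (e : Equiv.Perm (Fin k)) : IC q (J ∘ e) = IC q J := by
  unfold IC
  have h1 := (volume_measurePreserving_piCongrLeft (fun _ : Fin k => ℝ) e)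
  have h2 := h1.setIntegral_preimage_emb (MeasurableEquiv.measurableEmbedding _) (fun p => SD p)
    (Set.pi univ (fun i => cell q (J i)))
  rw [← h2]
  have h3 : ∀ p : Fin k → ℝ, (MeasurableEquiv.piCongrLeft (fun _ : Fin k => ℝ) e) p = p ∘ e.symm := by
    intro p
    funext i
    have := Equiv.piCongrLeft_apply_apply (P := fun _ : Fin k => ℝ) e p (e.symm i)
    rw [Equiv.apply_symm_apply] at this
    exact this
  have h4 : (MeasurableEquiv.piCongrLeft (fun _ : Fin k => ℝ) e) ⁻¹'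
      (Set.pi univ (fun i => cell q (J i))) = Set.pi univ (fun i => cell q ((J ∘ e) i)) := by
    ext p
    simp only [mem_preimage, Set.mem_pi, mem_univ, forall_true_left]
    rw [h3]
    constructor
    · intro h i
      have := h (e i)
      simpa using this
    · intro h i
      have := h (e.symm i)
      simpa using this
  rw [h4]
  refine setIntegral_congr_fun (MeasurableSet.univ_pi fun i => cell_meas q _) fun p _ => ?_
  show SD p = SD _
  rw [h3, SD_perm]

/-- union of some of the cells -/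
def US {k : ℕ} (q : ℕ) (J : Fin k → ℤ) (S : Finset (Fin k)) : Set ℝ := ⋃ i ∈ S, cell q (J i)

lemma US_meas {k : ℕ} (q : ℕ) (J : Fin k → ℤ) (S : Finset (Fin k)) : MeasurableSet (US q J S) :=
  Finset.measurableSet_biUnion _ fun i _ => cell_meas q _

lemma US_fin {k : ℕ} (q : ℕ) (J : Fin k → ℤ) (S : Finset (Fin k)) : volume (US q J S) ≠ ⊤ := by
  unfold US
  refine ((measure_biUnion_finset_le S _).trans_lt ?_).ne
  exact ENNReal.sum_lt_top.2 fun i _ => (cell_fin q _).lt_top

lemma MI_US {k : ℕ} {q : ℕ} (hq : 0 < q) {J : Fin k → ℤ} (hJ : Function.Injective J)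
    (S : Finset (Fin k)) (n : ℕ) :
    MI n (US q J S) = ∑ w ∈ Fintype.piFinset (fun _ : Fin n => S), IC q (fun l => J (w l)) := by
  classical
  unfold MI IC
  have h1 : Set.pi univ (fun _ : Fin n => US q J S) =
      ⋃ w ∈ Fintype.piFinset (fun _ : Fin n => S), Set.pi univ (fun l => cell q (J (w l))) := by
    ext p
    simp only [Set.mem_pi, mem_univ, forall_true_left, mem_iUnion, US, Fintype.mem_piFinset, exists_prop]
    constructor
    · intro h
      choose w hw using h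
      exact ⟨w, fun l => (hw l).1, fun l => (hw l).2⟩
    · rintro ⟨w, h1, h2⟩ l
      exact ⟨w l, h1 l, h2 l⟩
  rw [h1, integral_biUnion_finset]
  · exact fun w _ => MeasurableSet.univ_pi fun i => cell_meas q _
  · intro w _ w' _ hne
    rw [Function.onFun, Set.disjoint_left]
    intro p h2 h3
    apply hne
    funext l
    have h4 := h2 l (mem_univ l)
    have h5 := h3 l (mem_univ l)
    simp only at h4 h5
    rw [mem_cell hq] at h4 h5
    exact hJ (h4.symm.trans h5)
  · exact fun w _ => SD_int_pi _ fun i => cell_fin q _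

/-- the probability that the cells are occupied, by inclusion-exclusion -/
def Occ {k : ℕ} (q : ℕ) (J : Fin k → ℤ) : ℝ := ∑ S : Finset (Fin k), (-1 : ℝ) ^ S.card * Fr (US q J S)

theorem Occ_near {k : ℕ} {q : ℕ} (hq : 0 < q) {J : Fin k → ℤ} (hJ : Function.Injective J) :
    |Occ q J - IC q J| ≤ ((k : ℝ) / q) ^ (k + 1) * Real.exp ((k : ℝ) / q) := by
  classical
  obtain ⟨A, hA⟩ : ∃ A : ℕ → ℝ, A = fun n => ∑ w : Fin n → Fin k,
    if Function.Surjective w then IC q (fun l => J (w l)) else 0 := ⟨_, rfl⟩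
  have hsq : ((-1 : ℝ) ^ k) * (-1) ^ k = 1 := by
    rw [← mul_pow]; norm_num
  have h1 : ∀ n, ∑ S : Finset (Fin k), (-1 : ℝ) ^ S.card * MI n (US q J S) = (-1) ^ k * A n := by
    intro n
    rw [hA]
    simp only
    rw [← Pool.Agent.R320.KL.incl (ι := Fin k) (κ := Fin n) (fun w => IC q (fun l => J (w l))),
      Finset.mul_sum]
    refine Finset.sum_congr rfl fun S _ => ?_
    rw [MI_US hq hJ, ← mul_assoc]
    congr 1
    have h2 : S.card + (Sᶜ).card = k := by
      rw [Finset.card_add_card_compl, Fintype.card_fin]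
    have h3 : (-1 : ℝ) ^ k = (-1) ^ S.card * (-1) ^ (Sᶜ).card := by rw [← pow_add, h2]
    have h4 : (-1 : ℝ) ^ (Sᶜ).card * (-1) ^ (Sᶜ).card = 1 := by rw [← mul_pow]; norm_num
    rw [h3, mul_assoc, h4, mul_one]
  have h3 : HasSum (fun n : ℕ => (-1 : ℝ) ^ n / (n ! : ℝ) * ((-1) ^ k * A n)) (Occ q J) := by
    have h4 : ∀ S : Finset (Fin k), HasSum (fun n : ℕ => (-1 : ℝ) ^ S.card *
        ((-1 : ℝ) ^ n / (n ! : ℝ) * MI n (US q J S))) ((-1 : ℝ) ^ S.card * Fr (US q J S)) :=
      fun S => (Fr_summable _ (US_fin q J S)).hasSum.mul_left _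
    have h5 := hasSum_sum (s := (Finset.univ : Finset (Finset (Fin k)))) fun S _ => h4 S
    unfold Occ
    convert h5 using 1
    funext n
    rw [← h1, Finset.mul_sum]
    exact Finset.sum_congr rfl fun S _ => by ring
  have hA0 : ∀ n, 0 ≤ A n := by
    intro n
    rw [hA]
    refine Finset.sum_nonneg fun w _ => ?_
    split_ifs
    · exact IC_nonneg _ _
    · exact le_rfl
  have hAlt : ∀ n, n < k → A n = 0 := by
    intro n hn
    rw [hA]
    refine Finset.sum_eq_zero fun w _ => ?_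
    rw [if_neg]
    intro hw
    have := Fintype.card_le_of_surjective w hw
    simp at this
    omega
  have hAk : A k = (k ! : ℝ) * IC q J := by
    rw [hA]
    simp only
    rw [Pool.Agent.R320.KL.surj_equiv rfl]
    have h6 : ∀ e : Fin k ≃ Fin k, IC q (fun l => J (e l)) = IC q J := fun e => IC_perm q J e
    simp only [h6, Finset.sum_const, Finset.card_univ, nsmul_eq_mul, Fintype.card_perm,
      Fintype.card_fin]
  have hAle : ∀ n, A n ≤ ((k : ℝ) / q) ^ n := by
    intro n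
    rw [hA]
    calc ∑ w : Fin n → Fin k, (if Function.Surjective w then IC q (fun l => J (w l)) else 0)
        ≤ ∑ _w : Fin n → Fin k, (1 / q : ℝ) ^ n := by
          refine Finset.sum_le_sum fun w _ => ?_
          split_ifs
          · exact IC_le _ _
          · positivity
      _ = ((k : ℝ) / q) ^ n := by
          rw [Finset.sum_const, Finset.card_univ, Fintype.card_fun, Fintype.card_fin, Fintype.card_fin,
            nsmul_eq_mul]
          push_cast
          rw [← mul_pow]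
          ring
  have h7 := h3.summable.sum_add_tsum_nat_add (k + 1)
  rw [h3.tsum_eq] at h7
  have h8 : ∑ n ∈ Finset.range (k + 1), (-1 : ℝ) ^ n / (n ! : ℝ) * ((-1) ^ k * A n) = IC q J := by
    rw [Finset.sum_range_succ, Finset.sum_eq_zero, zero_add, hAk]
    · have h9 : (k ! : ℝ) ≠ 0 := by exact_mod_cast (Nat.factorial_pos k).ne'
      calc (-1 : ℝ) ^ k / (k ! : ℝ) * ((-1) ^ k * ((k ! : ℝ) * IC q J)) =
          ((-1) ^ k * (-1) ^ k) * IC q J * ((k ! : ℝ) / (k ! : ℝ)) := by ring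
        _ = IC q J := by rw [hsq, div_self h9]; ring
    · intro n hn
      rw [hAlt n (Finset.mem_range.1 hn)]
      ring
  rw [h8] at h7
  rw [← h7, add_sub_cancel_left, ← Real.norm_eq_abs]
  have hz : (0 : ℝ) ≤ (k : ℝ) / q := by positivity
  have h10 : ∀ n : ℕ, ‖(-1 : ℝ) ^ (n + (k + 1)) / ((n + (k + 1)) ! : ℝ) * ((-1) ^ k * A (n + (k + 1)))‖ ≤
      ((k : ℝ) / q) ^ (n + (k + 1)) / ((n + (k + 1)) ! : ℝ) := by
    intro n
    rw [norm_mul, norm_div, norm_mul, norm_pow, norm_pow, norm_neg, norm_one, one_pow, one_pow, one_mul,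
      Real.norm_of_nonneg (hA0 _), Real.norm_of_nonneg (by positivity : (0 : ℝ) ≤ ((n + (k + 1)) ! : ℝ))]
    calc 1 / ((n + (k + 1)) ! : ℝ) * A (n + (k + 1)) ≤
        1 / ((n + (k + 1)) ! : ℝ) * ((k : ℝ) / q) ^ (n + (k + 1)) := by
          gcongr
          exact hAle _
      _ = _ := by ring
  have h11 : Summable fun n : ℕ => ((k : ℝ) / q) ^ (n + (k + 1)) / ((n + (k + 1)) ! : ℝ) :=
    (summable_nat_add_iff (k + 1)).2 (Real.summable_pow_div_factorial _)
  exact (tsum_of_norm_bounded h11.hasSum h10).trans (exp_tail _ hz _)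

end

end Pool.Agent.K4H58.KL
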