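import Pool.Agent.K4H58.KL.Tup
import Pool.Agent.K4H58.KL.Bk

/-! # From the k-level counts to the void probabilities -/

set_option autoImplicit false

namespace Pool.Agent.K4H58.KL

open Filter Topology MeasureTheory Set
open scoped Nat
open SG (ord NZ)
open SP (RHs)
open Pool.Agent.R320.KL

noncomputable section

/-- the product of the indicators of a translate -/
def pU {m : ℕ} (U : Set ℝ) (s : ℝ) (u : Fin m → ℝ) : ℝ := ∏ i, U.indicator (1 : ℝ → ℝ) (s + u i)

lemma ind_nn (U : Set ℝ) (z : ℝ) : 0 ≤ U.indicator (1 : ℝ → ℝ) z := indicator_nonneg (fun _ _ => zero_le_one) z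

lemma ind_le (U : Set ℝ) (z : ℝ) : U.indicator (1 : ℝ → ℝ) z ≤ 1 := by
  by_cases h : z ∈ U
  · rw [indicator_of_mem h]
    exact le_rfl
  · rw [indicator_of_notMem h]
    exact zero_le_one

lemma pU_nn {m : ℕ} (U : Set ℝ) (s : ℝ) (u : Fin m → ℝ) : 0 ≤ pU U s u :=
  Finset.prod_nonneg fun _ _ => ind_nn _ _

lemma pU_expand {m r : ℕ} {a b : Fin r → ℝ}
    (hd : ∀ i j, i ≠ j → Disjoint (Ico (a i) (b i)) (Ico (a j) (b j))) (s : ℝ) (u : Fin m → ℝ) :
    pU (⋃ i, Ico (a i) (b i)) s u =
      ∑ f : Fin m → Fin r, pI (fun i => a (f i) - s) (fun i => b (f i) - s) u := by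
  classical
  have h1 : ∀ z : ℝ, (⋃ i, Ico (a i) (b i)).indicator (1 : ℝ → ℝ) z =
      ∑ l, (Ico (a l) (b l)).indicator (1 : ℝ → ℝ) z := by
    intro z
    by_cases hz : z ∈ ⋃ i, Ico (a i) (b i)
    · obtain ⟨l, hl⟩ := mem_iUnion.1 hz
      rw [indicator_of_mem hz, Finset.sum_eq_single l]
      · rw [indicator_of_mem hl]
      · intro j _ hj
        rw [indicator_of_notMem]
        intro hj2
        exact Set.disjoint_left.1 (hd l j hj.symm) hl hj2
      · intro h
        exact absurd (Finset.mem_univ l) h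
    · rw [indicator_of_notMem hz]
      symm
      refine Finset.sum_eq_zero fun l _ => ?_
      rw [indicator_of_notMem]
      intro hl
      exact hz (mem_iUnion.2 ⟨l, hl⟩)
  unfold pU
  simp_rw [h1]
  rw [Finset.prod_univ_sum, Fintype.piFinset_univ]
  refine Finset.sum_congr rfl fun f _ => ?_
  unfold pI
  refine Finset.prod_congr rfl fun i _ => ?_
  have h2 : s + u i ∈ Ico (a (f i)) (b (f i)) ↔ u i ∈ Ico (a (f i) - s) (b (f i) - s) := by
    rw [mem_Ico, mem_Ico]
    constructor
    · rintro ⟨h3, h4⟩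
      constructor <;> linarith
    · rintro ⟨h3, h4⟩
      constructor <;> linarith
  by_cases h3 : s + u i ∈ Ico (a (f i)) (b (f i))
  · rw [indicator_of_mem h3, indicator_of_mem (h2.1 h3)]
    rfl
  · rw [indicator_of_notMem h3, indicator_of_notMem (fun h => h3 (h2.2 h))]

lemma Cv_pU {m r : ℕ} (h : ∀ x y : Fin m → ℝ, LB x y) {a b : Fin r → ℝ}
    (hd : ∀ i j, i ≠ j → Disjoint (Ico (a i) (b i)) (Ico (a j) (b j))) (s : ℝ) :
    Cv (pU (m := m) (⋃ i, Ico (a i) (b i)) s) := by
  have h1 : pU (m := m) (⋃ i, Ico (a i) (b i)) s = fun u =>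
      ∑ f : Fin m → Fin r, pI (fun i => a (f i) - s) (fun i => b (f i) - s) u :=
    funext fun u => pU_expand hd s u
  rw [h1]
  exact Cv_sum _ _ (fun f _ => pI_integrable _ _) fun f _ => Cv_pI h _ _

lemma pU_meas {m : ℕ} {U : Set ℝ} (hU : MeasurableSet U) :
    Measurable fun z : ℝ × (Fin m → ℝ) => pU U z.1 z.2 := by
  unfold pU
  refine Finset.measurable_fun_prod _ fun i _ => ?_
  exact (measurable_one.indicator hU).comp (measurable_fst.add ((measurable_pi_apply i).comp measurable_snd))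

/-- **the averages converge** -/
lemma avg_lim {m r : ℕ} (h : ∀ x y : Fin m → ℝ, LB x y) {a b : Fin r → ℝ}
    (hd : ∀ i j, i ≠ j → Disjoint (Ico (a i) (b i)) (Ico (a j) (b j))) {M : ℝ}
    (hM : (⋃ i, Ico (a i) (b i)) ⊆ Icc (-M) M) :
    Tendsto (fun T : ℝ => (∫ s, (⋃ i, Ico (a i) (b i)).indicator (1 : ℝ → ℝ) s *
      TS T (pU (m := m) (⋃ i, Ico (a i) (b i)) s)) / (T / (2 * Real.pi) * Real.log T)) atTop
      (𝓝 (∫ s, (⋃ i, Ico (a i) (b i)).indicator (1 : ℝ → ℝ) s *
        ∫ u, pU (m := m) (⋃ i, Ico (a i) (b i)) s u * rho u)) := by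
  obtain ⟨U, hUdef⟩ : ∃ U : Set ℝ, U = ⋃ i, Ico (a i) (b i) := ⟨_, rfl⟩
  have hU : MeasurableSet U := by
    rw [hUdef]
    exact MeasurableSet.iUnion fun i => measurableSet_Ico
  have hcv : ∀ s, Cv (pU (m := m) U s) := fun s => by
    rw [hUdef]
    exact Cv_pU h hd s
  rw [← hUdef] at hM ⊢
  have hUf : volume U ≠ ⊤ := ((measure_mono hM).trans_lt isCompact_Icc.measure_lt_top).ne
  have hbox := h (fun _ => -(2 * M)) (fun _ => 2 * M)
  unfold LB at hbox
  obtain ⟨G, hG⟩ : ∃ G : ℝ, G = ∫ u in Icc (fun _ : Fin m => -(2 * M)) (fun _ => 2 * M), rho u := ⟨_, rfl⟩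
  rw [← hG] at hbox
  simp_rw [← integral_div]
  have hpi := Real.pi_pos
  refine tendsto_integral_filter_of_dominated_convergence (fun s => U.indicator (1 : ℝ → ℝ) s * (G + 1))
    ?_ ?_ ?_ ?_
  · refine Eventually.of_forall fun T => Measurable.aestronglyMeasurable ?_
    refine Measurable.div_const (Measurable.mul (measurable_one.indicator hU) ?_) _
    unfold TS
    refine Finset.measurable_fun_sum _ fun w _ => ?_
    exact (pU_meas hU).comp (measurable_id.prodMk measurable_const)
  · filter_upwards [hbox.eventually_lt_const (show G < G + 1 by linarith), eventually_gt_atTop 1] with T h1 h2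
    have hL := Real.log_pos h2
    refine Eventually.of_forall fun s => ?_
    have hX : 0 < T / (2 * Real.pi) * Real.log T := by positivity
    have hTS : 0 ≤ TS T (pU (m := m) U s) := Finset.sum_nonneg fun w _ => pU_nn _ _ _
    rw [Real.norm_of_nonneg (div_nonneg (mul_nonneg (ind_nn U s) hTS) hX.le), mul_div_assoc]
    by_cases hs : s ∈ U
    · refine mul_le_mul_of_nonneg_left ?_ (ind_nn U s)
      refine le_trans ?_ h1.le
      gcongr
      rw [Nk_TS]
      refine TS_mono fun u => ?_
      by_cases hu : u ∈ Icc (fun _ : Fin m => -(2 * M)) (fun _ => 2 * M)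
      · rw [indicator_of_mem hu]
        exact Finset.prod_le_one (fun _ _ => ind_nn _ _) fun _ _ => ind_le _ _
      · rw [indicator_of_notMem hu]
        have h3 : ∃ i, s + u i ∉ U := by
          by_contra hcon
          push Not at hcon
          apply hu
          have h4 := hM hs
          constructor
          · intro i
            have h5 := hM (hcon i)
            simp only
            linarith [h5.1, h4.2]
          · intro i
            have h5 := hM (hcon i)
            simp only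
            linarith [h5.2, h4.1]
        obtain ⟨i, hi⟩ := h3
        unfold pU
        rw [Finset.prod_eq_zero (Finset.mem_univ i) (indicator_of_notMem hi _)]
    · rw [indicator_of_notMem hs, zero_mul, zero_mul]
  · exact (ind_integrable hU hUf).mul_const _
  · refine Eventually.of_forall fun s => ?_
    have := (hcv s).const_mul (U.indicator (1 : ℝ → ℝ) s)
    refine this.congr fun T => ?_
    rw [mul_div_assoc]

lemma MI_formula {m : ℕ} {U : Set ℝ} (hU : MeasurableSet U) (hf : volume U ≠ ⊤) :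
    ∫ s, U.indicator (1 : ℝ → ℝ) s * ∫ u, pU (m := m) U s u * rho u = MI (m + 1) U := by
  have h0 : MI (m + 1) U = ∫ p : Fin (m + 1) → ℝ,
      (Set.pi univ (fun _ : Fin (m + 1) => U)).indicator (fun p => SD p) p := by
    unfold MI
    rw [integral_indicator (MeasurableSet.univ_pi fun _ => hU)]
  rw [h0]
  have h1 := (volume_preserving_piFinSuccAbove (fun _ : Fin (m + 1) => ℝ) 0).symm
  rw [← h1.integral_comp', Measure.volume_eq_prod, integral_prod]
  · refine integral_congr_ae (Eventually.of_forall fun s => ?_)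
    simp only
    have h3 : ∀ v : Fin m → ℝ, (Set.pi univ (fun _ : Fin (m + 1) => U)).indicator (fun p => SD p)
        ((MeasurableEquiv.piFinSuccAbove (fun _ : Fin (m + 1) => ℝ) 0).symm (s, v)) =
        U.indicator (1 : ℝ → ℝ) s * (pU U s (v - fun _ => s) * rho (v - fun _ => s)) := by
      intro v
      rw [pfs]
      simp only
      have h5 : SD (Fin.cons s v : Fin (m + 1) → ℝ) = rho (v - fun _ => s) := by
        rw [rho_cons, ← SD_shift (Fin.cons 0 (v - fun _ => s) : Fin (m + 1) → ℝ) s]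
        congr 1
        funext i
        refine Fin.cases ?_ (fun j => ?_) i
        · simp
        · simp
      have h6 : ∀ i, s + (v - fun _ => s : Fin m → ℝ) i = v i := fun i => by simp
      unfold pU
      simp_rw [h6]
      by_cases hp : (Fin.cons s v : Fin (m + 1) → ℝ) ∈ Set.pi univ (fun _ : Fin (m + 1) => U)
      · rw [indicator_of_mem hp, h5]
        rw [Set.mem_univ_pi] at hp
        have h7 : s ∈ U := by simpa using hp 0
        have h8 : ∀ i, v i ∈ U := fun i => by simpa using hp i.succ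
        rw [indicator_of_mem h7, Finset.prod_eq_one fun i _ => by rw [indicator_of_mem (h8 i), Pi.one_apply]]
        simp
      · rw [indicator_of_notMem hp]
        rw [Set.mem_univ_pi] at hp
        push Not at hp
        obtain ⟨i, hi⟩ := hp
        revert hi
        refine Fin.cases ?_ (fun j => ?_) i
        · intro hi
          rw [Fin.cons_zero] at hi
          rw [indicator_of_notMem hi, zero_mul]
        · intro hi
          rw [Fin.cons_succ] at hi
          rw [Finset.prod_eq_zero (Finset.mem_univ j) (indicator_of_notMem hi _)]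
          simp
    simp_rw [h3]
    rw [integral_const_mul, integral_sub_right_eq_self (fun v => pU U s v * rho v) (fun _ => s)]
  · have h6 : Integrable (fun p : Fin (m + 1) → ℝ =>
        (Set.pi univ (fun _ : Fin (m + 1) => U)).indicator (fun p => SD p) p) := by
      rw [integrable_indicator_iff (MeasurableSet.univ_pi fun _ => hU)]
      exact SD_int_pi _ fun _ => hf
    exact h1.integrable_comp_of_integrable h6

/-- the number of the zeros in `t + U` -/
def Nf (T : ℝ) (U : Set ℝ) (t : ℝ) : ℕ := by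
  classical
  exact ((Finset.Icc 1 (NZ T)).filter fun n => sc T t n ∈ U).card

lemma Nf_zero {T : ℝ} {U : Set ℝ} {t : ℝ} : Nf T U t = 0 ↔ ∀ n ∈ Finset.Icc 1 (NZ T), sc T t n ∉ U := by
  classical
  unfold Nf
  rw [Finset.card_eq_zero, Finset.filter_eq_empty_iff]

lemma vd_Nf (T : ℝ) (U : Set ℝ) (t : ℝ) : vd T U t = if Nf T U t = 0 then 1 else 0 := by
  classical
  split_ifs with h
  · exact vd_one (Nf_zero.1 h)
  · rw [Nf_zero] at h
    push Not at h
    obtain ⟨n, hn, h1⟩ := h
    exact vd_zero hn h1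

lemma inj_card {k : ℕ} (A : Finset ℕ) [DecidablePred (Function.Injective : (Fin k → ℕ) → Prop)] :
    ((Fintype.piFinset fun _ : Fin k => A).filter Function.Injective).card = A.card.descFactorial k := by
  classical
  have h1 : Fintype.card (Fin k ↪ A) = A.card.descFactorial k := by
    rw [Fintype.card_embedding_eq, Fintype.card_coe, Fintype.card_fin]
  rw [← h1, ← Finset.card_univ]
  symm
  refine Finset.card_bij (fun e _ => fun i => ((e i : A) : ℕ)) ?_ ?_ ?_
  · intro e _
    rw [Finset.mem_filter, Fintype.mem_piFinset]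
    refine ⟨fun i => (e i).2, fun i j hij => ?_⟩
    exact e.injective (Subtype.ext hij)
  · intro e _ e' _ h
    ext i
    exact congrFun h i
  · intro w hw
    rw [Finset.mem_filter, Fintype.mem_piFinset] at hw
    refine ⟨⟨fun i => ⟨w i, hw.1 i⟩, fun i j hij => ?_⟩, Finset.mem_univ _, rfl⟩
    exact hw.2 (Subtype.ext_iff.1 hij)

lemma desc_sum {m : ℕ} (T : ℝ) (U : Set ℝ) (t : ℝ) :
    (((Nf T U t).descFactorial (m + 1) : ℕ) : ℝ) =
      ∑ w ∈ Wt m T, ∏ i, U.indicator (1 : ℝ → ℝ) (sc T t (w i)) := by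
  classical
  unfold Nf
  rw [← inj_card (k := m + 1)]
  have h1 : ∀ w : Fin (m + 1) → ℕ, ∏ i, U.indicator (1 : ℝ → ℝ) (sc T t (w i)) =
      if ∀ i, sc T t (w i) ∈ U then 1 else 0 := by
    intro w
    by_cases h : ∀ i, sc T t (w i) ∈ U
    · rw [if_pos h]
      exact Finset.prod_eq_one fun i _ => by rw [indicator_of_mem (h i), Pi.one_apply]
    · rw [if_neg h]
      push Not at h
      obtain ⟨i, hi⟩ := h
      exact Finset.prod_eq_zero (Finset.mem_univ i) (indicator_of_notMem hi _)
  rw [Finset.sum_congr rfl fun w _ => h1 w, ← Finset.sum_filter, Finset.sum_const, nsmul_eq_mul, mul_one]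
  congr 2
  ext w
  rw [Finset.mem_filter, Finset.mem_filter, mem_Wt, Fintype.mem_piFinset]
  simp only [Finset.mem_filter]
  constructor
  · rintro ⟨h2, h3⟩
    exact ⟨⟨fun i => (h2 i).1, h3⟩, fun i => (h2 i).2⟩
  · rintro ⟨⟨h2, h3⟩, h4⟩
    exact ⟨fun i => ⟨h2 i, h4 i⟩, h3⟩

lemma prod_sc {m : ℕ} (T : ℝ) (U : Set ℝ) (t : ℝ) (w : Fin (m + 1) → ℕ) :
    ∏ i, U.indicator (1 : ℝ → ℝ) (sc T t (w i)) =
      (fun s => U.indicator (1 : ℝ → ℝ) s * pU U s (uw T w)) (sc T t (w 0)) := by
  rw [Fin.prod_univ_succ]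
  simp only
  congr 1
  unfold pU
  refine Finset.prod_congr rfl fun i _ => ?_
  congr 1
  unfold uw
  rw [← sc_sub T t]
  ring

lemma g_integrable {m : ℕ} {U : Set ℝ} (hU : MeasurableSet U) (hf : volume U ≠ ⊤) (u : Fin m → ℝ) :
    Integrable fun s => U.indicator (1 : ℝ → ℝ) s * pU U s u := by
  refine (ind_integrable hU hf).mul_bdd (c := 1) ?_ ?_
  · exact ((pU_meas hU).comp (measurable_id.prodMk measurable_const)).aestronglyMeasurable
  · refine Eventually.of_forall fun s => ?_
    rw [Real.norm_of_nonneg (pU_nn _ _ _)]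
    exact Finset.prod_le_one (fun _ _ => ind_nn _ _) fun _ _ => ind_le _ _

lemma desc_integrable {m : ℕ} {T : ℝ} (hT : 1 < T) {U : Set ℝ} (hU : MeasurableSet U)
    (hf : volume U ≠ ⊤) : Integrable fun t => (((Nf T U t).descFactorial (m + 1) : ℕ) : ℝ) := by
  simp_rw [desc_sum, prod_sc]
  exact integrable_finsetSum _ fun w _ => integrable_sc hT (w 0) (g_integrable hU hf (uw T w))

lemma desc_int {m : ℕ} {T : ℝ} (hT : 1 < T) {U : Set ℝ} (hU : MeasurableSet U)
    (hf : volume U ≠ ⊤) : ∫ t, (((Nf T U t).descFactorial (m + 1) : ℕ) : ℝ) =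
      2 * Real.pi / Real.log T * ∫ s, U.indicator (1 : ℝ → ℝ) s * TS T (pU (m := m) U s) := by
  simp_rw [desc_sum, prod_sc]
  rw [integral_finsetSum _ fun w _ => integrable_sc hT (w 0) (g_integrable hU hf (uw T w))]
  unfold TS
  simp_rw [Finset.mul_sum]
  rw [integral_finsetSum _ fun w _ => g_integrable hU hf (uw T w), Finset.mul_sum]
  exact Finset.sum_congr rfl fun w _ =>
    int_sc hT (w 0) (fun s => U.indicator (1 : ℝ → ℝ) s * pU U s (uw T w))

/-- the factorial moments converge -/
lemma desc_lim {m r : ℕ} (h : ∀ x y : Fin m → ℝ, LB x y) {a b : Fin r → ℝ}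
    (hd : ∀ i j, i ≠ j → Disjoint (Ico (a i) (b i)) (Ico (a j) (b j))) {M : ℝ}
    (hM : (⋃ i, Ico (a i) (b i)) ⊆ Icc (-M) M) :
    Tendsto (fun T : ℝ => (∫ t, (((Nf T (⋃ i, Ico (a i) (b i)) t).descFactorial (m + 1) : ℕ) : ℝ)) / T)
      atTop (𝓝 (MI (m + 1) (⋃ i, Ico (a i) (b i)))) := by
  have hU : MeasurableSet (⋃ i, Ico (a i) (b i)) := MeasurableSet.iUnion fun i => measurableSet_Ico
  have hUf : volume (⋃ i, Ico (a i) (b i)) ≠ ⊤ :=
    ((measure_mono hM).trans_lt isCompact_Icc.measure_lt_top).ne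
  rw [← MI_formula hU hUf]
  refine (avg_lim h hd hM).congr' ?_
  filter_upwards [eventually_gt_atTop 1] with T hT
  rw [desc_int hT hU hUf]
  have hL := Real.log_pos hT
  have hpi := Real.pi_pos
  field_simp

lemma alt_choose (N J : ℕ) :
    ∑ j ∈ Finset.range (J + 1), (-1 : ℝ) ^ j * ((N + 1).choose j : ℝ) = (-1) ^ J * (N.choose J : ℝ) := by
  induction J with
  | zero => simp
  | succ J ih =>
    rw [Finset.sum_range_succ, ih, Nat.choose_succ_succ]
    push_cast
    ring

/-- Bonferroni -/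
lemma bonf (N J : ℕ) : |(if N = 0 then (1 : ℝ) else 0) -
    ∑ j ∈ Finset.range (J + 1), (-1 : ℝ) ^ j / (j ! : ℝ) * ((N.descFactorial j : ℕ) : ℝ)| ≤
    ((N.descFactorial (J + 1) : ℕ) : ℝ) / ((J + 1) ! : ℝ) := by
  have h1 : ∀ j : ℕ, (-1 : ℝ) ^ j / (j ! : ℝ) * ((N.descFactorial j : ℕ) : ℝ) = (-1) ^ j * (N.choose j : ℝ) := by
    intro j
    have : (j ! : ℝ) ≠ 0 := by exact_mod_cast (Nat.factorial_pos j).ne'
    rw [Nat.descFactorial_eq_factorial_mul_choose]
    push_cast
    field_simp
  have h2 : ((N.descFactorial (J + 1) : ℕ) : ℝ) / ((J + 1) ! : ℝ) = (N.choose (J + 1) : ℝ) := by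
    have : ((J + 1) ! : ℝ) ≠ 0 := by exact_mod_cast (Nat.factorial_pos (J + 1)).ne'
    rw [Nat.descFactorial_eq_factorial_mul_choose]
    push_cast
    field_simp
  simp_rw [h1]
  rw [h2]
  cases N with
  | zero =>
    rw [if_pos rfl, Finset.sum_range_succ', Finset.sum_eq_zero]
    · simp
    · intro j _
      simp
  | succ N =>
    rw [if_neg (Nat.succ_ne_zero N), alt_choose, zero_sub, abs_neg, abs_mul, abs_pow, abs_neg, abs_one,
      one_pow, one_mul, Nat.abs_cast, Nat.choose_succ_succ]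
    push_cast
    have : (0 : ℝ) ≤ (N.choose (J + 1) : ℝ) := Nat.cast_nonneg _
    linarith

end

end Pool.Agent.K4H58.KL
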