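import Pool.Agent.K4H58.KL.Fw

/-! # From the k-level counts to the void probabilities: the limit -/

set_option autoImplicit false

namespace Pool.Agent.K4H58.KL

open Filter Topology MeasureTheory Set
open scoped Nat
open SG (ord NZ)
open SP (RHs)
open Pool.Agent.R320.KL

noncomputable section

/-- the extended time interval -/
def KT (M T : ℝ) : Set ℝ := Icc (-(2 * Real.pi * M / Real.log T)) (T + 2 * Real.pi * M / Real.log T)

lemma Nf_out {T M : ℝ} (hT : 1 < T) {U : Set ℝ} (hM : U ⊆ Icc (-M) M) {t : ℝ} (ht : t ∉ KT M T) :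
    Nf T U t = 0 := by
  rw [Nf_zero]
  intro n hn h
  apply ht
  have hL := Real.log_pos hT
  have hpi := Real.pi_pos
  rw [Finset.mem_Icc] at hn
  have h1 := (SG.ord_le_iff hn.1 T).2 hn.2
  have h2 := SG.ord_pos hn.1
  have h3 := hM h
  unfold sc at h3
  have hk : 0 < Real.log T / (2 * Real.pi) := by positivity
  have e : ∀ z : ℝ, z ≤ 2 * Real.pi * M / Real.log T ↔ z * (Real.log T / (2 * Real.pi)) ≤ M := by
    intro z
    rw [le_div_iff₀ hL, mul_div_assoc', div_le_iff₀ (by positivity)]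
    constructor <;> intro h <;> linarith
  have h4 := (e (ord n - t)).2 h3.2
  have h5 := (e (-(ord n - t))).2 (by linarith [h3.1])
  unfold KT
  constructor <;> linarith

lemma desc_KT {T M : ℝ} (hT : 1 < T) {U : Set ℝ} (hM : U ⊆ Icc (-M) M) (m : ℕ) :
    ∫ t in KT M T, (((Nf T U t).descFactorial (m + 1) : ℕ) : ℝ) =
      ∫ t, (((Nf T U t).descFactorial (m + 1) : ℕ) : ℝ) := by
  refine setIntegral_eq_integral_of_forall_compl_eq_zero fun t ht => ?_
  rw [Nf_out hT hM ht]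
  simp

lemma KT_vol {T M : ℝ} (hT : 1 < T) (hM : 0 ≤ M) :
    volume.real (KT M T) = T + 2 * (2 * Real.pi * M / Real.log T) := by
  have hL := Real.log_pos hT
  have hpi := Real.pi_pos
  have h1 : 0 ≤ 2 * Real.pi * M / Real.log T := by positivity
  unfold KT
  rw [Real.volume_real_Icc_of_le (by linarith)]
  ring

lemma KT_lim (M : ℝ) : Tendsto (fun T : ℝ => (T + 2 * (2 * Real.pi * M / Real.log T)) / T) atTop (𝓝 1) := by
  have h1 : Tendsto (fun T : ℝ => (2 * (2 * Real.pi * M)) * ((Real.log T)⁻¹ * T⁻¹)) atTop (𝓝 (2 * (2 * Real.pi * M) * (0 * 0))) :=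
    ((tendsto_inv_atTop_zero.comp Real.tendsto_log_atTop).mul tendsto_inv_atTop_zero).const_mul _
  have h2 := (tendsto_const_nhds (x := (1 : ℝ))).add h1
  rw [mul_zero, mul_zero, add_zero] at h2
  refine h2.congr' ?_
  filter_upwards [eventually_gt_atTop 1] with T hT
  have hL := Real.log_pos hT
  field_simp

/-- the factorial moments -/
def Dj (M : ℝ) (U : Set ℝ) (j : ℕ) (T : ℝ) : ℝ :=
  (∫ t in KT M T, (((Nf T U t).descFactorial j : ℕ) : ℝ)) / T

lemma Dj_lim {r : ℕ} (h : ∀ (m : ℕ) (x y : Fin m → ℝ), LB x y) {a b : Fin r → ℝ}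
    (hd : ∀ i j, i ≠ j → Disjoint (Ico (a i) (b i)) (Ico (a j) (b j))) {M : ℝ} (hM0 : 0 ≤ M)
    (hM : (⋃ i, Ico (a i) (b i)) ⊆ Icc (-M) M) (j : ℕ) :
    Tendsto (Dj M (⋃ i, Ico (a i) (b i)) j) atTop (𝓝 (MI j (⋃ i, Ico (a i) (b i)))) := by
  cases j with
  | zero =>
    rw [MI_zero]
    refine (KT_lim M).congr' ?_
    filter_upwards [eventually_gt_atTop 1] with T hT
    unfold Dj
    simp only [Nat.descFactorial_zero, Nat.cast_one]
    rw [setIntegral_const, KT_vol hT hM0]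
    simp
  | succ m =>
    refine (desc_lim (h m) hd hM).congr' ?_
    filter_upwards [eventually_gt_atTop 1] with T hT
    unfold Dj
    rw [desc_KT hT hM]

lemma desc_on {T M : ℝ} (hT : 1 < T) {U : Set ℝ} (hU : MeasurableSet U) (hf : volume U ≠ ⊤) (j : ℕ) :
    IntegrableOn (fun t => (((Nf T U t).descFactorial j : ℕ) : ℝ)) (KT M T) := by
  cases j with
  | zero =>
    simp only [Nat.descFactorial_zero, Nat.cast_one]
    exact continuous_const.continuousOn.integrableOn_compact isCompact_Icc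
  | succ m => exact (desc_integrable hT hU hf).integrableOn

/-- Bonferroni, integrated -/
lemma bonf_int {T M : ℝ} (hT : 1 < T) {U : Set ℝ} (hU : MeasurableSet U) (hf : volume U ≠ ⊤) (J : ℕ) :
    |(∫ t in KT M T, vd T U t) / T - ∑ j ∈ Finset.range (J + 1), (-1 : ℝ) ^ j / (j ! : ℝ) * Dj M U j T| ≤
      Dj M U (J + 1) T / ((J + 1) ! : ℝ) := by
  have hT0 : 0 < T := by linarith
  have hvd : IntegrableOn (vd T U) (KT M T) := vd_on T hU _ _
  have hs : IntegrableOn (fun t => ∑ j ∈ Finset.range (J + 1), (-1 : ℝ) ^ j / (j ! : ℝ) *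
      (((Nf T U t).descFactorial j : ℕ) : ℝ)) (KT M T) :=
    integrable_finsetSum _ fun j _ => (desc_on hT hU hf j).const_mul _
  have h1 : (∫ t in KT M T, vd T U t) / T - ∑ j ∈ Finset.range (J + 1), (-1 : ℝ) ^ j / (j ! : ℝ) * Dj M U j T =
      (∫ t in KT M T, (vd T U t - ∑ j ∈ Finset.range (J + 1), (-1 : ℝ) ^ j / (j ! : ℝ) *
      (((Nf T U t).descFactorial j : ℕ) : ℝ))) / T := by
    rw [integral_sub hvd hs, integral_finsetSum _ fun j _ => (desc_on hT hU hf j).const_mul _, sub_div,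
      Finset.sum_div]
    congr 1
    refine Finset.sum_congr rfl fun j _ => ?_
    unfold Dj
    rw [integral_const_mul]
    ring
  have h2 : Dj M U (J + 1) T / ((J + 1) ! : ℝ) =
      (∫ t in KT M T, (((Nf T U t).descFactorial (J + 1) : ℕ) : ℝ) / ((J + 1) ! : ℝ)) / T := by
    unfold Dj
    rw [integral_div]
    ring
  rw [h1, h2, abs_div, abs_of_pos hT0]
  refine div_le_div_of_nonneg_right ?_ hT0.le
  refine abs_integral_le_integral_abs.trans ?_
  refine integral_mono (hvd.sub hs).abs ((desc_on hT hU hf (J + 1)).div_const _) fun t => ?_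
  simp only
  rw [vd_Nf]
  exact bonf _ _

lemma VT_KT {T M : ℝ} (hT : 1 < T) (hM : 0 ≤ M) {U : Set ℝ} (hU : MeasurableSet U) :
    |(∫ t in KT M T, vd T U t) / T - VT U T| ≤ (T + 2 * (2 * Real.pi * M / Real.log T)) / T - 1 := by
  have hT0 : 0 < T := by linarith
  have hL := Real.log_pos hT
  have hpi := Real.pi_pos
  have h0 : 0 ≤ 2 * Real.pi * M / Real.log T := by positivity
  have hsub : Icc 0 T ⊆ KT M T := by
    unfold KT
    exact Icc_subset_Icc (by linarith) (by linarith)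
  have h1 : ∫ t in Icc 0 T, vd T U t ≤ ∫ t in KT M T, vd T U t :=
    setIntegral_mono_set (vd_on T hU _ _) (Eventually.of_forall fun t => vd_nonneg T U t)
      (Eventually.of_forall fun t ht => hsub ht)
  have h2 : ∫ t in Icc 0 T, (1 - vd T U t) ≤ ∫ t in KT M T, (1 - vd T U t) :=
    setIntegral_mono_set (one_sub_on T hU _ _) (Eventually.of_forall fun t => by
      show (0 : ℝ) ≤ 1 - vd T U t
      linarith [vd_le T U t])
      (Eventually.of_forall fun t ht => hsub ht)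
  rw [integral_sub (continuous_const.continuousOn.integrableOn_compact isCompact_Icc) (vd_on T hU 0 T),
    integral_sub (by unfold KT; exact continuous_const.continuousOn.integrableOn_compact isCompact_Icc)
      (by unfold KT; exact vd_on T hU _ _), setIntegral_const, setIntegral_const, KT_vol hT hM,
    Real.volume_real_Icc_of_le hT0.le] at h2
  simp only [smul_eq_mul, mul_one, sub_zero] at h2
  unfold VT
  rw [← sub_div, abs_div, abs_of_pos hT0, abs_of_nonneg (by linarith)]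
  have e : (T + 2 * (2 * Real.pi * M / Real.log T)) / T - 1 = (2 * (2 * Real.pi * M / Real.log T)) / T := by
    field_simp
    ring
  rw [e]
  exact div_le_div_of_nonneg_right (by linarith) hT0.le

/-- **the k-level counts give the void probabilities** -/
theorem forward (h : ∀ (m : ℕ) (x y : Fin m → ℝ), LB x y) {r : ℕ} (a b : Fin r → ℝ)
    (hd : ∀ i j, i ≠ j → Disjoint (Ico (a i) (b i)) (Ico (a j) (b j))) :
    Tendsto (VT (⋃ i, Ico (a i) (b i))) atTop (𝓝 (Fr (⋃ i, Ico (a i) (b i)))) := by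
  obtain ⟨M, hM0, hM⟩ : ∃ M : ℝ, 0 ≤ M ∧ (⋃ i, Ico (a i) (b i)) ⊆ Icc (-M) M := by
    obtain ⟨R, hR, hab⟩ := box_R (m := r) a b
    refine ⟨R, hR, ?_⟩
    intro z hz
    obtain ⟨i, hi⟩ := mem_iUnion.1 hz
    exact ⟨(hab i).1.trans hi.1, hi.2.le.trans (hab i).2⟩
  have hlim := Dj_lim h hd hM0 hM
  have hU : MeasurableSet (⋃ i, Ico (a i) (b i)) := MeasurableSet.iUnion fun i => measurableSet_Ico
  have hUf : volume (⋃ i, Ico (a i) (b i)) ≠ ⊤ :=
    ((measure_mono hM).trans_lt isCompact_Icc.measure_lt_top).ne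
  obtain ⟨U, hUd⟩ : ∃ U : Set ℝ, U = ⋃ i, Ico (a i) (b i) := ⟨_, rfl⟩
  rw [← hUd] at hM hlim hU hUf ⊢
  rw [Metric.tendsto_atTop]
  intro δ hδ
  have hP : Tendsto (fun J : ℕ => ∑ j ∈ Finset.range (J + 1), (-1 : ℝ) ^ j / (j ! : ℝ) * MI j U) atTop
      (𝓝 (Fr U)) := (Fr_summable U hUf).hasSum.tendsto_sum_nat.comp (tendsto_add_atTop_nat 1)
  have hv : Tendsto (fun J : ℕ => volume.real U ^ (J + 1) / ((J + 1) ! : ℝ)) atTop (𝓝 0) :=
    (FloorSemiring.tendsto_pow_div_factorial_atTop (volume.real U)).comp (tendsto_add_atTop_nat 1)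
  have h1 := hP.eventually (Metric.ball_mem_nhds _ (by positivity : 0 < δ / 8))
  have h2 := hv.eventually_lt_const (by positivity : 0 < δ / 8)
  obtain ⟨J, hJ1, hJ2⟩ := (h1.and h2).exists
  rw [Real.dist_eq] at hJ1
  have h3 : Tendsto (fun T => ∑ j ∈ Finset.range (J + 1), (-1 : ℝ) ^ j / (j ! : ℝ) * Dj M U j T) atTop
      (𝓝 (∑ j ∈ Finset.range (J + 1), (-1 : ℝ) ^ j / (j ! : ℝ) * MI j U)) :=
    tendsto_finsetSum _ fun j _ => (hlim j).const_mul _
  have h4 := h3.eventually (Metric.ball_mem_nhds _ (by positivity : 0 < δ / 8))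
  have h5 : Tendsto (fun T => Dj M U (J + 1) T / ((J + 1) ! : ℝ)) atTop
      (𝓝 (MI (J + 1) U / ((J + 1) ! : ℝ))) := (hlim (J + 1)).div_const _
  have h6 : MI (J + 1) U / ((J + 1) ! : ℝ) < δ / 8 := by
    refine lt_of_le_of_lt ?_ hJ2
    gcongr
    exact MI_le _ U hUf
  have h7 := h5.eventually_lt_const h6
  have h8 := (KT_lim M).eventually_lt_const (show (1 : ℝ) < 1 + δ / 8 by linarith)
  obtain ⟨T0, hT0⟩ := eventually_atTop.1 (h4.and (h7.and (h8.and (eventually_gt_atTop 1))))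
  refine ⟨T0, fun T hT => ?_⟩
  obtain ⟨k1, k2, k3, k4⟩ := hT0 T hT
  rw [Real.dist_eq] at k1 ⊢
  have b1 := bonf_int (M := M) k4 hU hUf J
  have b2 := VT_KT k4 hM0 hU
  rw [abs_lt] at hJ1 k1
  rw [abs_le] at b1 b2
  rw [abs_lt]
  constructor <;> linarith [hJ1.1, hJ1.2, k1.1, k1.2, b1.1, b1.2, b2.1, b2.2]

end

end Pool.Agent.K4H58.KL
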