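import Pool.Agent.K4H58.KL.Fib
import Pool.Agent.K4H58.KL.Fre

/-! # Observers, cells and tuples of zeros: pointwise bounds -/

set_option autoImplicit false

namespace Pool.Agent.K4H58.KL

open Filter Topology MeasureTheory Set
open SG (ord NZ)
open SP (RHs)
open Pool.Agent.R320.KL

noncomputable section

/-- scaled position of the zero `n` seen from `t` -/
def sc (T t : ℝ) (n : ℕ) : ℝ := (ord n - t) * (Real.log T / (2 * Real.pi))

lemma sc_sub (T t : ℝ) (l n : ℕ) :
    sc T t l - sc T t n = (ord l - ord n) * (Real.log T / (2 * Real.pi)) := by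
  unfold sc
  ring

/-- `1` if there is no zero in `t + U` (scaled), `0` otherwise -/
def vd (T : ℝ) (U : Set ℝ) (t : ℝ) : ℝ := ∏ n ∈ Finset.Icc 1 (NZ T), (1 - U.indicator 1 (sc T t n))

lemma vd_one {T : ℝ} {U : Set ℝ} {t : ℝ} (h : ∀ n ∈ Finset.Icc 1 (NZ T), sc T t n ∉ U) : vd T U t = 1 := by
  unfold vd
  refine Finset.prod_eq_one fun n hn => ?_
  rw [indicator_of_notMem (h n hn), sub_zero]

lemma vd_zero {T : ℝ} {U : Set ℝ} {t : ℝ} {n : ℕ} (hn : n ∈ Finset.Icc 1 (NZ T)) (h : sc T t n ∈ U) :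
    vd T U t = 0 := by
  unfold vd
  refine Finset.prod_eq_zero hn ?_
  rw [indicator_of_mem h]
  simp

open Classical in
lemma vd_eq (T : ℝ) (U : Set ℝ) (t : ℝ) :
    vd T U t = if ∃ n ∈ Finset.Icc 1 (NZ T), sc T t n ∈ U then 0 else 1 := by
  split_ifs with h
  · obtain ⟨n, hn, h1⟩ := h
    exact vd_zero hn h1
  · push Not at h
    exact vd_one h

lemma vd_nonneg (T : ℝ) (U : Set ℝ) (t : ℝ) : 0 ≤ vd T U t := by
  rw [vd_eq]
  split_ifs <;> norm_num

lemma vd_le (T : ℝ) (U : Set ℝ) (t : ℝ) : vd T U t ≤ 1 := by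
  rw [vd_eq]
  split_ifs <;> norm_num

/-- the index of the cell of a zero -/
def ci (q : ℕ) (T t : ℝ) (n : ℕ) : ℤ := ⌊(q : ℝ) * sc T t n⌋

lemma ci_iff {q : ℕ} (hq : 0 < q) {T t : ℝ} {n : ℕ} {j : ℤ} : sc T t n ∈ cell q j ↔ ci q T t n = j :=
  mem_cell hq

/-- the window -/
def Win (L : ℕ) (T t : ℝ) : Finset ℕ := by
  classical
  exact (Finset.Icc 1 (NZ T)).filter fun n => sc T t n ∈ Ico (-(L : ℝ)) (L + 1)

lemma mem_Win {L : ℕ} {T t : ℝ} {n : ℕ} :
    n ∈ Win L T t ↔ n ∈ Finset.Icc 1 (NZ T) ∧ sc T t n ∈ Ico (-(L : ℝ)) (L + 1) := by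
  classical
  unfold Win
  rw [Finset.mem_filter]

/-- the cells of the window -/
def Cw (q L : ℕ) : Finset ℤ := Finset.Ico (-((L : ℤ) * q)) (((L : ℤ) + 1) * q)

lemma Cw_iff {q : ℕ} (hq : 0 < q) {L : ℕ} {x : ℝ} :
    ⌊(q : ℝ) * x⌋ ∈ Cw q L ↔ x ∈ Ico (-(L : ℝ)) (L + 1) := by
  have hq' : (0 : ℝ) < q := by exact_mod_cast hq
  unfold Cw
  rw [Finset.mem_Ico, Int.le_floor, Int.floor_lt, mem_Ico]
  push_cast
  constructor
  · rintro ⟨h1, h2⟩
    constructor
    · by_contra hcon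
      push Not at hcon
      nlinarith
    · by_contra hcon
      push Not at hcon
      nlinarith
  · rintro ⟨h1, h2⟩
    constructor <;> nlinarith

lemma Cw_card (q L : ℕ) : ((Cw q L).card : ℝ) = (2 * L + 1) * q := by
  unfold Cw
  rw [Int.card_Ico]
  have h : (((L : ℤ) + 1) * q - -((L : ℤ) * q)).toNat = (2 * L + 1) * q := by
    have : (((L : ℤ) + 1) * q - -((L : ℤ) * q)) = (((2 * L + 1) * q : ℕ) : ℤ) := by
      push_cast
      ring
    rw [this, Int.toNat_natCast]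
  rw [h]
  push_cast
  ring

/-- the occupied cells of the window -/
def Oc (q L : ℕ) (T t : ℝ) : Finset ℤ := (Win L T t).image (ci q T t)

lemma Oc_sub {q : ℕ} (hq : 0 < q) (L : ℕ) (T t : ℝ) : Oc q L T t ⊆ Cw q L := by
  intro j hj
  unfold Oc at hj
  rw [Finset.mem_image] at hj
  obtain ⟨n, hn, rfl⟩ := hj
  exact (Cw_iff hq).2 (mem_Win.1 hn).2

lemma mem_Oc {q : ℕ} (hq : 0 < q) {L : ℕ} {T t : ℝ} {j : ℤ} (hj : j ∈ Cw q L) :
    j ∈ Oc q L T t ↔ ∃ n ∈ Finset.Icc 1 (NZ T), sc T t n ∈ cell q j := by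
  unfold Oc
  rw [Finset.mem_image]
  constructor
  · rintro ⟨n, hn, h⟩
    exact ⟨n, (mem_Win.1 hn).1, (ci_iff hq).2 h⟩
  · rintro ⟨n, hn, h⟩
    refine ⟨n, mem_Win.2 ⟨hn, ?_⟩, (ci_iff hq).1 h⟩
    rw [ci_iff hq] at h
    rw [← h] at hj
    exact (Cw_iff hq).1 hj

open Classical in
lemma X_eq {q : ℕ} (hq : 0 < q) {L : ℕ} {T t : ℝ} {j : ℤ} (hj : j ∈ Cw q L) :
    1 - vd T (cell q j) t = if j ∈ Oc q L T t then 1 else 0 := by
  rw [vd_eq]
  by_cases h : j ∈ Oc q L T t
  · rw [if_pos h, if_pos ((mem_Oc hq hj).1 h)]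
    norm_num
  · rw [if_neg h, if_neg (fun h2 => h ((mem_Oc hq hj).2 h2))]
    norm_num

lemma sum_X {q : ℕ} (hq : 0 < q) (L : ℕ) (T t : ℝ) :
    ∑ j ∈ Cw q L, (1 - vd T (cell q j) t) = ((Oc q L T t).card : ℝ) := by
  classical
  rw [Finset.sum_congr rfl fun j hj => X_eq hq hj, Finset.sum_ite_mem,
    Finset.inter_eq_right.2 (Oc_sub hq L T t)]
  simp

/-- the representative of an occupied cell -/
def rp (q : ℕ) (T t : ℝ) (j : ℤ) : ℕ := by
  classical
  exact if h : ∃ n ∈ Finset.Icc 1 (NZ T), ci q T t n = j then h.choose else 0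

lemma rp_spec {q L : ℕ} {T t : ℝ} {j : ℤ} (hj : j ∈ Oc q L T t) :
    rp q T t j ∈ Finset.Icc 1 (NZ T) ∧ ci q T t (rp q T t j) = j := by
  unfold Oc at hj
  rw [Finset.mem_image] at hj
  obtain ⟨n, hn, h⟩ := hj
  have h1 : ∃ n ∈ Finset.Icc 1 (NZ T), ci q T t n = j := ⟨n, (mem_Win.1 hn).1, h⟩
  unfold rp
  rw [dif_pos h1]
  exact h1.choose_spec

lemma rp_win {q L : ℕ} (hq : 0 < q) {T t : ℝ} {j : ℤ} (hj : j ∈ Oc q L T t) :
    rp q T t j ∈ Win L T t := by
  obtain ⟨h1, h2⟩ := rp_spec hj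
  refine mem_Win.2 ⟨h1, ?_⟩
  have h3 := Oc_sub hq L T t hj
  rw [← h2] at h3
  exact (Cw_iff hq).1 h3

/-- the zeros of the window which are not representatives -/
def NR (q L : ℕ) (T t : ℝ) : Finset ℕ := (Win L T t) \ ((Oc q L T t).image (rp q T t))

lemma NR_card {q L : ℕ} (hq : 0 < q) (T t : ℝ) :
    ((NR q L T t).card : ℝ) = (Win L T t).card - ∑ j ∈ Cw q L, (1 - vd T (cell q j) t) := by
  have h1 : (Oc q L T t).image (rp q T t) ⊆ Win L T t := by
    intro n hn
    rw [Finset.mem_image] at hn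
    obtain ⟨j, hj, rfl⟩ := hn
    exact rp_win hq hj
  have h2 : ((Oc q L T t).image (rp q T t)).card = (Oc q L T t).card := by
    refine Finset.card_image_of_injOn fun j hj j' hj' h => ?_
    rw [← (rp_spec hj).2, ← (rp_spec hj').2, h]
  rw [sum_X hq]
  unfold NR
  rw [Finset.card_sdiff_of_subset h1, h2, Nat.cast_sub]
  rw [← h2]
  exact Finset.card_le_card h1

lemma not_NR {q L : ℕ} {T t : ℝ} {n : ℕ} (hn : n ∈ Win L T t) (h : n ∉ NR q L T t) :
    rp q T t (ci q T t n) = n := by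
  unfold NR at h
  rw [Finset.mem_sdiff] at h
  push Not at h
  have h1 := h hn
  rw [Finset.mem_image] at h1
  obtain ⟨j, hj, rfl⟩ := h1
  rw [(rp_spec hj).2]

/-- the tuples of the window -/
def Tup {m : ℕ} (L : ℕ) (T t : ℝ) (x y : Fin m → ℝ) : Finset (Fin (m + 1) → ℕ) := by
  classical
  exact (Fintype.piFinset fun _ => Win L T t).filter fun w => Function.Injective w ∧
    sc T t (w 0) ∈ Ico (0 : ℝ) 1 ∧ ∀ i : Fin m, sc T t (w i.succ) - sc T t (w 0) ∈ Icc (x i) (y i)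

lemma mem_Tup {m : ℕ} {L : ℕ} {T t : ℝ} {x y : Fin m → ℝ} {w : Fin (m + 1) → ℕ} :
    w ∈ Tup L T t x y ↔ (∀ i, w i ∈ Win L T t) ∧ Function.Injective w ∧
    sc T t (w 0) ∈ Ico (0 : ℝ) 1 ∧ ∀ i : Fin m, sc T t (w i.succ) - sc T t (w 0) ∈ Icc (x i) (y i) := by
  classical
  unfold Tup
  rw [Finset.mem_filter, Fintype.mem_piFinset]

/-- the observed count -/
def Ft {m : ℕ} (T : ℝ) (x y : Fin m → ℝ) (t : ℝ) : ℝ :=
  ∑ n ∈ Finset.Icc 1 (NZ T), (Ico (0 : ℝ) 1).indicator 1 (sc T t n) * ((Fb T x y n).card : ℝ)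

lemma Ft_eq {m : ℕ} {L : ℕ} {T : ℝ} {x y : Fin m → ℝ} (hx : ∀ i, -(L : ℝ) ≤ x i) (hy : ∀ i, y i ≤ L)
    (t : ℝ) : Ft T x y t = ((Tup L T t x y).card : ℝ) := by
  classical
  have h1 : Ft T x y t = ((((Finset.Icc 1 (NZ T)).filter fun n => sc T t n ∈ Ico (0 : ℝ) 1).sigma
      (fun n => Fb T x y n)).card : ℝ) := by
    unfold Ft
    rw [Finset.card_sigma, Finset.sum_filter]
    push_cast
    refine Finset.sum_congr rfl fun n _ => ?_
    by_cases h : sc T t n ∈ Ico (0 : ℝ) 1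
    · rw [indicator_of_mem h, if_pos h]
      simp
    · rw [indicator_of_notMem h, if_neg h]
      simp
  rw [h1]
  congr 1
  refine Finset.card_bij' (i := fun z _ => (Fin.cons z.1 z.2 : Fin (m + 1) → ℕ))
    (j := fun w _ => ⟨w 0, Fin.tail w⟩) ?_ ?_ ?_ ?_
  · rintro ⟨n, l⟩ hz
    rw [Finset.mem_sigma, Finset.mem_filter, mem_Fb] at hz
    obtain ⟨⟨h2, h3⟩, h4, h5⟩ := hz
    have h6 : ∀ i, l i ∈ Finset.Icc 1 (NZ T) ∧ l i ≠ n ∧
        (ord (l i) - ord n) * (Real.log T / (2 * Real.pi)) ∈ Icc (x i) (y i) := by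
      intro i
      have := h4 i
      unfold Cs at this
      rw [Finset.mem_filter] at this
      exact this
    rw [mem_Tup]
    refine ⟨fun i => ?_, ?_, ?_, fun i => ?_⟩
    · refine Fin.cases ?_ (fun j => ?_) i
      · rw [Fin.cons_zero, mem_Win]
        refine ⟨h2, ?_, ?_⟩
        · have : (0 : ℝ) ≤ L := Nat.cast_nonneg _
          linarith [h3.1]
        · have : (0 : ℝ) ≤ L := Nat.cast_nonneg _
          linarith [h3.2]
      · rw [Fin.cons_succ, mem_Win]
        refine ⟨(h6 j).1, ?_⟩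
        have h7 := (h6 j).2.2
        rw [← sc_sub T t] at h7
        have h8 := hx j
        have h9 := hy j
        constructor
        · linarith [h7.1, h3.1]
        · linarith [h7.2, h3.2]
    · rw [Fin.cons_injective_iff]
      refine ⟨?_, h5⟩
      rintro ⟨i, hi⟩
      exact (h6 i).2.1 hi
    · rw [Fin.cons_zero]
      exact h3
    · rw [Fin.cons_zero, Fin.cons_succ, sc_sub]
      exact (h6 i).2.2
  · intro w hw
    rw [mem_Tup] at hw
    obtain ⟨h2, h3, h4, h5⟩ := hw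
    rw [Finset.mem_sigma, Finset.mem_filter, mem_Fb]
    refine ⟨⟨(mem_Win.1 (h2 0)).1, h4⟩, fun i => ?_, fun i j hij => ?_⟩
    · unfold Cs
      rw [Finset.mem_filter]
      refine ⟨(mem_Win.1 (h2 i.succ)).1, ?_, ?_⟩
      · intro h
        have := h3 h
        exact absurd this (Fin.succ_ne_zero i)
      · have := h5 i
        rw [sc_sub] at this
        exact this
    · have := h3 hij
      simpa using this
  · rintro ⟨n, l⟩ _
    simp
  · intro w _
    simp

open Classical in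
lemma prod_X {k : ℕ} {q : ℕ} (hq : 0 < q) {L : ℕ} {T t : ℝ} {J : Fin k → ℤ} (hJ : ∀ i, J i ∈ Cw q L) :
    ∏ i, (1 - vd T (cell q (J i)) t) = if ∀ i, J i ∈ Oc q L T t then 1 else 0 := by
  rw [Finset.prod_congr rfl fun i _ => X_eq (T := T) (t := t) hq (hJ i)]
  by_cases h : ∀ i, J i ∈ Oc q L T t
  · rw [if_pos h]
    exact Finset.prod_eq_one fun i _ => if_pos (h i)
  · rw [if_neg h]
    push Not at h
    obtain ⟨i, hi⟩ := h
    exact Finset.prod_eq_zero (Finset.mem_univ i) (if_neg hi)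

lemma sum_prod {k : ℕ} {q : ℕ} (hq : 0 < q) {L : ℕ} {T t : ℝ} (R : Finset (Fin k → ℤ))
    (hR : ∀ J ∈ R, ∀ i, J i ∈ Cw q L) :
    ∑ J ∈ R, ∏ i, (1 - vd T (cell q (J i)) t) =
      ((R.filter fun J => ∀ i, J i ∈ Oc q L T t).card : ℝ) := by
  classical
  rw [Finset.sum_congr rfl fun J hJ => prod_X hq (hR J hJ), ← Finset.sum_filter]
  simp

/-- **lower bound** -/
lemma lower {m : ℕ} {q : ℕ} (hq : 0 < q) {L : ℕ} {T t : ℝ} {x y : Fin m → ℝ}
    (R : Finset (Fin (m + 1) → ℤ)) (hR : ∀ J ∈ R, ∀ i, J i ∈ Cw q L)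
    (hinj : ∀ J ∈ R, Function.Injective J) (h0 : ∀ J ∈ R, 0 ≤ J 0 ∧ J 0 < q)
    (hxy : ∀ J ∈ R, ∀ i : Fin m, x i ≤ ((J i.succ : ℝ) - J 0 - 1) / q ∧ ((J i.succ : ℝ) - J 0 + 1) / q ≤ y i) :
    ∑ J ∈ R, ∏ i, (1 - vd T (cell q (J i)) t) ≤ ((Tup L T t x y).card : ℝ) := by
  classical
  have hq' : (0 : ℝ) < q := by exact_mod_cast hq
  rw [sum_prod hq R hR]
  have h1 : (R.filter fun J => ∀ i, J i ∈ Oc q L T t).card ≤ (Tup L T t x y).card := by
    refine Finset.card_le_card_of_injOn (fun J => fun i => rp q T t (J i)) ?_ ?_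
    · intro J hJ
      rw [Finset.mem_coe, Finset.mem_filter] at hJ
      obtain ⟨hJR, hJO⟩ := hJ
      rw [Finset.mem_coe, mem_Tup]
      have h2 : ∀ i, ci q T t (rp q T t (J i)) = J i := fun i => (rp_spec (hJO i)).2
      have h3 : ∀ i, (J i : ℝ) / q ≤ sc T t (rp q T t (J i)) ∧ sc T t (rp q T t (J i)) < ((J i : ℝ) + 1) / q := by
        intro i
        have := (ci_iff hq).2 (h2 i)
        unfold cell at this
        exact this
      refine ⟨fun i => rp_win hq (hJO i), ?_, ?_, ?_⟩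
      · intro i j hij
        apply hinj J hJR
        rw [← h2 i, ← h2 j]
        simp only at hij
        rw [hij]
      · obtain ⟨a1, a2⟩ := h0 J hJR
        obtain ⟨b1, b2⟩ := h3 0
        constructor
        · refine le_trans ?_ b1
          have : (0 : ℝ) ≤ J 0 := by exact_mod_cast a1
          positivity
        · refine b2.trans_le ?_
          rw [div_le_one hq']
          exact_mod_cast a2
      · intro i
        obtain ⟨a1, a2⟩ := hxy J hJR i
        obtain ⟨b1, b2⟩ := h3 0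
        obtain ⟨c1, c2⟩ := h3 i.succ
        constructor
        · have e : ((J i.succ : ℝ) - J 0 - 1) / q = (J i.succ : ℝ) / q - ((J 0 : ℝ) + 1) / q := by ring
          simp only
          linarith
        · have e : ((J i.succ : ℝ) - J 0 + 1) / q = ((J i.succ : ℝ) + 1) / q - (J 0 : ℝ) / q := by ring
          simp only
          linarith
    · intro J hJ J' hJ' h
      rw [Finset.mem_coe, Finset.mem_filter] at hJ hJ'
      funext i
      have h2 := congrFun h i
      simp only at h2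
      rw [← (rp_spec (hJ.2 i)).2, ← (rp_spec (hJ'.2 i)).2, h2]
  exact_mod_cast h1

/-- **upper bound** -/
lemma upper {m : ℕ} {q : ℕ} (hq : 0 < q) {L : ℕ} {T t : ℝ} {x y : Fin m → ℝ}
    (R : Finset (Fin (m + 1) → ℤ)) (hR : ∀ J ∈ R, ∀ i, J i ∈ Cw q L)
    (hall : ∀ J : Fin (m + 1) → ℤ, (∀ i, J i ∈ Cw q L) → Function.Injective J → 0 ≤ J 0 → J 0 < q →
      (∀ i : Fin m, x i ≤ ((J i.succ : ℝ) - J 0 + 1) / q ∧ ((J i.succ : ℝ) - J 0 - 1) / q ≤ y i) → J ∈ R) :
    ((Tup L T t x y).card : ℝ) ≤ ∑ J ∈ R, ∏ i, (1 - vd T (cell q (J i)) t) +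
      (m + 1) * ((NR q L T t).card : ℝ) * ((Win L T t).card : ℝ) ^ m := by
  classical
  have hq' : (0 : ℝ) < q := by exact_mod_cast hq
  rw [sum_prod hq R hR]
  obtain ⟨A1, hA1⟩ : ∃ A1 : Finset (Fin (m + 1) → ℕ), A1 = (Tup L T t x y).filter
    (fun w => ∀ i, w i ∉ NR q L T t) := ⟨_, rfl⟩
  obtain ⟨A2, hA2⟩ : ∃ A2 : Fin (m + 1) → Finset (Fin (m + 1) → ℕ), A2 = fun i => Fintype.piFinset
    (fun j => if j = i then NR q L T t else Win L T t) := ⟨_, rfl⟩
  have hsub : Tup L T t x y ⊆ A1 ∪ Finset.univ.biUnion A2 := by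
    intro w hw
    by_cases h : ∀ i, w i ∉ NR q L T t
    · exact Finset.mem_union_left _ (by rw [hA1]; exact Finset.mem_filter.2 ⟨hw, h⟩)
    · push Not at h
      obtain ⟨i, hi⟩ := h
      refine Finset.mem_union_right _ (Finset.mem_biUnion.2 ⟨i, Finset.mem_univ _, ?_⟩)
      rw [hA2]
      simp only
      rw [Fintype.mem_piFinset]
      intro j
      split_ifs with hj
      · rw [hj]; exact hi
      · exact (mem_Tup.1 hw).1 j
  have hc1 : A1.card ≤ (R.filter fun J => ∀ i, J i ∈ Oc q L T t).card := by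
    refine Finset.card_le_card_of_injOn (fun w => fun i => ci q T t (w i)) ?_ ?_
    · intro w hw
      rw [Finset.mem_coe, hA1, Finset.mem_filter, mem_Tup] at hw
      obtain ⟨⟨b1, b2, b3, b4⟩, b5⟩ := hw
      have b6 : ∀ i, rp q T t (ci q T t (w i)) = w i := fun i => not_NR (b1 i) (b5 i)
      have b7 : ∀ i, ci q T t (w i) ∈ Oc q L T t := fun i => by
        unfold Oc
        exact Finset.mem_image_of_mem _ (b1 i)
      have b8 : ∀ i, (ci q T t (w i) : ℝ) / q ≤ sc T t (w i) ∧ sc T t (w i) < ((ci q T t (w i) : ℝ) + 1) / q := by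
        intro i
        have := (ci_iff (T := T) (t := t) (n := w i) hq).2 rfl
        unfold cell at this
        exact this
      rw [Finset.mem_coe, Finset.mem_filter]
      refine ⟨hall _ (fun i => Oc_sub hq L T t (b7 i)) ?_ ?_ ?_ ?_, b7⟩
      · intro i j hij
        apply b2
        rw [← b6 i, ← b6 j]
        simp only at hij
        rw [hij]
      · unfold ci
        rw [Int.floor_nonneg]
        exact mul_nonneg hq'.le b3.1
      · unfold ci
        rw [Int.floor_lt]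
        push_cast
        have := b3.2
        nlinarith
      · intro i
        obtain ⟨c1, c2⟩ := b8 0
        obtain ⟨d1, d2⟩ := b8 i.succ
        obtain ⟨e1, e2⟩ := b4 i
        constructor
        · have e : ((ci q T t (w i.succ) : ℝ) - ci q T t (w 0) + 1) / q =
              ((ci q T t (w i.succ) : ℝ) + 1) / q - (ci q T t (w 0) : ℝ) / q := by ring
          rw [e]
          linarith
        · have e : ((ci q T t (w i.succ) : ℝ) - ci q T t (w 0) - 1) / q =
              (ci q T t (w i.succ) : ℝ) / q - ((ci q T t (w 0) : ℝ) + 1) / q := by ring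
          rw [e]
          linarith
    · intro w hw w' hw' h
      rw [Finset.mem_coe, hA1, Finset.mem_filter, mem_Tup] at hw hw'
      funext i
      have h2 := congrFun h i
      simp only at h2
      rw [← not_NR (hw.1.1 i) (hw.2 i), ← not_NR (hw'.1.1 i) (hw'.2 i), h2]
  have hc2 : ∀ i, (A2 i).card = (NR q L T t).card * (Win L T t).card ^ m := by
    intro i
    rw [hA2]
    simp only
    rw [Fintype.card_piFinset, Fintype.prod_eq_mul_prod_compl i, if_pos rfl]
    congr 1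
    rw [Finset.prod_congr rfl (g := fun _ => (Win L T t).card) (fun j hj => by
      rw [Finset.mem_compl, Finset.mem_singleton] at hj
      rw [if_neg hj]), Finset.prod_const, Finset.card_compl]
    simp
  have h3 : (Tup L T t x y).card ≤ (R.filter fun J => ∀ i, J i ∈ Oc q L T t).card +
      (m + 1) * (NR q L T t).card * (Win L T t).card ^ m := by
    calc (Tup L T t x y).card ≤ (A1 ∪ Finset.univ.biUnion A2).card := Finset.card_le_card hsub
      _ ≤ A1.card + (Finset.univ.biUnion A2).card := Finset.card_union_le _ _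
      _ ≤ (R.filter fun J => ∀ i, J i ∈ Oc q L T t).card + ∑ i, (A2 i).card := by
          gcongr
          exact Finset.card_biUnion_le
      _ = _ := by
          simp only [hc2, Finset.sum_const, Finset.card_univ, Fintype.card_fin, smul_eq_mul]
          ring
  exact_mod_cast h3

end

end Pool.Agent.K4H58.KL
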